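import Pool.Agent.T9h38.CS.Grp

set_option autoImplicit false
set_option maxHeartbeats 1000000
set_option linter.unusedSectionVars false

/-!
# The groups contain the Hodge group and the weights
-/

open Module Function TensorProduct Matrix

noncomputable section

namespace Pool.Agent.T9h38.CS

open Pool.Agent.Y102 Pool.Agent.W516.DR Pool.Agent.H204R3.GP Pool.Agent.W516.KC
  Pool.Agent.H204R3.SP Pool.Agent.TH119.MX
open Pool.Agent.N192.GP hiding XX QQ
open Pool.Agent.N192.GT
open Pool.Agent.T9h38.CM hiding RR RI main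
open Pool.Agent.R917 (QQ QA QQ_le_QA mem_QA lamF lamF_apply derQ hm hm_apply)

variable {K : Type} [Fintype K] [DecidableEq K] {g : K → ℕ} {A : ∀ k, AbVar (g k)} {F : K → Type}
  [∀ k, Field (F k)] [∀ k, NumberField (F k)] [∀ k, NumberField.IsCMField (F k)]
  {ι : ∀ k, F k →+* Module.End ℚ (A k).H1} {d : ℕ} {V : DRS d}

local instance decB (k : K) : DecidableEq (F k →+* ℂ) := Classical.decEq _

/-- The endomorphisms in the Lie algebra of the abelian varieties. -/
theorem exists_elt (hD : ∀ k, Dat (ι k) (fun φ : F k →+* ℂ => φ) cj)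
    (hdis : ∀ i j, i ≠ j → DisjointFields (F i) (F j)) (hF : ∀ k, Full1 (ι k) V)
    {X : ∀ k, Module.End ℚ (A k).H1} (hX : ∀ k, X k ∈ (A k).NA) :
    ∃ Y ∈ hmin ι V, (∀ k, ap A Y k = X k) ∧ vp Y = 0 ∧ Y.2 = 0 := by
  choose b hb using fun k => exists_of_NA (hD k) (hX k)
  refine ⟨elt ι b, mem_of_full hD hdis hF fun k φ => ?_, fun k => hb k, rfl, rfl⟩
  have h1 : ι k (b k) ∈ (A k).NA := by
    rw [hb]
    exact hX k
  exact conj_neg (hD k) h1 φ

/-- The complex structure. -/
theorem J_mem (hD : ∀ k, Dat (ι k) (fun φ : F k →+* ℂ => φ) cj)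
    (hdis : ∀ i j, i ≠ j → DisjointFields (F i) (F j)) (hF : ∀ k, Full1 (ι k) V)
    (lam : ℝ →ₗ[ℚ] ℚ) :
    ∃ Y ∈ hmin ι V, (∀ k, ap A Y k = (A k).cmpE lam AbVar.JJ) ∧ vp Y = 0 := by
  obtain ⟨Y, h1, h2, h3, -⟩ := exists_elt hD hdis hF
    (X := fun k => (A k).cmpE lam AbVar.JJ) fun k => (A k).MA_le_NA ((A k).J_mem lam)
  exact ⟨Y, h1, h2, h3⟩

/-- The weights. -/
theorem exists_weight (hD : ∀ k, Dat (ι k) (fun φ : F k →+* ℂ => φ) cj)
    (hdis : ∀ i j, i ≠ j → DisjointFields (F i) (F j)) (hF : ∀ k, Full1 (ι k) V) :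
    ∃ Y ∈ hmin ι V, ∀ k, ap A Y k = 1 := by
  obtain ⟨D, lam, hne⟩ := R917.exists_der
  have h0 : tt D lam / 2 ≠ 0 := by
    have h1 : lam (D tau / (2 * tau)) = tt D lam / 2 := by
      unfold tt
      have h2 : D tau / (2 * tau) = (2⁻¹ : ℚ) • (D tau / tau) := by
        rw [Rat.smul_def]
        push_cast
        rw [mul_comm (2 : ℂ) tau, ← div_div, div_eq_mul_inv _ (2 : ℂ), mul_comm]
      rw [h2, map_smul, smul_eq_mul]
      ring
    rwa [h1] at hne
  obtain ⟨X, hX, h1, -, -⟩ := exists_elt hD hdis hF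
    (X := fun k => pr (Sum.inl k) (gn (ηη A fun _ : Unit => V) D lam)) fun k =>
      (gg_full A (fun _ : Unit => V) k).le ⟨_, gn_mem_LG _ D lam, rfl⟩
  refine ⟨(tt D lam / 2)⁻¹ • (gn (ηη A fun _ : Unit => V) D lam - X),
    (hmin ι V).smul_mem _ ((hmin ι V).sub_mem ((hmin_closed ι V).gn D lam) hX), fun k => ?_⟩
  have h3 : (tt D lam / 2)⁻¹ • (ap A (gn (ηη A fun _ : Unit => V) D lam) k - ap A X k) =
      (1 : Module.End ℚ (A k).H1) := by
    rw [h1 k, pr_apply]
    change (tt D lam / 2)⁻¹ • (ap A (gn (ηη A fun _ : Unit => V) D lam) k -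
      (ap A (gn (ηη A fun _ : Unit => V) D lam) k - (tt D lam / 2) • 1)) = 1
    rw [sub_sub_cancel, smul_smul, inv_mul_cancel₀ h0, one_smul]
  exact h3

/-! ### The group -/

variable {H : Set (Matrix (Row g fun _ : Unit => d) (Row g fun _ : Unit => d) ℂ)}

/-- The group is large. -/
structure Large (A : ∀ k, AbVar (g k)) (d : ℕ)
    (H : Set (Matrix (Row g fun _ : Unit => d) (Row g fun _ : Unit => d) ℂ)) : Prop where
  grp : AlgGrp QQ H
  cx : ∀ lam : ℝ →ₗ[ℚ] ℚ, ∃ Y : RS g d, Y ∈ hG H ∧ (∀ k, ap A Y k = (A k).cmpE lam AbVar.JJ) ∧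
    vp Y = 0
  wt : ∃ Y : RS g d, Y ∈ hG H ∧ ∀ k, ap A Y k = 1

theorem large (hD : ∀ k, Dat (ι k) (fun φ : F k →+* ℂ => φ) cj)
    (hdis : ∀ i j, i ≠ j → DisjointFields (F i) (F j)) (hF : ∀ k, Full1 (ι k) V)
    (hH : PtW (bR g fun _ : Unit => d) (fR A fun _ : Unit => V) H) : Large A d H where
  grp := hH.grp
  cx := by
    intro lam
    obtain ⟨Y, h1, h2, h3⟩ := J_mem hD hdis hF lam
    exact ⟨Y, hmin_le ι V (hG_closed hD hH) h1, h2, h3⟩
  wt := by
    obtain ⟨Y, h1, h2⟩ := exists_weight hD hdis hF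
    exact ⟨Y, hmin_le ι V (hG_closed hD hH) h1, h2⟩

/-- The complex structure is in the Lie algebra of the group. -/
theorem Large.stab_J (h : Large A d H) (δ : ℕ) :
    Stab H δ (rho A (fun _ : Unit => d) Complex.I 0) := by
  classical
  obtain ⟨s, hs⟩ := R917.exists_coords (fun p : Σ i, Fin (2 * g i) × Fin (2 * g i) =>
    (A p.1).lam.repr (Complex.I • (A p.1).lam p.2.1) p.2.2)
  let f : Basis.ofVectorSpaceIndex ℚ ℝ → (ℝ →ₗ[ℚ] ℚ) := fun k => (Basis.ofVectorSpace ℚ ℝ).coord k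
  choose X hX1 hX2 hX3 using fun k => h.cx (f k)
  have h1 : rho A (fun _ : Unit => d) Complex.I 0 =
      ∑ k ∈ s, ((Basis.ofVectorSpace ℚ ℝ k : ℝ) : ℂ) •
        (tC (bR g fun _ : Unit => d) (act (X k).1))ᵀ := by
    have h2 : ∀ k, (tC (bR g fun _ : Unit => d) (act (X k).1))ᵀ =
        fromBlocks (blockDiagonal' fun i => (toC ((A i).cmpE (f k) AbVar.JJ))ᵀ) 0 0 0 := by
      intro k
      rw [tC_act (A := A), hX3, ← Yb, Yb_zero]
      have h3 : (fun i => (toC (ap A (X k) i))ᵀ) =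
          fun i => (toC ((A i).cmpE (f k) AbVar.JJ))ᵀ := by
        funext i
        rw [hX2]
      rw [h3]
    simp only [h2]
    ext a c
    rw [Matrix.sum_apply]
    rcases a with ⟨i, p⟩ | ⟨j, p⟩ <;> rcases c with ⟨i', q⟩ | ⟨j', q⟩
    · unfold rho
      simp only [Matrix.smul_apply, fromBlocks_apply₁₁]
      by_cases hii : i = i'
      · subst hii
        simp only [blockDiagonal'_apply_eq]
        rw [hm_apply]
        have h3 := hs ⟨i, p, q⟩
        rw [h3]
        push_cast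
        refine Finset.sum_congr rfl fun k _ => ?_
        have h5 : (A i).per (Pi.single p 1) = (A i).lam p := by
          have h6 := (A i).per_bas p
          unfold AbVar.bas at h6
          rwa [Pi.basisFun_apply] at h6
        have h4 : (toC ((A i).cmpE (f k) AbVar.JJ))ᵀ p q =
            (((A i).cmpE (f k) AbVar.JJ (Pi.single p 1) q : ℚ) : ℂ) := rfl
        rw [h4, AbVar.cmpE_apply, h5, smul_eq_mul, mul_comm]
        rfl
      · simp only [blockDiagonal'_apply_ne _ _ _ hii, smul_zero, Finset.sum_const_zero]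
    · unfold rho
      simp only [Matrix.smul_apply, fromBlocks_apply₁₂, Matrix.zero_apply, smul_zero,
        Finset.sum_const_zero]
    · unfold rho
      simp only [Matrix.smul_apply, fromBlocks_apply₂₁, Matrix.zero_apply, smul_zero,
        Finset.sum_const_zero]
    · unfold rho
      simp only [Matrix.smul_apply, fromBlocks_apply₂₂, Matrix.zero_apply, smul_zero,
        Finset.sum_const_zero, zero_smul]
  rw [h1]
  exact stab_sumW s _ fun k _ => (mem_hG.1 (hX1 k) δ).smul _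

/-- The group contains the circle. -/
theorem Large.rho_mem (h : Large A d H) {z : ℂ} (hz : ‖z‖ = 1) :
    rho A (fun _ : Unit => d) z 1 ∈ H := by
  have h1 : Complex.exp (Complex.arg z * Complex.I) = z := by
    have h2 := Complex.norm_mul_exp_arg_mul_I z
    rwa [hz, Complex.ofReal_one, one_mul] at h2
  rw [← h1, ← Complex.exp_zero, rho_exp]
  refine R917.exp_mem h.grp fun δ => ?_
  have h3 : rho A (fun _ : Unit => d) (Complex.arg z * Complex.I) 0 =
      (Complex.arg z : ℂ) • rho A (fun _ : Unit => d) Complex.I 0 := by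
    rw [← rho_real, mul_zero]
  rw [h3]
  exact (h.stab_J δ).smul _

theorem Large.stab_weight (h : Large A d H) :
    ∃ M : Matrix (Σ _ : Unit, Fin d) (Σ _ : Unit, Fin d) ℂ, ∀ δ,
      Stab H δ (fromBlocks (1 : Matrix (Σ i, Fin (2 * g i)) (Σ i, Fin (2 * g i)) ℂ) 0 0 M) := by
  obtain ⟨Y, hY, h1⟩ := h.wt
  refine ⟨Yb (vp Y), fun δ => ?_⟩
  have h2 : (tC (bR g fun _ : Unit => d) (act Y.1))ᵀ = fromBlocks
      (1 : Matrix (Σ i, Fin (2 * g i)) (Σ i, Fin (2 * g i)) ℂ) 0 0 (Yb (vp Y)) := by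
    rw [tC_act (A := A), ← blockDiagonal'_one]
    have h3 : (fun k => (toC (ap A Y k))ᵀ) =
        (1 : ∀ k, Matrix (Fin (2 * g k)) (Fin (2 * g k)) ℂ) := by
      funext k
      rw [h1]
      ext p q
      change (((1 : Module.End ℚ (A k).H1) (Pi.single p 1) q : ℚ) : ℂ) =
        (1 : Matrix (Fin (2 * g k)) (Fin (2 * g k)) ℂ) p q
      rw [Module.End.one_apply, Matrix.one_apply, Pi.single_apply]
      by_cases hpq : p = q
      · subst hpq
        rw [if_pos rfl, if_pos rfl, Rat.cast_one]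
      · rw [if_neg (Ne.symm hpq), if_neg hpq, Rat.cast_zero]
    rw [h3]
    rfl
  rw [← h2]
  exact mem_hG.1 hY δ

/-- The image of the Deligne torus. -/
theorem Large.torus_mem (h : Large A d H) {z : ℂ} (hz : z ≠ 0) :
    ∃ v : Matrix (Σ _ : Unit, Fin d) (Σ _ : Unit, Fin d) ℂ,
      fromBlocks (blockDiagonal' fun i => hm (A i) z) 0 0 v ∈ H := by
  obtain ⟨M, hM⟩ := h.stab_weight
  have h1 : blockDiagonal' (fun i => hm (A i) (Complex.log z)) =
      ((Complex.log z).re : ℂ) • (1 : Matrix (Σ i, Fin (2 * g i)) (Σ i, Fin (2 * g i)) ℂ) +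
        ((Complex.log z).im : ℂ) • blockDiagonal' fun i => hm (A i) Complex.I := by
    rw [← blockDiagonal'_one, ← blockDiagonal'_smul, ← blockDiagonal'_smul,
      ← blockDiagonal'_add]
    congr 1
    funext i
    exact R917.hm_eq (A i) (Complex.log z)
  refine ⟨NormedSpace.exp (((Complex.log z).re : ℂ) • M), ?_⟩
  rw [← Complex.exp_log hz, ← exp_bd A (fun _ : Unit => d), ← exp_fb, Complex.exp_log hz, h1]
  refine R917.exp_mem h.grp fun δ => ?_
  have h2 : fromBlocks (((Complex.log z).re : ℂ) •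
      (1 : Matrix (Σ i, Fin (2 * g i)) (Σ i, Fin (2 * g i)) ℂ) +
        ((Complex.log z).im : ℂ) • blockDiagonal' fun i => hm (A i) Complex.I) 0 0
        (((Complex.log z).re : ℂ) • M) =
      ((Complex.log z).re : ℂ) • fromBlocks 1 0 0 M +
        ((Complex.log z).im : ℂ) • rho A (fun _ : Unit => d) Complex.I 0 := by
    unfold rho
    rw [fromBlocks_smul, fromBlocks_smul, fromBlocks_add]
    simp only [zero_smul, smul_zero, add_zero]
  rw [h2]
  exact ((hM δ).smul _).add ((h.stab_J δ).smul _)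

/-! ### The data for one field -/

theorem dat1 {g : ℕ} {A : AbVar g} {F : Type} [Field F] [NumberField F]
    [NumberField.IsCMField F] {ι : F →+* Module.End ℚ A.H1} (hdim : finrank ℚ F = 2 * g)
    (hend : ∀ P, IsDeRhamBettiEnd QBar A.dR P ↔ ∃ a, ι a = P) :
    Dat ι (fun φ : F →+* ℂ => φ) cj := by
  have hpos : 0 < 2 * g := by
    rw [← hdim]
    exact finrank_pos
  have hv : (Pi.single ⟨0, hpos⟩ 1 : A.H1) ≠ 0 := by
    intro h
    have h1 := congrFun h ⟨0, hpos⟩
    rw [Pi.single_eq_same] at h1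
    exact one_ne_zero h1
  refine ⟨fun _ _ h => h, ?_, hend, ⟨Pi.single ⟨0, hpos⟩ 1, ?_⟩, fun _ => rfl,
    (NumberField.IsCMField.complexConj F : F →+* F), fun φ => ?_⟩
  · rw [← hdim]
    exact NumberField.Embeddings.card F ℂ
  · let L : F →ₗ[ℚ] A.H1 :=
      { toFun := fun a => ι a (Pi.single ⟨0, hpos⟩ 1)
        map_add' := fun a b => by rw [map_add, LinearMap.add_apply]
        map_smul' := fun q a => by
          rw [iota_smul, LinearMap.smul_apply]
          rfl }
    have hL : Function.Injective L := by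
      rw [injective_iff_map_eq_zero]
      intro a ha
      by_contra hne
      apply hv
      have h1 : ι a (Pi.single ⟨0, hpos⟩ 1) = 0 := ha
      have h2 : ι (a⁻¹ * a) (Pi.single ⟨0, hpos⟩ 1) = 0 := by
        rw [map_mul, Module.End.mul_apply, h1, map_zero]
      rwa [inv_mul_cancel₀ hne, map_one, Module.End.one_apply] at h2
    have hfin : finrank ℚ F = finrank ℚ A.H1 := by
      rw [hdim]
      change _ = finrank ℚ (Fin (2 * g) → ℚ)
      rw [Module.finrank_fin_fun]
    exact ⟨hL, (LinearMap.injective_iff_surjective_of_finrank_eq_finrank hfin).1 hL⟩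
  · refine RingHom.ext fun a => ?_
    change (starRingEnd ℂ) (φ a) = φ (NumberField.IsCMField.complexConj F a)
    rw [NumberField.IsCMField.complexEmbedding_complexConj]

end Pool.Agent.T9h38.CS
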