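import Pool.Agent.T9h38.CS.Gal

set_option autoImplicit false
set_option linter.unusedSectionVars false

/-!
# The number of conjugates in a space spanned by few numbers
-/

open Module

noncomputable section

namespace Pool.Agent.T9h38.CS

open Pool.Agent.T9h38.CM

variable {K : Type} [Fintype K] [DecidableEq K] {F : K → Type} [∀ k, Field (F k)]
  [∀ k, NumberField (F k)] [∀ k, NumberField.IsCMField (F k)]

local instance decX'' : DecidableEq (Emb F) := Classical.decEq _

local instance decF'' (i : K) : DecidableEq (F i →+* ℂ) := Classical.decEq _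

theorem Sys.conj {p : Emb F → ℂ} (hp : Sys p) (x : Emb F) : (starRingEnd ℂ) (p x) = p (cc x) := by
  have h1 := hp.equi (starRingAut : ℂ ≃+* ℂ) x
  have h2 : sg (starRingAut : ℂ ≃+* ℂ) x = cc x := rfl
  rw [h2] at h1
  exact h1.symm

theorem Sys.re {p : Emb F → ℂ} (hp : Sys p) (x : Emb F) : (p x).re = 0 := by
  have h1 := congrArg Complex.re ((hp.conj x).trans (hp.odd x))
  rw [Complex.conj_re, Complex.neg_re] at h1
  linarith

theorem bot_stable (τ : ℂ ≃+* ℂ) (z : ℂ) (hz : z ∈ (⊥ : Submodule ℚ ℂ)) :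
    τ z ∈ (⊥ : Submodule ℚ ℂ) := by
  rw [Submodule.mem_bot] at hz ⊢
  rw [hz, map_zero]

theorem Sys.irr {p : Emb F → ℂ} (hp : Sys p) {i : K} (hi : Irr (F i)) (hne : ∃ φ, p ⟨i, φ⟩ ≠ 0)
    (f : (F i →+* ℂ) → ℚ) (hf : ∀ φ, f (cj φ) = -f φ) (h0 : ∑ φ, f φ • p ⟨i, φ⟩ = 0) : f = 0 := by
  rcases irr_cases hi hp (L := ⊥) bot_stable with h | h
  · exact h f hf ((Submodule.mem_bot ℚ).2 h0)
  · obtain ⟨φ, hφ⟩ := hne
    exact absurd ((Submodule.mem_bot ℚ).1 (h φ)) hφ

theorem Sys.ne {p : Emb F → ℂ} (hp : Sys p) {i : K} (hi : Irr (F i)) (hne : ∃ φ, p ⟨i, φ⟩ ≠ 0)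
    (φ : F i →+* ℂ) : p ⟨i, φ⟩ ≠ 0 := by
  intro h0
  have h1 := hp.irr hi hne (eps cj φ) (eps_odd φ) (by
    have h3 : p ⟨i, cj φ⟩ = -p ⟨i, φ⟩ := hp.odd ⟨i, φ⟩
    unfold eps
    simp only [sub_smul, ite_smul, one_smul, zero_smul, Finset.sum_sub_distrib,
      Finset.sum_ite_eq', Finset.mem_univ, if_true]
    rw [h3, h0, neg_zero, sub_zero])
  have h2 := congrFun h1 φ
  unfold eps at h2
  rw [if_pos rfl, if_neg (cj_ne φ).symm, sub_zero, Pi.zero_apply] at h2
  exact one_ne_zero h2

theorem Sys.free {p : Emb F → ℂ} (hp : Sys p)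
    (hdis : ∀ i j, i ≠ j → DisjointFields (F i) (F j)) (hi : ∀ i, Irr (F i))
    (hne : ∀ i, ∃ φ, p ⟨i, φ⟩ ≠ 0) {f : Emb F → ℚ} (hf : f ∈ Rs p ⊥) : f = 0 := by
  funext x
  obtain ⟨i, φ⟩ := x
  have h4 := comp_mem (J := Rs p ⊥) (fun τ f hf => Rs_stable hp bot_stable τ hf)
    (fun f hf => hf.1) hdis hf i
  have h5 := h4.2
  rw [sum_ext, Submodule.mem_bot] at h5
  have h6 := hp.irr (hi i) (hne i) (fun φ => f ⟨i, φ⟩) (fun φ => hf.1 ⟨i, φ⟩) h5
  exact congrFun h6 φ

/-- Half of a symmetric set. -/
theorem card_half (Z : Finset ℂ) (hZ : ∀ z ∈ Z, (starRingEnd ℂ) z ∈ Z) :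
    2 * (Z.filter fun z => 0 < z.im).card ≤ Z.card := by
  classical
  have h1 : (Z.filter fun z => 0 < z.im).card = (Z.filter fun z => z.im < 0).card := by
    refine Finset.card_bij' (fun z _ => (starRingEnd ℂ) z) (fun z _ => (starRingEnd ℂ) z) ?_ ?_ ?_ ?_
    · intro z hz
      rw [Finset.mem_filter] at hz ⊢
      exact ⟨hZ z hz.1, by rw [Complex.conj_im]; linarith [hz.2]⟩
    · intro z hz
      rw [Finset.mem_filter] at hz ⊢
      exact ⟨hZ z hz.1, by rw [Complex.conj_im]; linarith [hz.2]⟩
    · intro z _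
      exact Complex.conj_conj z
    · intro z _
      exact Complex.conj_conj z
  have h2 : Disjoint (Z.filter fun z => 0 < z.im) (Z.filter fun z => z.im < 0) := by
    rw [Finset.disjoint_filter]
    intro z _ h h'
    linarith
  have h3 := Finset.card_union_of_disjoint h2
  have h4 : ((Z.filter fun z => 0 < z.im) ∪ Z.filter fun z => z.im < 0).card ≤ Z.card := by
    refine Finset.card_le_card (Finset.union_subset (Finset.filter_subset _ _)
      (Finset.filter_subset _ _))
  omega

/-- **The count.** -/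
theorem card_le {p : Emb F → ℂ} (hp : Sys p)
    (hdis : ∀ i j, i ≠ j → DisjointFields (F i) (F j)) (hi : ∀ i, Irr (F i))
    (hne : ∀ i, ∃ φ, p ⟨i, φ⟩ ≠ 0) (Z : Finset ℂ) (hZ : ∀ z ∈ Z, (starRingEnd ℂ) z ∈ Z)
    (hpZ : ∀ x, p x ∈ Submodule.span ℚ (Z : Set ℂ)) : Fintype.card (Emb F) ≤ Z.card := by
  classical
  have hne' : ∀ x, p x ≠ 0 := fun ⟨i, φ⟩ => hp.ne (hi i) (hne i) φ
  have him : ∀ x, (p x).im ≠ 0 := fun x h0 => hne' x (Complex.ext (hp.re x) h0)
  -- the positive part
  let P : Finset (Emb F) := Finset.univ.filter fun x => 0 < (p x).im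
  have hP : ∀ x, x ∈ P ↔ 0 < (p x).im := fun x => by simp [P]
  have hcP : ∀ x, cc x ∈ P ↔ x ∉ P := by
    intro x
    rw [hP, hP, hp.odd, Complex.neg_im]
    have := him x
    constructor
    · intro h h'
      linarith
    · intro h
      rcases lt_or_gt_of_ne this with h1 | h1
      · linarith
      · exact absurd h1 h
  have hcard : Fintype.card (Emb F) = 2 * P.card := by
    have h1 : P.card = (Finset.univ \ P).card := by
      refine Finset.card_bij' (fun x _ => cc x) (fun x _ => cc x) ?_ ?_ ?_ ?_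
      · intro x hx
        rw [Finset.mem_sdiff]
        exact ⟨Finset.mem_univ _, fun h => ((hcP x).1 h) hx⟩
      · intro x hx
        rw [Finset.mem_sdiff] at hx
        exact (hcP x).2 hx.2
      · intro x _
        exact cc_cc x
      · intro x _
        exact cc_cc x
    have h2 : P.card + (Finset.univ \ P).card = Fintype.card (Emb F) := by
      rw [← Finset.card_univ, ← Finset.card_sdiff_add_card_eq_card (Finset.subset_univ P), add_comm]
    omega
  -- the positive numbers
  let Q : ℂ →ₗ[ℚ] ℂ :=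
    { toFun := fun z => (2⁻¹ : ℂ) * (z - (starRingEnd ℂ) z)
      map_add' := fun z w => by rw [map_add]; ring
      map_smul' := fun q z => by
        rw [Rat.smul_def, map_mul, map_ratCast, RingHom.id_apply, Rat.smul_def]
        ring }
  have hQ : ∀ z, Q z = (2⁻¹ : ℂ) * (z - (starRingEnd ℂ) z) := fun z => rfl
  let S : Finset ℂ := (Z.filter fun z => 0 < z.im).image Q
  have hQS : ∀ z ∈ Submodule.span ℚ (Z : Set ℂ), Q z ∈ Submodule.span ℚ (S : Set ℂ) := by
    intro z hz
    induction hz using Submodule.span_induction with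
    | mem z hz =>
      rcases lt_trichotomy z.im 0 with h | h | h
      · have h1 : (starRingEnd ℂ) z ∈ Z.filter fun z => 0 < z.im := by
          rw [Finset.mem_filter]
          exact ⟨hZ z hz, by rw [Complex.conj_im]; linarith⟩
        have h2 : Q z = -Q ((starRingEnd ℂ) z) := by
          rw [hQ, hQ, Complex.conj_conj]
          ring
        rw [h2]
        exact Submodule.neg_mem _ (Submodule.subset_span (Finset.mem_image_of_mem Q h1))
      · have h1 : Q z = 0 := by
          have h3 : (starRingEnd ℂ) z = z := Complex.conj_eq_iff_im.2 h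
          rw [hQ, h3, sub_self, mul_zero]
        rw [h1]
        exact Submodule.zero_mem _
      · exact Submodule.subset_span (Finset.mem_image_of_mem Q (Finset.mem_filter.2 ⟨hz, h⟩))
    | zero =>
      rw [map_zero]
      exact Submodule.zero_mem _
    | add a b _ _ ha hb =>
      rw [map_add]
      exact Submodule.add_mem _ ha hb
    | smul q a _ ha =>
      rw [map_smul]
      exact Submodule.smul_mem _ _ ha
  have hpS : ∀ x, p x ∈ Submodule.span ℚ (S : Set ℂ) := by
    intro x
    have h1 := hQS _ (hpZ x)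
    have h2 : Q (p x) = p x := by
      rw [hQ, hp.conj, hp.odd]
      ring
    rwa [h2] at h1
  -- independence
  have hli : LinearIndependent ℚ (fun x : P => p x.1) := by
    rw [Fintype.linearIndependent_iff]
    intro G hG
    let G' : Emb F → ℚ := fun x => if h : x ∈ P then G ⟨x, h⟩ else 0
    let f : Emb F → ℚ := fun x => G' x - G' (cc x)
    have hf : f ∈ Rs p ⊥ := by
      refine ⟨fun x => ?_, ?_⟩
      · change G' (cc x) - G' (cc (cc x)) = -(G' x - G' (cc x))
        rw [cc_cc]
        ring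
      · rw [Submodule.mem_bot]
        have h1 := sum_odd hp.odd G'
        have h2 : ∑ x, G' x • p x = 0 := by
          rw [← hG, ← Finset.sum_subset (Finset.subset_univ P)]
          · rw [← Finset.sum_coe_sort P]
            refine Finset.sum_congr rfl fun x _ => ?_
            have : G' x.1 = G x := dif_pos x.2
            rw [this]
          · intro x _ hx
            have : G' x = 0 := dif_neg hx
            rw [this, zero_smul]
        have h3 : ∀ x, f x • p x = (2 : ℚ) • (((G' x - G' (cc x)) / 2) • p x) := by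
          intro x
          rw [smul_smul]
          congr 1
          change G' x - G' (cc x) = _
          ring
        rw [Finset.sum_congr rfl fun x _ => h3 x, ← Finset.smul_sum, h1, h2, smul_zero]
    have h0 := hp.free hdis hi hne hf
    intro x
    have h1 := congrFun h0 x.1
    change G' x.1 - G' (cc x.1) = 0 at h1
    have h2 : G' x.1 = G x := dif_pos x.2
    have h3 : G' (cc x.1) = 0 := dif_neg fun h => ((hcP x.1).1 h) x.2
    rw [h2, h3, sub_zero] at h1
    exact h1
  have h1 : P.card ≤ S.card := by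
    have h2 := finrank_span_eq_card hli
    rw [Fintype.card_coe] at h2
    rw [← h2]
    have h3 : Submodule.span ℚ (Set.range fun x : P => p x.1) ≤ Submodule.span ℚ (S : Set ℂ) := by
      rw [Submodule.span_le]
      rintro _ ⟨x, rfl⟩
      exact hpS x.1
    have : FiniteDimensional ℚ (Submodule.span ℚ (S : Set ℂ)) :=
      FiniteDimensional.span_finset ℚ S
    exact (Submodule.finrank_mono h3).trans (finrank_span_finset_le_card S)
  have h2 : S.card ≤ (Z.filter fun z => 0 < z.im).card := Finset.card_image_le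
  have h3 := card_half Z hZ
  omega

end Pool.Agent.T9h38.CS
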