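import Pool.Agent.T9h38.CS.Gal

set_option autoImplicit false
set_option linter.unusedSectionVars false

/-!
# Examples of irreducible and disjoint fields
-/

open Module

noncomputable section

namespace Pool.Agent.T9h38.CS

open Pool.Agent.T9h38.CM

variable {F : Type} [Field F] [NumberField F] [NumberField.IsCMField F]

local instance decE' : DecidableEq (F →+* ℂ) := Classical.decEq _

/-- Sum over the stabiliser of an embedding. -/
theorem exists_avg' {J : Submodule ℚ ((F →+* ℂ) → ℚ)}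
    (hst : ∀ (τ : ℂ ≃+* ℂ), ∀ f ∈ J, (fun φ => f (mv τ φ)) ∈ J) {f : (F →+* ℂ) → ℚ}
    (hf : f ∈ J) (φ : F →+* ℂ) : ∃ (S : Finset (Equiv.Perm (F →+* ℂ))), 1 ∈ S ∧
      (∀ σ ∈ S, σ φ = φ ∧ ∃ τ, mvE τ = σ) ∧
      (fun ψ => ∑ σ ∈ S, f (σ ψ)) ∈ J ∧
      ∀ (τ : ℂ ≃+* ℂ), mv τ φ = φ → ∀ ψ, ∑ σ ∈ S, f (σ (mv τ ψ)) = ∑ σ ∈ S, f (σ ψ) := by
  classical
  let S : Finset (Equiv.Perm (F →+* ℂ)) := Finset.univ.filter fun σ => (∃ τ, mvE τ = σ) ∧ σ φ = φ
  have hS : ∀ σ, σ ∈ S ↔ (∃ τ, mvE τ = σ) ∧ σ φ = φ := fun σ => by simp [S]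
  refine ⟨S, ?_, fun σ h => ⟨((hS σ).1 h).2, ((hS σ).1 h).1⟩, ?_, ?_⟩
  · rw [hS]
    refine ⟨⟨RingEquiv.refl ℂ, ?_⟩, rfl⟩
    ext ψ x
    rfl
  · have h1 : (fun ψ => ∑ σ ∈ S, f (σ ψ)) = ∑ σ ∈ S, fun ψ => f (σ ψ) := by
      funext ψ
      rw [Finset.sum_apply]
    rw [h1]
    refine J.sum_mem fun σ hσ => ?_
    obtain ⟨⟨τ, rfl⟩, _⟩ := (hS σ).1 hσ
    exact hst τ f hf
  · intro τ hτ ψ
    refine Finset.sum_nbij' (fun σ => σ * mvE τ) (fun σ => σ * (mvE τ)⁻¹) ?_ ?_ ?_ ?_ ?_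
    · intro σ hσ
      obtain ⟨⟨τ', rfl⟩, h2⟩ := (hS σ).1 hσ
      rw [hS]
      refine ⟨⟨τ.trans τ', ?_⟩, ?_⟩
      · ext χ x
        rfl
      · rw [Equiv.Perm.mul_apply]
        change (mvE τ') (mv τ φ) = φ
        rw [hτ, h2]
    · intro σ hσ
      obtain ⟨⟨τ', rfl⟩, h2⟩ := (hS σ).1 hσ
      rw [hS]
      refine ⟨⟨τ.symm.trans τ', ?_⟩, ?_⟩
      · ext χ x
        rfl
      · rw [Equiv.Perm.mul_apply]
        change (mvE τ') (mv τ.symm φ) = φ
        have h3 : mv τ.symm φ = φ := by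
          conv_lhs => rw [← hτ]
          exact symm_mv τ φ
        rw [h3, h2]
    · intro σ _
      simp
    · intro σ _
      simp
    · intro σ _
      rfl

/-- Odd functions are sums of the basic ones. -/
theorem odd_eq_sum {f : (F →+* ℂ) → ℚ} (hodd : ∀ φ, f (cj φ) = -f φ) :
    f = ∑ ψ : F →+* ℂ, (f ψ / 2) • eps cj ψ := by
  funext φ
  rw [Finset.sum_apply]
  have h1 : ∀ ψ : F →+* ℂ, ((f ψ / 2) • eps cj ψ) φ =
      (if φ = ψ then f ψ / 2 else 0) - if cj φ = ψ then f ψ / 2 else 0 := by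
    intro ψ
    rw [Pi.smul_apply, smul_eq_mul]
    unfold eps
    have h2 : (φ = cj ψ) = (cj φ = ψ) := by
      apply propext
      constructor
      · intro h
        rw [h, cj_cj]
      · intro h
        rw [← h, cj_cj]
    simp only [h2, mul_sub, mul_ite, mul_one, mul_zero]
  rw [Finset.sum_congr rfl fun ψ _ => h1 ψ, Finset.sum_sub_distrib, Finset.sum_ite_eq,
    Finset.sum_ite_eq, if_pos (Finset.mem_univ _), if_pos (Finset.mem_univ _), hodd]
  ring

/-- Separated fields are irreducible. -/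
theorem irr_of_separated (hs : Separated F) : Irr F := by
  intro J hst hodd
  by_cases hJ : J = ⊥
  · exact Or.inl hJ
  right
  obtain ⟨f, hf, hf0⟩ := (Submodule.ne_bot_iff J).1 hJ
  obtain ⟨φ, hφ⟩ : ∃ φ, f φ ≠ 0 := by
    by_contra hcon
    push Not at hcon
    exact hf0 (funext hcon)
  obtain ⟨S, h1, hS, hmem, hinv⟩ := exists_avg' (J := J) hst hf φ
  set b : (F →+* ℂ) → ℚ := fun ψ => ∑ σ ∈ S, f (σ ψ) with hb
  have hbφ : b φ = S.card * f φ := by
    rw [hb]
    change ∑ σ ∈ S, f (σ φ) = _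
    rw [Finset.sum_congr rfl fun σ hσ => by rw [(hS σ hσ).1], Finset.sum_const, nsmul_eq_mul]
  have hbodd : ∀ ψ, b (cj ψ) = -b ψ := hodd b hmem
  have hb0 : ∀ ψ, ψ ≠ φ → ψ ≠ cj φ → b ψ = 0 := by
    intro ψ h2 h3
    obtain ⟨τ, h4, h5⟩ := hs φ ψ h2 h3
    have h6 : b (mv τ ψ) = b ψ := hinv τ h4 ψ
    have h7 : mv τ ψ = cj ψ := h5
    rw [h7, hbodd] at h6
    linarith
  have h2 := eq_smul_eps hbodd hb0
  have h3 : b φ ≠ 0 := by
    rw [hbφ]
    refine mul_ne_zero ?_ hφ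
    have : 0 < S.card := Finset.card_pos.2 ⟨1, h1⟩
    positivity
  have h4 : eps cj φ ∈ J := by
    rw [h2] at hmem
    exact (Submodule.smul_mem_iff J h3).1 hmem
  have h5 : ∀ ψ : F →+* ℂ, eps cj ψ ∈ J := by
    intro ψ
    obtain ⟨τ, hτ⟩ := exists_move ψ φ
    have h6 := hst τ _ h4
    have h7 : (fun χ : F →+* ℂ => eps cj φ (mv τ χ)) = eps cj ψ := by
      funext χ
      have hτ' : mv τ ψ = φ := hτ
      unfold eps
      have e1 : (mv τ χ = φ) = (χ = ψ) := by
        apply propext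
        constructor
        · intro h
          exact mv_inj τ (h.trans hτ'.symm)
        · intro h
          rw [h, hτ']
      have e2 : (mv τ χ = cj φ) = (χ = cj ψ) := by
        apply propext
        constructor
        · intro h
          exact mv_inj τ (h.trans (by rw [mv_cj, hτ']))
        · intro h
          rw [h, mv_cj, hτ']
      simp only [e1, e2]
    have h8 : (fun χ : F →+* ℂ => eps cj φ (mv τ χ)) ∈ J := h6
    rw [h7] at h8
    exact h8
  intro f' hf'
  rw [odd_eq_sum hf']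
  exact J.sum_mem fun ψ _ => J.smul_mem _ (h5 ψ)

omit [NumberField.IsCMField F] in
theorem card_two (h2 : finrank ℚ F = 2) : Fintype.card (F →+* ℂ) = 2 := by
  rw [← h2]
  exact NumberField.Embeddings.card F ℂ

theorem eq_of_quadratic (h2 : finrank ℚ F = 2) (φ ψ : F →+* ℂ) : ψ = φ ∨ ψ = cj φ := by
  classical
  by_contra hcon
  push Not at hcon
  have h3 : ({φ, cj φ, ψ} : Finset (F →+* ℂ)).card = 3 := by
    rw [Finset.card_insert_of_notMem, Finset.card_insert_of_notMem, Finset.card_singleton]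
    · rw [Finset.mem_singleton]
      exact fun h => hcon.2 h.symm
    · rw [Finset.mem_insert, Finset.mem_singleton]
      rintro (h | h)
      · exact cj_ne φ h.symm
      · exact hcon.1 h.symm
  have h4 := Finset.card_le_univ ({φ, cj φ, ψ} : Finset (F →+* ℂ))
  rw [h3, card_two h2] at h4
  omega

/-- Imaginary quadratic fields are irreducible. -/
theorem irr_of_quadratic (h2 : finrank ℚ F = 2) : Irr F :=
  irr_of_separated fun φ ψ h h' => by
    rcases eq_of_quadratic h2 φ ψ with h3 | h3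
    · exact absurd h3 h
    · exact absurd h3 h'

/-- Imaginary quadratic fields are disjoint from all fields in which they are not contained. -/
theorem disjoint_of_quadratic {F' : Type} [Field F'] [NumberField F'] (h2 : finrank ℚ F = 2)
    (h : IsEmpty (F →+* F')) : DisjointFields F' F := by
  intro φ ψ
  by_contra hcon
  push Not at hcon
  have h1 : ∀ τ : ℂ ≃+* ℂ, (τ : ℂ →+* ℂ).comp φ = φ → (τ : ℂ →+* ℂ).comp ψ = ψ := by
    intro τ hτ
    rcases eq_of_quadratic h2 ψ ((τ : ℂ →+* ℂ).comp ψ) with h3 | h3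
    · exact h3
    · exact absurd h3 (hcon τ hτ)
  have h3 : ∀ x : F, ∃ y, φ y = ψ x := by
    intro x
    refine mem_range_of_fixed φ ?_ fun τ hτ => ?_
    · have h4 : IsAlgebraic ℚ x := Algebra.IsAlgebraic.isAlgebraic x
      exact h4.algHom ψ.toRatAlgHom
    · exact congrArg (fun f : F →+* ℂ => f x) (h1 τ hτ)
  choose s hs using h3
  refine h.false ⟨⟨⟨s, ?_⟩, ?_⟩, ?_, ?_⟩
  · exact φ.injective (by rw [hs, map_one, map_one])
  · intro x y
    exact φ.injective (by rw [hs, map_mul, map_mul, hs, hs])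
  · exact φ.injective (by
      change φ (s 0) = φ 0
      rw [hs, map_zero, map_zero])
  · intro x y
    exact φ.injective (by
      change φ (s (x + y)) = φ (s x + s y)
      rw [hs, map_add, map_add, hs, hs])

end Pool.Agent.T9h38.CS
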