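import Pool.Agent.T9h38.CS.Rel
import Pool.Agent.T9h38.CS.Exa

set_option autoImplicit false
set_option linter.unusedSectionVars false

/-!
# The number of exceptional members, general case
-/

open Module Function TensorProduct Matrix

noncomputable section

namespace Pool.Agent.T9h38.CS

open Pool.Agent.Y102 Pool.Agent.W516.DR Pool.Agent.H204R3.GP Pool.Agent.W516.KC
  Pool.Agent.H204R3.SP Pool.Agent.TH119.MX
open Pool.Agent.N192.GP hiding XX QQ
open Pool.Agent.T9h38.CM hiding RR RI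

/-! ### The imaginary part of the space of the eigenvalues -/

theorem exists_half {d : ℕ} (Y : Module.End ℚ (Fin d → ℚ)) : ∃ S : Finset ℂ, 2 * S.card ≤ d ∧
    ∀ z ∈ LV Y, (starRingEnd ℂ) z = -z → z ∈ Submodule.span ℚ (S : Set ℂ) := by
  classical
  let P : Polynomial ℂ := ((toC Y)ᵀ).charpoly
  have hP0 : P ≠ 0 := (Matrix.charpoly_monic _).ne_zero
  let Z : Finset ℂ := P.roots.toFinset
  have hZ : ∀ z, z ∈ Z ↔ z ∈ eigV Y := by
    intro z
    rw [Multiset.mem_toFinset, Polynomial.mem_roots hP0]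
    rfl
  have hcard : Z.card ≤ d := by
    have h1 : Z.card ≤ P.natDegree := (Multiset.toFinset_card_le _).trans (Polynomial.card_roots' P)
    rwa [Matrix.charpoly_natDegree_eq_dim, Fintype.card_fin] at h1
  have hconj : ∀ z ∈ Z, (starRingEnd ℂ) z ∈ Z := by
    intro z hz
    rw [hZ] at hz ⊢
    exact eigV_stable (starRingAut : ℂ ≃+* ℂ) hz
  let Q : ℂ →ₗ[ℚ] ℂ :=
    { toFun := fun z => (2⁻¹ : ℂ) * (z - (starRingEnd ℂ) z)
      map_add' := fun z w => by rw [map_add]; ring
      map_smul' := fun q z => by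
        rw [Rat.smul_def, map_mul, map_ratCast, RingHom.id_apply, Rat.smul_def]
        ring }
  have hQ : ∀ z, Q z = (2⁻¹ : ℂ) * (z - (starRingEnd ℂ) z) := fun z => rfl
  let S : Finset ℂ := (Z.filter fun z => 0 < z.im).image Q
  have hQS : ∀ z ∈ LV Y, Q z ∈ Submodule.span ℚ (S : Set ℂ) := by
    intro z hz
    unfold LV at hz
    induction hz using Submodule.span_induction with
    | mem z hz =>
      rcases hz with rfl | hz
      · rw [hQ, map_one, sub_self, mul_zero]
        exact Submodule.zero_mem _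
      · have hz' := (hZ z).2 hz
        rcases lt_trichotomy z.im 0 with h | h | h
        · have h1 : (starRingEnd ℂ) z ∈ Z.filter fun z => 0 < z.im := by
            rw [Finset.mem_filter]
            exact ⟨hconj z hz', by rw [Complex.conj_im]; linarith⟩
          have h2 : Q z = -Q ((starRingEnd ℂ) z) := by
            rw [hQ, hQ, Complex.conj_conj]
            ring
          rw [h2]
          exact Submodule.neg_mem _ (Submodule.subset_span (Finset.mem_image_of_mem Q h1))
        · have h1 : Q z = 0 := by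
            have h3 : (starRingEnd ℂ) z = z := Complex.conj_eq_iff_im.2 h
            rw [hQ, h3, sub_self, mul_zero]
          rw [h1]
          exact Submodule.zero_mem _
        · exact Submodule.subset_span (Finset.mem_image_of_mem Q (Finset.mem_filter.2 ⟨hz', h⟩))
    | zero =>
      rw [map_zero]
      exact Submodule.zero_mem _
    | add a b _ _ ha hb =>
      rw [map_add]
      exact Submodule.add_mem _ ha hb
    | smul q a _ ha =>
      rw [map_smul]
      exact Submodule.smul_mem _ _ ha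
  refine ⟨S, ?_, fun z hz h => ?_⟩
  · have h1 := card_half Z hconj
    have h2 : S.card ≤ (Z.filter fun z => 0 < z.im).card := Finset.card_image_le
    omega
  · have h1 := hQS z hz
    have h2 : Q z = z := by
      rw [hQ, h]
      ring
    rwa [h2] at h1

/-! ### Complements -/

section Compl

variable {F : Type} [Field F] [NumberField F] [NumberField.IsCMField F]

local instance decCo : DecidableEq (F →+* ℂ) := Classical.decEq _

/-- Every nonzero stable space of odd functions has dimension at least `n`. -/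
def MinOdd (F : Type) [Field F] (n : ℕ) : Prop :=
  ∀ J : Submodule ℚ ((F →+* ℂ) → ℚ),
    (∀ (τ : ℂ ≃+* ℂ), ∀ f ∈ J, (fun φ => f ((τ : ℂ →+* ℂ).comp φ)) ∈ J) →
    (∀ f ∈ J, ∀ φ : F →+* ℂ, f ((starRingEnd ℂ).comp φ) = -f φ) → J ≠ ⊥ → n ≤ finrank ℚ J

theorem exists_compl {M N : Submodule ℚ ((F →+* ℂ) → ℚ)}
    (hM : ∀ (τ : ℂ ≃+* ℂ), ∀ f ∈ M, (fun φ => f (mv τ φ)) ∈ M)
    (hN : ∀ (τ : ℂ ≃+* ℂ), ∀ f ∈ N, (fun φ => f (mv τ φ)) ∈ N) (hNM : N ≤ M)
    {e : (F →+* ℂ) → ℚ} (he : e ∈ M) (he' : e ∉ N) :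
    ∃ J : Submodule ℚ ((F →+* ℂ) → ℚ), J ≤ M ∧
      (∀ (τ : ℂ ≃+* ℂ), ∀ f ∈ J, (fun φ => f (mv τ φ)) ∈ J) ∧ (∀ f ∈ J, f ∈ N → f = 0) ∧
      J ≠ ⊥ := by
  let J : Submodule ℚ ((F →+* ℂ) → ℚ) :=
    { carrier := {f | f ∈ M ∧ ∀ h ∈ N, ∑ φ, f φ * h φ = 0}
      zero_mem' := ⟨M.zero_mem, fun h _ => by simp⟩
      add_mem' := by
        rintro f f' ⟨h1, h2⟩ ⟨h1', h2'⟩
        refine ⟨M.add_mem h1 h1', fun h hh => ?_⟩
        simp only [Pi.add_apply, add_mul, Finset.sum_add_distrib]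
        rw [h2 h hh, h2' h hh, add_zero]
      smul_mem' := by
        rintro q f ⟨h1, h2⟩
        refine ⟨M.smul_mem q h1, fun h hh => ?_⟩
        simp only [Pi.smul_apply, smul_eq_mul, mul_assoc]
        rw [← Finset.mul_sum, h2 h hh, mul_zero] }
  refine ⟨J, fun f hf => hf.1, fun τ f hf => ⟨hM τ f hf.1, fun h hh => ?_⟩, fun f hf hf' => ?_, ?_⟩
  · have h1 := hf.2 _ (hN τ.symm h hh)
    rw [← h1, ← Equiv.sum_comp (mvE τ) fun φ : F →+* ℂ => f φ * h (mv τ.symm φ)]
    refine Finset.sum_congr rfl fun φ _ => ?_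
    change _ = f (mv τ φ) * h (mv τ.symm (mv τ φ))
    rw [symm_mv]
  · have h1 := hf.2 f hf'
    rw [Finset.sum_eq_zero_iff_of_nonneg fun x _ => mul_self_nonneg _] at h1
    funext x
    exact mul_self_eq_zero.1 (h1 x (Finset.mem_univ x))
  · obtain ⟨κ, hκ⟩ := exists_kernel N
    rw [Submodule.ne_bot_iff]
    have hPe : ∑ y, e y • κ y ∈ N := N.sum_mem fun y _ => N.smul_mem _ (hκ.mem y)
    refine ⟨e - ∑ y, e y • κ y, ⟨M.sub_mem he (hNM hPe), fun h hh => ?_⟩, fun h0 => ?_⟩
    · have h1 : ∀ φ : F →+* ℂ, (e - ∑ y, e y • κ y) φ * h φ =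
          e φ * h φ - ∑ y, e y * (κ y φ * h φ) := by
        intro φ
        rw [Pi.sub_apply, Finset.sum_apply, sub_mul, Finset.sum_mul]
        congr 1
        refine Finset.sum_congr rfl fun y _ => ?_
        rw [Pi.smul_apply, smul_eq_mul, mul_assoc]
      rw [Finset.sum_congr rfl fun φ _ => h1 φ, Finset.sum_sub_distrib, Finset.sum_comm]
      have h2 : ∀ y : F →+* ℂ, ∑ φ, e y * (κ y φ * h φ) = e y * h y := by
        intro y
        rw [← Finset.mul_sum, hκ.rep h hh y]
      rw [Finset.sum_congr rfl fun y _ => h2 y, sub_self]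
    · apply he'
      rw [sub_eq_zero.1 h0]
      exact hPe

theorem sum_eps (φ : F →+* ℂ) (p : (F →+* ℂ) → ℂ) : ∑ χ, eps cj φ χ • p χ = p φ - p (cj φ) := by
  unfold eps
  simp only [sub_smul, ite_smul, one_smul, zero_smul, Finset.sum_sub_distrib,
    Finset.sum_ite_eq', Finset.mem_univ, if_true]

end Compl

/-! ### The count -/

variable {K : Type} [Fintype K] [DecidableEq K] {g : K → ℕ} {A : ∀ k, AbVar (g k)} {F : K → Type}
  [∀ k, Field (F k)] [∀ k, NumberField (F k)] [∀ k, NumberField.IsCMField (F k)]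
  {ι : ∀ k, F k →+* Module.End ℚ (A k).H1} {d : ℕ} {V : DRS d}

local instance decCg (k : K) : DecidableEq (F k →+* ℂ) := Classical.decEq _

local instance decCgX : DecidableEq (Emb F) := Classical.decEq _

/-- **The count.** -/
theorem countG (hD : ∀ k, Dat (ι k) (fun φ : F k →+* ℂ => φ) cj)
    (hdis : ∀ i j, i ≠ j → DisjointFields (F i) (F j)) {n : K → ℕ} (hn : ∀ k, MinOdd (F k) (n k))
    (hE : ∀ k, Exc (ι k) V) : ∑ k, 2 * n k ≤ d := by
  classical
  choose φ ψ hne hmem using hE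
  obtain ⟨ℓ, hℓ, hgen⟩ := exists_generic_LG (ι := ι) (V := V) hD φ ψ hne
  obtain ⟨a, ha, ha'⟩ := exists_fam_LG hD hℓ
  -- the spaces
  let M : ∀ k, Submodule ℚ ((F k →+* ℂ) → ℚ) := fun k => (Rs (pp a) (LV (vp ℓ))).comap (ext k)
  let N : ∀ k, Submodule ℚ ((F k →+* ℂ) → ℚ) := fun k => (Rs (pp a) ⊥).comap (ext k)
  have hext : ∀ (k : K) (τ : ℂ ≃+* ℂ) (f : (F k →+* ℂ) → ℚ),
      (fun x => ext k f (sg τ x)) = ext k (fun φ => f (mv τ φ)) := by
    intro k τ f
    funext x
    obtain ⟨j, ψ⟩ := x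
    by_cases h : j = k
    · subst h
      rw [sg_apply, ext_same, ext_same]
    · rw [sg_apply, ext_ne h, ext_ne h]
  have hstab : ∀ (L : Submodule ℚ ℂ), (∀ (τ : ℂ ≃+* ℂ), ∀ z ∈ L, τ z ∈ L) → ∀ (k : K)
      (τ : ℂ ≃+* ℂ), ∀ f ∈ (Rs (pp a) L).comap (ext k),
        (fun φ => f (mv τ φ)) ∈ (Rs (pp a) L).comap (ext k) := by
    intro L hL k τ f hf
    rw [Submodule.mem_comap] at hf ⊢
    have h1 := Rs_stable (pp_sys a) hL τ hf
    rw [hext] at h1
    exact h1
  have hodd : ∀ (k : K), ∀ f ∈ M k, ∀ φ : F k →+* ℂ, f (cj φ) = -f φ := by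
    intro k f hf φ
    have h1 := (Submodule.mem_comap.1 hf).1 ⟨k, φ⟩
    unfold cc at h1
    rw [ext_same, ext_same] at h1
    exact h1
  have hJ : ∀ k, ∃ J : Submodule ℚ ((F k →+* ℂ) → ℚ), J ≤ M k ∧
      (∀ (τ : ℂ ≃+* ℂ), ∀ f ∈ J, (fun φ => f (mv τ φ)) ∈ J) ∧ (∀ f ∈ J, f ∈ N k → f = 0) ∧
      J ≠ ⊥ := by
    intro k
    have h0 : eps cj (φ k) - eps cj (ψ k) ∈ Rm ι (LG (ηη A fun _ : Unit => V)) k := by
      rw [Rm_LG]
      exact hmem k
    have h1 : ∑ χ, (eps cj (φ k) - eps cj (ψ k)) χ • pp a ⟨k, χ⟩ =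
        pp a ⟨k, φ k⟩ - pp a ⟨k, cj (φ k)⟩ - (pp a ⟨k, ψ k⟩ - pp a ⟨k, cj (ψ k)⟩) := by
      simp only [Pi.sub_apply, sub_smul, Finset.sum_sub_distrib]
      rw [sum_eps, sum_eps]
    refine exists_compl (hstab _ (fun τ z hz => LV_stable _ τ z hz) k) (hstab _ bot_stable k) ?_
      (e := eps cj (φ k) - eps cj (ψ k)) ?_ ?_
    · intro f hf
      rw [Submodule.mem_comap, mem_Rs] at hf
      change ext k f ∈ Rs (pp a) (LV (vp ℓ))
      rw [mem_Rs]
      refine ⟨hf.1, ?_⟩
      rw [(Submodule.mem_bot ℚ).1 hf.2]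
      exact Submodule.zero_mem _
    · change ext k _ ∈ Rs (pp a) (LV (vp ℓ))
      rw [mem_Rs, sum_ext]
      refine ⟨?_, h0.2 ℓ hℓ (a k) (ha k)⟩
      rintro ⟨j, χ⟩
      unfold cc
      by_cases hj : j = k
      · subst hj
        rw [ext_same, ext_same]
        exact h0.1 χ
      · rw [ext_ne hj, ext_ne hj, neg_zero]
    · intro h2
      change ext k _ ∈ Rs (pp a) ⊥ at h2
      rw [mem_Rs, sum_ext, h1] at h2
      have h3 := (Submodule.mem_bot ℚ).1 h2.2
      have h4 : ∀ χ : F k →+* ℂ, pp a ⟨k, cj χ⟩ = -pp a ⟨k, χ⟩ := fun χ => (pp_sys a).odd ⟨k, χ⟩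
      have h5 : ∀ χ : F k →+* ℂ, pp a ⟨k, χ⟩ = 2 * χ (a k) - ((ℓ.2 : ℚ) : ℂ) := by
        intro χ
        rw [← ha' k χ]
        change χ (a k) - cj χ (a k) = _
        ring
      rw [h4, h4, h5, h5] at h3
      apply hgen k (a k) (ha k)
      linear_combination h3 / 4
  choose J hJM hJs hJN hJ0 using hJ
  -- the map
  let T : (∀ k, J k) →ₗ[ℚ] ℂ :=
    { toFun := fun f => ∑ k, ∑ χ, (f k).1 χ • pp a ⟨k, χ⟩
      map_add' := fun f f' => by
        rw [← Finset.sum_add_distrib]
        refine Finset.sum_congr rfl fun k _ => ?_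
        rw [← Finset.sum_add_distrib]
        refine Finset.sum_congr rfl fun χ _ => ?_
        rw [← add_smul]
        rfl
      map_smul' := fun q f => by
        rw [RingHom.id_apply, Finset.smul_sum]
        refine Finset.sum_congr rfl fun k _ => ?_
        rw [Finset.smul_sum]
        refine Finset.sum_congr rfl fun χ _ => ?_
        rw [smul_smul]
        rfl }
  have hT : ∀ f, T f = ∑ k, ∑ χ, (f k).1 χ • pp a ⟨k, χ⟩ := fun f => rfl
  have hTinj : Function.Injective T := by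
    rw [injective_iff_map_eq_zero]
    intro f hf
    let f' : Emb F → ℚ := fun x => (f x.1).1 x.2
    have hf' : f' ∈ Rs (pp a) ⊥ := by
      refine ⟨?_, ?_⟩
      · rintro ⟨k, χ⟩
        exact hodd k _ (hJM k (f k).2) χ
      · rw [Submodule.mem_bot, ← hf, hT, Fintype.sum_sigma]
    funext k
    have h1 := comp_mem (J := Rs (pp a) ⊥) (fun τ f hf => Rs_stable (pp_sys a) bot_stable τ hf)
      (fun f hf => hf.1) hdis hf' k
    exact Subtype.ext (hJN k (f k).1 (f k).2 h1)
  obtain ⟨S, hS, hspan⟩ := exists_half (vp ℓ)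
  have hrange : LinearMap.range T ≤ Submodule.span ℚ (S : Set ℂ) := by
    rintro _ ⟨f, rfl⟩
    rw [hT]
    refine hspan _ ?_ ?_
    · refine Submodule.sum_mem _ fun k _ => ?_
      have h1 := (Submodule.mem_comap.1 (hJM k (f k).2)).2
      rw [sum_ext] at h1
      exact h1
    · rw [map_sum, ← Finset.sum_neg_distrib]
      refine Finset.sum_congr rfl fun k _ => ?_
      rw [map_sum, ← Finset.sum_neg_distrib]
      refine Finset.sum_congr rfl fun χ _ => ?_
      rw [Rat.smul_def, map_mul, map_ratCast, (pp_sys a).conj, (pp_sys a).odd, mul_neg]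
  have h1 : ∑ k, n k ≤ S.card := by
    have e1 : ∑ k, n k ≤ finrank ℚ (∀ k, J k) := by
      rw [Module.finrank_pi_fintype]
      exact Finset.sum_le_sum fun k _ => hn k (J k) (hJs k)
        (fun f hf χ => hodd k f (hJM k hf) χ) (hJ0 k)
    have e2 : finrank ℚ (∀ k, J k) = finrank ℚ (LinearMap.range T) :=
      (LinearMap.finrank_range_of_inj hTinj).symm
    have e3 : FiniteDimensional ℚ (Submodule.span ℚ (S : Set ℂ)) :=
      FiniteDimensional.span_finset ℚ S
    have e4 := (Submodule.finrank_mono hrange).trans (finrank_span_finset_le_card S)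
    rw [← e2] at e4
    exact e1.trans e4
  rw [← Finset.mul_sum]
  omega

/-! ### Examples -/

section Exa

variable {F : Type} [Field F] [NumberField F] [NumberField.IsCMField F]

theorem minOdd_one : MinOdd F 1 := by
  intro J _ _ h
  have := Submodule.one_le_finrank_iff.2 h
  exact this

/-- The dimension of the space of the odd functions. -/
theorem minOdd_of_irr {g : ℕ} (hg : finrank ℚ F = 2 * g) (hF : Irr F) : MinOdd F g := by
  classical
  intro J hst hodd h
  rcases hF J hst hodd with h1 | h1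
  · exact absurd h1 h
  let e := Fintype.equivFin (F →+* ℂ)
  let s : (F →+* ℂ) → ℚ := fun φ => if e φ < e (cj φ) then 1 else -1
  have hs1 : ∀ φ, s φ * s φ = 1 := by
    intro φ
    change (if e φ < e (cj φ) then (1 : ℚ) else -1) * (if e φ < e (cj φ) then (1 : ℚ) else -1) = 1
    split_ifs <;> norm_num
  have hs2 : ∀ φ, s (cj φ) = -s φ := by
    intro φ
    change (if e (cj φ) < e (cj (cj φ)) then (1 : ℚ) else -1) =
      -(if e φ < e (cj φ) then (1 : ℚ) else -1)
    rw [cj_cj]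
    have h2 : e φ ≠ e (cj φ) := fun h => (cj_ne φ).symm (e.injective h)
    rcases lt_or_gt_of_ne h2 with h3 | h3
    · rw [if_pos h3, if_neg (not_lt.2 h3.le)]
    · rw [if_neg (not_lt.2 h3.le), if_pos h3, neg_neg]
  let Ev : Submodule ℚ ((F →+* ℂ) → ℚ) :=
    { carrier := {f | ∀ φ, f (cj φ) = f φ}
      zero_mem' := fun _ => rfl
      add_mem' := fun {a b} ha hb φ => by rw [Pi.add_apply, Pi.add_apply, ha, hb]
      smul_mem' := fun c a ha φ => by rw [Pi.smul_apply, Pi.smul_apply, ha] }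
  have hc : J ⊔ Ev = ⊤ := by
    rw [eq_top_iff]
    intro f _
    have h2 : f = (fun φ => (f φ - f (cj φ)) / 2) + fun φ => (f φ + f (cj φ)) / 2 := by
      funext φ
      rw [Pi.add_apply]
      ring
    rw [h2]
    refine Submodule.add_mem_sup (h1 _ fun φ => ?_) fun φ => ?_
    · rw [cj_cj]
      ring
    · rw [cj_cj]
      ring
  let L : Ev →ₗ[ℚ] J :=
    { toFun := fun f => ⟨fun φ => s φ * f.1 φ, h1 _ fun φ => by
        rw [hs2, f.2 φ]
        ring⟩
      map_add' := fun a b => Subtype.ext (funext fun φ => by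
        change s φ * (a.1 φ + b.1 φ) = s φ * a.1 φ + s φ * b.1 φ
        ring)
      map_smul' := fun c a => Subtype.ext (funext fun φ => by
        change s φ * (c * a.1 φ) = c * (s φ * a.1 φ)
        ring) }
  have hL : Function.Injective L := by
    rw [injective_iff_map_eq_zero]
    intro f hf
    refine Subtype.ext (funext fun φ => ?_)
    have h2 : s φ * f.1 φ = 0 := congrFun (congrArg Subtype.val hf) φ
    have h3 : s φ * (s φ * f.1 φ) = 0 := by rw [h2, mul_zero]
    rw [← mul_assoc, hs1, one_mul] at h3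
    exact h3
  have h2 : finrank ℚ Ev ≤ finrank ℚ J := LinearMap.finrank_le_finrank_of_injective hL
  have h3 := Submodule.finrank_add_le_finrank_add_finrank J Ev
  rw [hc, finrank_top, Module.finrank_fintype_fun_eq_card] at h3
  have h4 : Fintype.card (F →+* ℂ) = 2 * g := by
    rw [← hg]
    exact NumberField.Embeddings.card F ℂ
  rw [h4] at h3
  omega

end Exa

end Pool.Agent.T9h38.CS
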