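import Mathlib
import Pool.Agent.H327R2.SC.ExpPoly

set_option autoImplicit false
set_option linter.unusedSectionVars false

/-!
# Exponential polynomials
-/

open Polynomial Matrix

noncomputable section

namespace Pool.Agent.T9h38.CS

/-- The exponential polynomials, as the group algebra of the additive group with polynomial
coefficients. -/
abbrev EPoly : Type := AddMonoidAlgebra ℂ[X] ℂ

/-- the characters of the additive group -/
def chr (t : ℂ) (σ : ℂ →+ ℂ) : Multiplicative ℂ →* ℂ where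
  toFun μ := Complex.exp (t * σ μ.toAdd)
  map_one' := by
    change Complex.exp (t * σ 0) = 1
    rw [map_zero, mul_zero, Complex.exp_zero]
  map_mul' μ ν := by
    change Complex.exp (t * σ (μ.toAdd + ν.toAdd)) = _
    rw [map_add, mul_add, Complex.exp_add]

/-- The value: the polynomials are evaluated at `u`, and the exponentials at `t σ(μ)`. -/
def ev (u t : ℂ) (σ : ℂ →+ ℂ) : EPoly →+* ℂ :=
  AddMonoidAlgebra.liftNCRingHom (Polynomial.evalRingHom u) (chr t σ) fun _ _ => Commute.all _ _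

theorem ev_single (u t : ℂ) (σ : ℂ →+ ℂ) (μ : ℂ) (p : ℂ[X]) :
    ev u t σ (AddMonoidAlgebra.single μ p) = p.eval u * Complex.exp (t * σ μ) := by
  unfold ev
  exact AddMonoidAlgebra.liftNC_single _ _ _ _

theorem ev_apply (u t : ℂ) (σ : ℂ →+ ℂ) (a : EPoly) :
    ev u t σ a = ∑ μ ∈ a.coeff.support, (a.coeff μ).eval u * Complex.exp (t * σ μ) := by
  conv_lhs => rw [← AddMonoidAlgebra.sum_coeff_single a]
  rw [Finsupp.sum, map_sum]
  exact Finset.sum_congr rfl fun μ _ => ev_single u t σ μ (a.coeff μ)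

/-- A scale for which the exponentials are different. -/
theorem exists_scale (s : Finset ℂ) : ∃ τ : ℂ, τ ≠ 0 ∧ ∀ μ ∈ s, ∀ ν ∈ s,
    Complex.exp (τ * μ) = Complex.exp (τ * ν) → μ = ν := by
  obtain ⟨M, hM0, hM⟩ : ∃ M : ℝ, 0 < M ∧ ∀ μ ∈ s, ‖μ‖ < M := by
    refine ⟨∑ μ ∈ s, ‖μ‖ + 1, by positivity, fun μ hμ => ?_⟩
    have h0 : ‖μ‖ ≤ ∑ μ ∈ s, ‖μ‖ :=
      Finset.single_le_sum (f := fun μ : ℂ => ‖μ‖) (fun _ _ => norm_nonneg _) hμ
    linarith
  refine ⟨((1 / M : ℝ) : ℂ), by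
    rw [Ne, Complex.ofReal_eq_zero]
    positivity, fun μ hμ ν hν h => ?_⟩
  rw [Complex.exp_eq_exp_iff_exists_int] at h
  obtain ⟨n, hn⟩ := h
  have h1 : (μ - ν) = n * (2 * Real.pi * Complex.I) * M := by
    have hMc : (M : ℂ) ≠ 0 := by exact_mod_cast hM0.ne'
    have h2 : ((1 / M : ℝ) : ℂ) = (M : ℂ)⁻¹ := by push_cast; rw [one_div]
    rw [h2] at hn
    field_simp at hn
    linear_combination hn
  by_cases hn0 : n = 0
  · rw [hn0, Int.cast_zero, zero_mul, zero_mul] at h1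
    exact sub_eq_zero.1 h1
  exfalso
  have h3 : ‖μ - ν‖ < 2 * M := by
    calc ‖μ - ν‖ ≤ ‖μ‖ + ‖ν‖ := norm_sub_le _ _
      _ < M + M := add_lt_add (hM μ hμ) (hM ν hν)
      _ = 2 * M := by ring
  rw [h1] at h3
  simp only [norm_mul, Complex.norm_intCast, Complex.norm_real, Complex.norm_I, mul_one,
    Complex.norm_ofNat, Real.norm_eq_abs, abs_of_pos hM0, abs_of_pos Real.pi_pos] at h3
  have h4 : (1 : ℝ) ≤ |(n : ℝ)| := by
    have : (1 : ℤ) ≤ |n| := Int.one_le_abs hn0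
    exact_mod_cast this
  have h5 := Real.pi_gt_three
  have h6 : 2 * M < |(n : ℝ)| * (2 * Real.pi) * M := by
    have h7 : 2 < |(n : ℝ)| * (2 * Real.pi) := by nlinarith
    nlinarith
  linarith

/-- **Independence.** -/
theorem ev_inj {a : EPoly} (h : ∀ t : ℂ, ev t t (AddMonoidHom.id ℂ) a = 0) : a = 0 := by
  classical
  obtain ⟨τ, hτ0, hτ⟩ := exists_scale a.coeff.support
  have h1 := Pool.Agent.H327R2.SC.expPoly_indep (F := ℂ) (ι := a.coeff.support) Finset.univ
    (fun μ => Complex.exp (τ * μ.1)) (fun μ ν h => Subtype.ext (hτ _ μ.2 _ ν.2 h))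
    (fun μ => Complex.exp_ne_zero _) (fun μ => (a.coeff μ.1).comp (C τ * X)) fun m => by
      have h2 := h (m * τ)
      rw [ev_apply] at h2
      rw [Finset.univ_eq_attach, Finset.sum_attach a.coeff.support (fun μ : ℂ =>
        ((a.coeff μ).comp (C τ * X)).eval (m : ℂ) * Complex.exp (τ * μ) ^ m), ← h2]
      refine Finset.sum_congr rfl fun μ _ => ?_
      rw [eval_comp, eval_mul, eval_C, eval_X, mul_comm τ, ← Complex.exp_nat_mul,
        AddMonoidHom.id_apply, ← mul_assoc]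
  refine AddMonoidAlgebra.ext (Finsupp.ext fun μ => ?_)
  change a.coeff μ = 0
  by_cases hμ : μ ∈ a.coeff.support
  · have h2 := h1 ⟨μ, hμ⟩ (Finset.mem_univ _)
    simp only at h2
    have h3 : (((a.coeff μ).comp (C τ * X)).comp (C τ⁻¹ * X)) = a.coeff μ := by
      rw [comp_assoc]
      have : (C τ * X : ℂ[X]).comp (C τ⁻¹ * X) = X := by
        rw [mul_comp, C_comp, X_comp, ← mul_assoc, ← C_mul, mul_inv_cancel₀ hτ0, C_1, one_mul]
      rw [this, comp_X]
    rw [h2, zero_comp] at h3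
    exact h3.symm
  · exact Finsupp.notMem_support_iff.1 hμ

section Exp

variable {M : Type} [Fintype M] [DecidableEq M]

theorem exp_shift (Y : Matrix M M ℂ) (lam t : ℂ) :
    NormedSpace.exp (t • Y) = Complex.exp (t * lam) • NormedSpace.exp (t • (Y - lam • 1)) := by
  have h1 : t • Y = t • (Y - lam • 1) + (t * lam) • (1 : Matrix M M ℂ) := by
    rw [smul_sub, smul_smul, sub_add_cancel]
  have h2 : NormedSpace.exp ((t * lam) • (1 : Matrix M M ℂ)) =
      Complex.exp (t * lam) • (1 : Matrix M M ℂ) := by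
    have h3 : ∀ c : ℂ, c • (1 : Matrix M M ℂ) = Matrix.diagonal fun _ => c := by
      intro c
      ext i j
      by_cases hij : i = j
      · rw [hij, Matrix.smul_apply, Matrix.one_apply_eq, Matrix.diagonal_apply_eq, smul_eq_mul,
          mul_one]
      · rw [Matrix.smul_apply, Matrix.one_apply_ne hij, Matrix.diagonal_apply_ne _ hij, smul_zero]
    rw [h3, h3, Matrix.exp_diagonal]
    congr 1
    funext i
    rw [Complex.exp_eq_exp_ℂ]
    exact Pi.coe_exp (fun _ : M => t * lam) i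
  have hc : Commute (t • (Y - lam • 1)) ((t * lam) • (1 : Matrix M M ℂ)) :=
    (Commute.one_right _).smul_right _
  conv_lhs => rw [h1]
  rw [Matrix.exp_add_of_commute _ _ hc, h2, Matrix.mul_smul, Matrix.mul_one]

section norms

attribute [local instance] Matrix.linftyOpNormedRing Matrix.linftyOpNormedAlgebra

theorem exp_mulVec (Y : Matrix M M ℂ) (v : M → ℂ) (n : ℕ) (hn : (Y ^ n) *ᵥ v = 0) (t : ℂ) :
    NormedSpace.exp (t • Y) *ᵥ v =
      ∑ k ∈ Finset.range n, ((t ^ k * ((k.factorial : ℂ))⁻¹) • ((Y ^ k) *ᵥ v)) := by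
  have h1 : HasSum (fun k : ℕ => ((k.factorial : ℂ))⁻¹ • (t • Y) ^ k)
      (NormedSpace.exp (t • Y)) := NormedSpace.exp_series_hasSum_exp' (𝕂 := ℂ) (t • Y)
  let L : Matrix M M ℂ →ₗ[ℂ] (M → ℂ) :=
    { toFun := fun B => B *ᵥ v
      map_add' := fun B B' => Matrix.add_mulVec _ _ _
      map_smul' := fun c B => Matrix.smul_mulVec _ _ _ }
  have h2 := h1.map L (LinearMap.continuous_of_finiteDimensional L)
  have h3 : ∀ k, n ≤ k → (Y ^ k) *ᵥ v = 0 := by
    intro k hk
    obtain ⟨m, rfl⟩ := Nat.exists_eq_add_of_le' hk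
    rw [pow_add, ← Matrix.mulVec_mulVec, hn, Matrix.mulVec_zero]
  have h4 : ∀ k, (L ∘ fun k : ℕ => ((k.factorial : ℂ))⁻¹ • (t • Y) ^ k) k =
      (t ^ k * ((k.factorial : ℂ))⁻¹) • ((Y ^ k) *ᵥ v) := by
    intro k
    change (((k.factorial : ℂ))⁻¹ • (t • Y) ^ k) *ᵥ v = _
    rw [_root_.smul_pow, smul_smul, Matrix.smul_mulVec, mul_comm]
  have h5 : HasSum (L ∘ fun k : ℕ => ((k.factorial : ℂ))⁻¹ • (t • Y) ^ k)
      (∑ k ∈ Finset.range n, ((t ^ k * ((k.factorial : ℂ))⁻¹) • ((Y ^ k) *ᵥ v))) := by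
    have h6 : HasSum (L ∘ fun k : ℕ => ((k.factorial : ℂ))⁻¹ • (t • Y) ^ k)
        (∑ k ∈ Finset.range n, (L ∘ fun k : ℕ => ((k.factorial : ℂ))⁻¹ • (t • Y) ^ k) k) :=
      hasSum_sum_of_ne_finset_zero fun k hk => by
        rw [h4, h3 k (by simpa using hk), smul_zero]
    rw [Finset.sum_congr rfl fun k _ => h4 k] at h6
    exact h6
  exact h2.unique h5

end norms

/-- The vectors for which `exp (t Y) v` is given by exponential polynomials. -/
def EV (Y : Matrix M M ℂ) (s : Set ℂ) : Submodule ℂ (M → ℂ) where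
  carrier := {v | ∃ w : M → EPoly,
    (∀ t i, ev t t (AddMonoidHom.id ℂ) (w i) = (NormedSpace.exp (t • Y) *ᵥ v) i) ∧
    ∀ (t : ℂ) (σ : ℂ →+ ℂ), (∀ μ ∈ s, σ μ = 0) → ∀ i, ev 0 t σ (w i) = v i}
  zero_mem' := ⟨0, fun t i => by simp, fun t σ _ i => by simp⟩
  add_mem' := by
    rintro v v' ⟨w, h1, h2⟩ ⟨w', h1', h2'⟩
    refine ⟨w + w', fun t i => ?_, fun t σ hσ i => ?_⟩
    · rw [Pi.add_apply, map_add, h1, h1', Matrix.mulVec_add, Pi.add_apply]
    · rw [Pi.add_apply, map_add, h2 t σ hσ, h2' t σ hσ, Pi.add_apply]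
  smul_mem' := by
    rintro c v ⟨w, h1, h2⟩
    have h3 : ∀ (u t : ℂ) (σ : ℂ →+ ℂ), ev u t σ (AddMonoidAlgebra.single 0 (C c)) = c := by
      intro u t σ
      rw [ev_single, eval_C, map_zero, mul_zero, Complex.exp_zero, mul_one]
    refine ⟨fun i => AddMonoidAlgebra.single 0 (C c) * w i, fun t i => ?_, fun t σ hσ i => ?_⟩
    · rw [map_mul, h3, h1, Matrix.mulVec_smul, Pi.smul_apply, smul_eq_mul]
    · rw [map_mul, h3, h2 t σ hσ, Pi.smul_apply, smul_eq_mul]

theorem mem_EV (Y : Matrix M M ℂ) {s : Set ℂ} {lam : ℂ} (hl : lam ∈ s) {v : M → ℂ} {n : ℕ}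
    (hv : ((Y - lam • 1) ^ n) *ᵥ v = 0) : v ∈ EV Y s := by
  refine ⟨fun i => AddMonoidAlgebra.single lam (∑ k ∈ Finset.range n,
    C ((((k.factorial : ℂ))⁻¹) * (((Y - lam • 1) ^ k) *ᵥ v) i) * X ^ k), fun t i => ?_,
    fun t σ hσ i => ?_⟩
  · rw [ev_single, exp_shift Y lam t, Matrix.smul_mulVec, exp_mulVec _ v n hv, Pi.smul_apply,
      Finset.sum_apply, smul_eq_mul, mul_comm, AddMonoidHom.id_apply, eval_finset_sum]
    congr 1
    refine Finset.sum_congr rfl fun k _ => ?_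
    rw [eval_mul, eval_C, eval_pow, eval_X, Pi.smul_apply, smul_eq_mul]
    ring
  · rw [ev_single, hσ lam hl, mul_zero, Complex.exp_zero, mul_one, eval_finset_sum]
    rcases Nat.eq_zero_or_pos n with hn | hn
    · subst hn
      rw [pow_zero, Matrix.one_mulVec] at hv
      rw [hv]
      simp
    · rw [Finset.sum_eq_single 0]
      · simp
      · intro k _ hk
        rw [eval_mul, eval_pow, eval_X, zero_pow hk, mul_zero]
      · intro h
        exact absurd (Finset.mem_range.2 hn) h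

/-- The eigenvalues. -/
def eigs (Y : Matrix M M ℂ) : Set ℂ := {lam | (Y.charpoly).IsRoot lam}

theorem EV_top (Y : Matrix M M ℂ) : EV Y (eigs Y) = ⊤ := by
  rw [eq_top_iff, ← Module.End.iSup_maxGenEigenspace_eq_top (Matrix.toLin' Y)]
  refine iSup_le fun lam v hv => ?_
  rw [Module.End.mem_maxGenEigenspace] at hv
  obtain ⟨n, hn⟩ := hv
  by_cases hv0 : v = 0
  · rw [hv0]
    exact Submodule.zero_mem _
  have hpow : ∀ k : ℕ, (((Matrix.toLin' Y) - lam • (1 : Module.End ℂ (M → ℂ))) ^ k) v =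
      ((Y - lam • 1) ^ k) *ᵥ v := by
    intro k
    have h1 : (Matrix.toLin' Y) - lam • (1 : Module.End ℂ (M → ℂ)) =
        Matrix.toLinAlgEquiv' (Y - lam • 1) := by
      rw [map_sub, map_smul, map_one]
      rfl
    rw [h1, ← map_pow]
    rfl
  refine mem_EV Y (lam := lam) (n := n) ?_ ((hpow n).symm.trans hn)
  -- `lam` is an eigenvalue
  change (Y.charpoly).IsRoot lam
  have h2 : Module.End.HasEigenvalue (Matrix.toLin' Y) lam := by
    refine Module.End.hasEigenvalue_of_hasGenEigenvalue (k := n) ?_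
    intro h0
    apply hv0
    have h3 : v ∈ Module.End.genEigenspace (Matrix.toLin' Y) lam n := by
      rw [Module.End.mem_genEigenspace_nat, LinearMap.mem_ker]
      exact hn
    rw [h0] at h3
    exact (Submodule.mem_bot ℂ).1 h3
  have h3 := Module.End.isRoot_of_hasEigenvalue h2
  have h4 := Matrix.minpoly_dvd_charpoly Y
  rw [Matrix.minpoly_toLin'] at h3
  exact h3.dvd h4

theorem exists_expM (Y : Matrix M M ℂ) : ∃ W : Matrix M M EPoly,
    (∀ t, W.map (ev t t (AddMonoidHom.id ℂ)) = NormedSpace.exp (t • Y)) ∧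
    ∀ (t : ℂ) (σ : ℂ →+ ℂ), (∀ μ ∈ eigs Y, σ μ = 0) → W.map (ev 0 t σ) = 1 := by
  have h1 : ∀ j, (Pi.single j 1 : M → ℂ) ∈ EV Y (eigs Y) := fun j => by
    rw [EV_top]
    exact Submodule.mem_top
  choose w h2 h3 using h1
  refine ⟨Matrix.of fun i j => w j i, fun t => ?_, fun t σ hσ => ?_⟩
  · ext i j
    rw [Matrix.map_apply, Matrix.of_apply, h2, Matrix.mulVec_single_one]
    rfl
  · ext i j
    rw [Matrix.map_apply, Matrix.of_apply, h3 j t σ hσ, Matrix.one_apply, Pi.single_apply]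

end Exp

end Pool.Agent.T9h38.CS
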