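import Pool.Agent.T9h38.CM.Prod

set_option autoImplicit false
set_option linter.unusedSectionVars false

/-!
# Relations between the conjugates of elements of disjoint CM fields
-/

open Module

noncomputable section

namespace Pool.Agent.T9h38.CS

open Pool.Agent.T9h38.CM

variable {K : Type} [Fintype K] [DecidableEq K] {F : K → Type} [∀ k, Field (F k)]
  [∀ k, NumberField (F k)] [∀ k, NumberField.IsCMField (F k)]

local instance decX' : DecidableEq (Emb F) := Classical.decEq _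

local instance decF' (i : K) : DecidableEq (F i →+* ℂ) := Classical.decEq _

/-- The components of a function in a stable space of odd functions. -/
theorem comp_mem {J : Submodule ℚ (Emb F → ℚ)}
    (hst : ∀ (τ : ℂ ≃+* ℂ), ∀ f ∈ J, (fun x => f (sg τ x)) ∈ J)
    (hodd : ∀ f ∈ J, ∀ x, f (cc x) = -f x)
    (hdis : ∀ i j, i ≠ j → DisjointFields (F i) (F j)) {f : Emb F → ℚ} (hf : f ∈ J) (i : K) :
    ext i (fun φ => f ⟨i, φ⟩) ∈ J := by
  obtain ⟨K', hK⟩ := exists_kernel J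
  have hinv : ∀ (τ : ℂ ≃+* ℂ) (x y : Emb F), K' (sg τ x) (sg τ y) = K' x y := by
    intro τ x y
    refine hK.inv (σ := sg τ) (fun f => ⟨hst τ f, fun hf => ?_⟩) x y
    have h1 := hst τ.symm _ hf
    have h2 : (fun x => (fun y => f (sg τ y)) (sg τ.symm x)) = f := by
      funext x
      obtain ⟨j, ψ⟩ := x
      change f (sg τ (sg τ.symm ⟨j, ψ⟩)) = _
      rw [sg_apply, sg_apply, mv_symm]
    rwa [h2] at h1
  have hzero : ∀ (j k : K) (φ : F j →+* ℂ) (ψ : F k →+* ℂ), j ≠ k → K' ⟨j, φ⟩ ⟨k, ψ⟩ = 0 := by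
    intro j k φ ψ hjk
    obtain ⟨τ, h1, h2⟩ := hdis j k hjk φ ψ
    have h3 := hinv τ ⟨j, φ⟩ ⟨k, ψ⟩
    rw [sg_apply, sg_apply, show mv τ φ = φ from h1, show mv τ ψ = cj ψ from h2] at h3
    have h4 := hodd _ (hK.mem ⟨j, φ⟩) ⟨k, ψ⟩
    change K' ⟨j, φ⟩ ⟨k, cj ψ⟩ = _ at h4
    linarith
  have h1 : ext i (fun φ => f ⟨i, φ⟩) = ∑ φ : F i →+* ℂ, f ⟨i, φ⟩ • K' (⟨i, φ⟩ : Emb F) := by
    funext x
    obtain ⟨j, ψ⟩ := x
    rw [Finset.sum_apply]
    simp only [Pi.smul_apply, smul_eq_mul]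
    by_cases h : j = i
    · subst h
      rw [ext_same]
      have h2 := hK.rep f hf ⟨j, ψ⟩
      rw [Fintype.sum_sigma, Finset.sum_eq_single j] at h2
      · rw [← h2]
        refine Finset.sum_congr rfl fun φ _ => ?_
        rw [hK.symm]
        ring
      · intro k _ hk
        refine Finset.sum_eq_zero fun φ _ => ?_
        rw [hzero j k ψ φ hk.symm, zero_mul]
      · intro h
        exact absurd (Finset.mem_univ j) h
    · rw [ext_ne h]
      refine (Finset.sum_eq_zero fun φ _ => ?_).symm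
      rw [hzero i j φ ψ (Ne.symm h), mul_zero]
  rw [h1]
  exact J.sum_mem fun φ _ => J.smul_mem _ (hK.mem _)

/-- A system of conjugates. -/
structure Sys (p : Emb F → ℂ) : Prop where
  odd : ∀ x, p (cc x) = -p x
  equi : ∀ (τ : ℂ ≃+* ℂ) (x : Emb F), p (sg τ x) = τ (p x)

/-- The relations modulo a space of complex numbers. -/
def Rs (p : Emb F → ℂ) (L : Submodule ℚ ℂ) : Submodule ℚ (Emb F → ℚ) where
  carrier := {f | (∀ x, f (cc x) = -f x) ∧ ∑ x, f x • p x ∈ L}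
  zero_mem' := ⟨fun x => by simp, by simp⟩
  add_mem' := by
    rintro f f' ⟨h1, h2⟩ ⟨h1', h2'⟩
    refine ⟨fun x => by rw [Pi.add_apply, Pi.add_apply, h1, h1', neg_add], ?_⟩
    have h3 := L.add_mem h2 h2'
    rw [← Finset.sum_add_distrib] at h3
    simpa only [Pi.add_apply, add_smul] using h3
  smul_mem' := by
    rintro q f ⟨h1, h2⟩
    refine ⟨fun x => by rw [Pi.smul_apply, Pi.smul_apply, h1, smul_neg], ?_⟩
    have h3 := L.smul_mem q h2
    rw [Finset.smul_sum] at h3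
    simpa only [Pi.smul_apply, smul_assoc] using h3

theorem mem_Rs {p : Emb F → ℂ} {L : Submodule ℚ ℂ} {f : Emb F → ℚ} :
    f ∈ Rs p L ↔ (∀ x, f (cc x) = -f x) ∧ ∑ x, f x • p x ∈ L := Iff.rfl

theorem map_smulQ (τ : ℂ ≃+* ℂ) (q : ℚ) (z : ℂ) : τ (q • z) = q • τ z := by
  rw [Rat.smul_def, Rat.smul_def, map_mul, map_ratCast]

theorem Rs_stable {p : Emb F → ℂ} (hp : Sys p) {L : Submodule ℚ ℂ}
    (hL : ∀ (τ : ℂ ≃+* ℂ), ∀ z ∈ L, τ z ∈ L) (τ : ℂ ≃+* ℂ) {f : Emb F → ℚ} (hf : f ∈ Rs p L) :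
    (fun x => f (sg τ x)) ∈ Rs p L := by
  obtain ⟨h1, h2⟩ := hf
  refine ⟨fun x => ?_, ?_⟩
  · change f (sg τ (cc x)) = -f (sg τ x)
    rw [sg_cc, h1]
  · have h3 := hL τ.symm _ h2
    rw [map_sum] at h3
    have h4 : ∑ x, f (sg τ x) • p x = ∑ x, τ.symm (f x • p x) := by
      rw [← Equiv.sum_comp (sg τ) fun x => τ.symm (f x • p x)]
      refine Finset.sum_congr rfl fun x _ => ?_
      rw [map_smulQ, hp.equi, RingEquiv.symm_apply_apply]
    rw [h4]
    exact h3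

theorem sum_ext (i : K) (f : (F i →+* ℂ) → ℚ) (p : Emb F → ℂ) :
    ∑ x, ext i f x • p x = ∑ φ, f φ • p ⟨i, φ⟩ := by
  rw [Fintype.sum_sigma, Finset.sum_eq_single i]
  · exact Finset.sum_congr rfl fun φ _ => by rw [ext_same]
  · intro k _ hk
    exact Finset.sum_eq_zero fun φ _ => by rw [ext_ne hk, zero_smul]
  · intro h
    exact absurd (Finset.mem_univ i) h

/-- the equivalence -/
def ccE (F : K → Type) [∀ k, Field (F k)] [∀ k, NumberField (F k)]
    [∀ k, NumberField.IsCMField (F k)] : Emb F ≃ Emb F :=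
  ⟨cc, cc, cc_cc, cc_cc⟩

theorem sum_odd {p : Emb F → ℂ} (hp : ∀ x, p (cc x) = -p x) (f : Emb F → ℚ) :
    ∑ x, ((f x - f (cc x)) / 2) • p x = ∑ x, f x • p x := by
  have h1 : ∑ x, f (cc x) • p x = -∑ x, f x • p x := by
    rw [← Finset.sum_neg_distrib, ← Equiv.sum_comp (ccE F) fun x => -(f x • p x)]
    refine Finset.sum_congr rfl fun x _ => ?_
    change _ = -(f (cc x) • p (cc x))
    rw [hp, smul_neg, neg_neg]
  have h2 : ∀ x, ((f x - f (cc x)) / 2) • p x =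
      (2⁻¹ : ℚ) • (f x • p x) - (2⁻¹ : ℚ) • (f (cc x) • p x) := by
    intro x
    rw [smul_smul, smul_smul, ← sub_smul]
    congr 1
    ring
  rw [Finset.sum_congr rfl fun x _ => h2 x, Finset.sum_sub_distrib, ← Finset.smul_sum,
    ← Finset.smul_sum, h1, smul_neg, sub_neg_eq_add, ← add_smul]
  norm_num

/-- Extension of linear maps. -/
theorem exists_lin {W : Type} [AddCommGroup W] [Module ℚ W] (L : Submodule ℚ ℂ) (T : W →ₗ[ℚ] ℂ)
    (S : W →ₗ[ℚ] ℂ) (h : ∀ w, T w ∈ L → S w = 0) :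
    ∃ σ : ℂ →ₗ[ℚ] ℂ, (∀ z ∈ L, σ z = 0) ∧ ∀ w, σ (T w) = S w := by
  let T' : W →ₗ[ℚ] (ℂ ⧸ L) := L.mkQ.comp T
  have hk : LinearMap.ker T' ≤ LinearMap.ker S := by
    intro w hw
    rw [LinearMap.mem_ker, LinearMap.comp_apply, Submodule.mkQ_apply,
      Submodule.Quotient.mk_eq_zero] at hw
    exact h w hw
  let g : (LinearMap.range T') →ₗ[ℚ] ℂ :=
    ((LinearMap.ker T').liftQ S hk).comp T'.quotKerEquivRange.symm.toLinearMap
  obtain ⟨G, hG⟩ := g.exists_extend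
  refine ⟨G.comp L.mkQ, fun z hz => ?_, fun w => ?_⟩
  · rw [LinearMap.comp_apply, Submodule.mkQ_apply, (Submodule.Quotient.mk_eq_zero L).2 hz, map_zero]
  · have h1 : G (T' w) = g ⟨T' w, w, rfl⟩ := by
      rw [← hG]
      rfl
    change G (T' w) = S w
    rw [h1]
    have h2 : T'.quotKerEquivRange.symm ⟨T' w, w, rfl⟩ = (LinearMap.ker T').mkQ w := by
      rw [LinearEquiv.symm_apply_eq]
      rfl
    change ((LinearMap.ker T').liftQ S hk) (T'.quotKerEquivRange.symm ⟨T' w, w, rfl⟩) = S w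
    rw [h2, Submodule.mkQ_apply, Submodule.liftQ_apply]

/-- **Existence of the linear map.** -/
theorem exists_sigma (hdis : ∀ i j, i ≠ j → DisjointFields (F i) (F j)) {p : Emb F → ℂ}
    (hp : Sys p) {L : Submodule ℚ ℂ} (hL : ∀ (τ : ℂ ≃+* ℂ), ∀ z ∈ L, τ z ∈ L) {v : Emb F → ℂ}
    (hv : ∀ x, v (cc x) = -v x)
    (hR : ∀ (i : K) (f : (F i →+* ℂ) → ℚ), (∀ φ, f (cj φ) = -f φ) →
      ∑ φ, f φ • p ⟨i, φ⟩ ∈ L → ∑ φ, f φ • v ⟨i, φ⟩ = 0) :
    ∃ σ : ℂ →ₗ[ℚ] ℂ, (∀ z ∈ L, σ z = 0) ∧ ∀ x, σ (p x) = v x := by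
  classical
  let T : (Emb F → ℚ) →ₗ[ℚ] ℂ := Fintype.linearCombination ℚ p
  let S : (Emb F → ℚ) →ₗ[ℚ] ℂ := Fintype.linearCombination ℚ v
  have hT : ∀ f, T f = ∑ x, f x • p x := fun f => Fintype.linearCombination_apply _ _ _
  have hS : ∀ f, S f = ∑ x, f x • v x := fun f => Fintype.linearCombination_apply _ _ _
  obtain ⟨σ, h1, h2⟩ := exists_lin L T S fun f hf => by
    rw [hT] at hf
    rw [hS, ← sum_odd hv f]
    let f' : Emb F → ℚ := fun x => (f x - f (cc x)) / 2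
    have hf' : f' ∈ Rs p L := by
      refine ⟨fun x => ?_, ?_⟩
      · change (f (cc x) - f (cc (cc x))) / 2 = -((f x - f (cc x)) / 2)
        rw [cc_cc]
        ring
      · change ∑ x, ((f x - f (cc x)) / 2) • p x ∈ L
        rw [sum_odd hp.odd f]
        exact hf
    change ∑ x, f' x • v x = 0
    have h3 : ∀ i, ∑ φ, f' ⟨i, φ⟩ • v ⟨i, φ⟩ = 0 := by
      intro i
      have h4 := comp_mem (J := Rs p L) (fun τ f hf => Rs_stable hp hL τ hf) (fun f hf => hf.1)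
        hdis hf' i
      refine hR i (fun φ => f' ⟨i, φ⟩) (fun φ => hf'.1 ⟨i, φ⟩) ?_
      rw [← sum_ext]
      exact h4.2
    rw [Fintype.sum_sigma]
    exact Finset.sum_eq_zero fun i _ => h3 i
  refine ⟨σ, h1, fun x => ?_⟩
  have h3 := h2 (Pi.single x 1)
  have h4 : ∀ q : Emb F → ℂ, ∑ y, (Pi.single x (1 : ℚ) : Emb F → ℚ) y • q y = q x := by
    intro q
    rw [Finset.sum_eq_single x]
    · rw [Pi.single_eq_same, one_smul]
    · intro y _ hy
      rw [Pi.single_eq_of_ne hy, zero_smul]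
    · intro h
      exact absurd (Finset.mem_univ x) h
  rw [hT, hS, h4, h4] at h3
  exact h3

/-- The relations of one member. -/
theorem irr_cases {i : K} (hi : Irr (F i)) {p : Emb F → ℂ} (hp : Sys p) {L : Submodule ℚ ℂ}
    (hL : ∀ (τ : ℂ ≃+* ℂ), ∀ z ∈ L, τ z ∈ L) :
    (∀ f : (F i →+* ℂ) → ℚ, (∀ φ, f (cj φ) = -f φ) → ∑ φ, f φ • p ⟨i, φ⟩ ∈ L → f = 0) ∨
      ∀ φ : F i →+* ℂ, p ⟨i, φ⟩ ∈ L := by
  have h0 := hi ((Rs p L).comap (ext i)) (fun τ f hf => ?_) fun f hf φ => ?_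
  · rcases h0 with h | h
    · left
      intro f hf hf'
      have h1 : f ∈ (Rs p L).comap (ext i) := by
        rw [Submodule.mem_comap, mem_Rs, sum_ext]
        refine ⟨fun x => ?_, hf'⟩
        obtain ⟨j, ψ⟩ := x
        unfold cc
        by_cases hj : j = i
        · subst hj
          rw [ext_same, ext_same, hf]
        · rw [ext_ne hj, ext_ne hj, neg_zero]
      rw [h] at h1
      exact (Submodule.mem_bot ℚ).1 h1
    · right
      intro φ
      have h1 := h (eps cj φ) (eps_odd φ)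
      rw [Submodule.mem_comap, mem_Rs, sum_ext] at h1
      have h2 : ∑ ψ, eps cj φ ψ • p ⟨i, ψ⟩ = (2 : ℚ) • p ⟨i, φ⟩ := by
        unfold eps
        simp only [sub_smul, ite_smul, one_smul, zero_smul, Finset.sum_sub_distrib,
          Finset.sum_ite_eq', Finset.mem_univ, if_true]
        have h3 : p ⟨i, cj φ⟩ = -p ⟨i, φ⟩ := hp.odd ⟨i, φ⟩
        rw [h3, sub_neg_eq_add, two_smul]
      rw [h2] at h1
      have h3 := L.smul_mem (2⁻¹ : ℚ) h1.2
      rwa [smul_smul, inv_mul_cancel₀ (two_ne_zero), one_smul] at h3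
  · rw [Submodule.mem_comap] at hf ⊢
    have h1 := Rs_stable hp hL τ hf
    have h2 : (fun x => ext i f (sg τ x)) = ext i (fun φ => f (mv τ φ)) := by
      funext x
      obtain ⟨j, ψ⟩ := x
      by_cases h : j = i
      · subst h
        rw [sg_apply, ext_same, ext_same]
      · rw [sg_apply, ext_ne h, ext_ne h]
    rw [h2] at h1
    exact h1
  · rw [Submodule.mem_comap] at hf
    have h1 := hf.1 ⟨i, φ⟩
    unfold cc at h1
    rw [ext_same, ext_same] at h1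
    exact h1

end Pool.Agent.T9h38.CS
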