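import Pool.Agent.T9h38.CS.EP
import Pool.Agent.T9h38.CM.Tor
import Pool.Agent.R918.Rep

set_option autoImplicit false
set_option linter.unusedSectionVars false

/-!
# Replicas of elements which are diagonalizable on one part of the space
-/

open Matrix

noncomputable section

namespace Pool.Agent.T9h38.CS

open Pool.Agent.TH119.MX Pool.Agent.T9h38.CM

/-- the constants -/
def cst : ℂ →+* EPoly := AddMonoidAlgebra.singleZeroRingHom.comp Polynomial.C

theorem ev_cst (u t : ℂ) (σ : ℂ →+ ℂ) (c : ℂ) : ev u t σ (cst c) = c := by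
  have h1 : cst c = AddMonoidAlgebra.single 0 (Polynomial.C c) := rfl
  rw [h1, ev_single, Polynomial.eval_C, map_zero, mul_zero, Complex.exp_zero, mul_one]

/-- the exponential -/
def xp (μ : ℂ) : EPoly := AddMonoidAlgebra.single μ 1

theorem ev_xp (u t : ℂ) (σ : ℂ →+ ℂ) (μ : ℂ) : ev u t σ (xp μ) = Complex.exp (t * σ μ) := by
  unfold xp
  rw [ev_single, Polynomial.eval_one, one_mul]

variable {X N M : Type} [Fintype X] [DecidableEq X] [Fintype N] [DecidableEq N] [Fintype M]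
  [DecidableEq M]

theorem kill {F : Subfield ℂ} {H : Set (Matrix (N ⊕ M) (N ⊕ M) ℂ)} (hH : AlgGrp F H)
    {R : Matrix N X ℂ} {R' : Matrix X N ℂ} (h1 : R * R' = 1) (h2 : R' * R = 1) (x : X → ℂ)
    (Y : Matrix M M ℂ) (σ : ℂ →+ ℂ) (hσ : ∀ μ ∈ eigs Y, σ μ = 0)
    (hx : ∀ t : ℂ, fromBlocks (dg R R' h1 h2 fun i => Complex.exp (t * x i)) 0 0
      (NormedSpace.exp (t • Y)) ∈ H) (t : ℂ) :
    fromBlocks (dg R R' h1 h2 fun i => Complex.exp (t * σ (x i))) 0 0 (1 : Matrix M M ℂ) ∈ H := by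
  obtain ⟨I, -, hI⟩ := hH.alg
  obtain ⟨W, hW1, hW2⟩ := exists_expM Y
  let V : Matrix (N ⊕ M) (N ⊕ M) EPoly := fromBlocks
    (Matrix.of fun i j => ∑ k, cst (R i k * R' k j) * xp (x k)) 0 0 W
  have hVm : ∀ f : EPoly →+* ℂ, V.map f = fromBlocks ((Matrix.of fun i j =>
      ∑ k, cst (R i k * R' k j) * xp (x k)).map f) 0 0 (W.map f) := by
    intro f
    change (fromBlocks _ _ _ _).map _ = _
    rw [fromBlocks_map, Matrix.map_zero _ (map_zero f), Matrix.map_zero _ (map_zero f)]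
  have hV1 : ∀ t, V.map (ev t t (AddMonoidHom.id ℂ)) =
      fromBlocks (dg R R' h1 h2 fun i => Complex.exp (t * x i)) 0 0
        (NormedSpace.exp (t • Y)) := by
    intro t
    rw [hVm, hW1]
    congr 1
    ext i j
    rw [Matrix.map_apply, Matrix.of_apply, map_sum, dg_entry]
    refine Finset.sum_congr rfl fun k _ => ?_
    rw [map_mul, ev_cst, ev_xp]
    rfl
  have hV2 : V.map (ev 0 t σ) =
      fromBlocks (dg R R' h1 h2 fun i => Complex.exp (t * σ (x i))) 0 0 (1 : Matrix M M ℂ) := by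
    rw [hVm, hW2 t σ hσ]
    congr 1
    ext i j
    rw [Matrix.map_apply, Matrix.of_apply, map_sum, dg_entry]
    refine Finset.sum_congr rfl fun k _ => ?_
    rw [map_mul, ev_cst, ev_xp]
  have hinv : ∀ y : X → ℂ,
      fromBlocks (dg R R' h1 h2 fun i => Complex.exp (y i)) 0 0 (1 : Matrix M M ℂ) *
        fromBlocks (dg R R' h1 h2 fun i => Complex.exp (-(y i))) 0 0 (1 : Matrix M M ℂ) = 1 := by
    intro y
    rw [fromBlocks_multiply, ← map_mul]
    have e1 : ((fun i => Complex.exp (y i)) * fun i => Complex.exp (-(y i))) = (1 : X → ℂ) := by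
      funext i
      rw [Pi.mul_apply, ← Complex.exp_add, add_neg_cancel, Complex.exp_zero, Pi.one_apply]
    rw [e1, map_one]
    simp
  refine (hI _).2 ⟨⟨_, hinv fun i => t * σ (x i), ?_⟩, fun p hp => ?_⟩
  · have e1 := hinv fun i => -(t * σ (x i))
    simp only [neg_neg] at e1
    exact e1
  · let P : EPoly := MvPolynomial.eval₂ cst (fun b : (N ⊕ M) × (N ⊕ M) => V b.1 b.2) p
    have hP : ∀ (u t : ℂ) (σ : ℂ →+ ℂ), ev u t σ P =
        MvPolynomial.eval (fun b => (V.map (ev u t σ)) b.1 b.2) p := by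
      intro u t σ
      change ev u t σ (MvPolynomial.eval₂ _ _ _) = _
      rw [MvPolynomial.hom_eval₂]
      have e1 : (ev u t σ).comp cst = RingHom.id ℂ := RingHom.ext fun c => ev_cst u t σ c
      rw [e1]
      rfl
    have hP0 : P = 0 := ev_inj fun s => by
      rw [hP, hV1]
      exact ((hI _).1 (hx s)).2 p hp
    have h3 := hP 0 t σ
    rw [hP0, map_zero, hV2] at h3
    exact h3.symm

end Pool.Agent.T9h38.CS
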