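import Pool.Agent.T9h38.CS.Res
import Pool.Agent.T9h38.CS.Kill

set_option autoImplicit false
set_option maxHeartbeats 1000000
set_option linter.unusedSectionVars false

/-!
# The Lie algebras of the groups are closed
-/

open Module Function TensorProduct Matrix

noncomputable section

namespace Pool.Agent.T9h38.CS

open Pool.Agent.Y102 Pool.Agent.W516.DR Pool.Agent.H204R3.GP Pool.Agent.W516.KC
  Pool.Agent.H204R3.SP Pool.Agent.TH119.MX
open Pool.Agent.N192.GP hiding XX QQ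
open Pool.Agent.N192.GT
open Pool.Agent.T9h38.CM hiding RR RI

variable {K : Type} [Fintype K] [DecidableEq K] {g : K → ℕ} {A : ∀ k, AbVar (g k)} {F : K → Type}
  [∀ k, Field (F k)] [∀ k, NumberField (F k)] [∀ k, NumberField.IsCMField (F k)]
  {ι : ∀ k, F k →+* Module.End ℚ (A k).H1} {d : ℕ} {V : DRS d}

local instance decG (k : K) : DecidableEq (F k →+* ℂ) := Classical.decEq _

/-- The matrix of the values of the embeddings. -/
def Rb (hD : ∀ k, Dat (ι k) (fun φ : F k →+* ℂ => φ) cj) :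
    Matrix (Σ k, Fin (2 * g k)) (Σ k, (F k →+* ℂ)) ℂ := blockDiagonal' fun k => CM.RR (hD k)

/-- The inverse matrix. -/
def Ib (hD : ∀ k, Dat (ι k) (fun φ : F k →+* ℂ => φ) cj) :
    Matrix (Σ k, (F k →+* ℂ)) (Σ k, Fin (2 * g k)) ℂ := blockDiagonal' fun k => CM.RI (hD k)

theorem Rb_Ib (hD : ∀ k, Dat (ι k) (fun φ : F k →+* ℂ => φ) cj) : Rb hD * Ib hD = 1 := by
  unfold Rb Ib
  rw [← blockDiagonal'_mul, ← blockDiagonal'_one]
  congr 1
  funext k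
  exact RR_RI (hD k)

theorem Ib_Rb (hD : ∀ k, Dat (ι k) (fun φ : F k →+* ℂ => φ) cj) : Ib hD * Rb hD = 1 := by
  unfold Rb Ib
  rw [← blockDiagonal'_mul, ← blockDiagonal'_one]
  congr 1
  funext k
  exact RI_RR (hD k)

/-- the diagonal matrices -/
abbrev db (hD : ∀ k, Dat (ι k) (fun φ : F k →+* ℂ => φ) cj) :
    ((Σ k, (F k →+* ℂ)) → ℂ) →+* Matrix (Σ k, Fin (2 * g k)) (Σ k, Fin (2 * g k)) ℂ :=
  dg (Rb hD) (Ib hD) (Rb_Ib hD) (Ib_Rb hD)

theorem bd_eq (hD : ∀ k, Dat (ι k) (fun φ : F k →+* ℂ => φ) cj) (a : ∀ k, F k) :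
    (blockDiagonal' fun k => (toC (ι k (a k)))ᵀ) = db hD fun x => x.2 (a x.1) := by
  rw [dg_apply]
  unfold Rb Ib
  have h1 : (diagonal fun x : Σ k, (F k →+* ℂ) => x.2 (a x.1)) =
      blockDiagonal' fun k => diagonal fun φ : F k →+* ℂ => φ (a k) := by
    rw [blockDiagonal'_diagonal]
  rw [h1, ← blockDiagonal'_mul, ← blockDiagonal'_mul]
  congr 1
  funext k
  rw [toC_iota (hD k), dh_apply]

theorem rep_rr_same {X : ∀ t, Module.End ℚ (Fin (nn g (fun _ : Unit => d) t) → ℚ)}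
    {Y : Module.End ℚ (Fin d → ℚ)} (hY : X (Sum.inr ()) = Y) {p q : Fin d} :
    (bR g fun _ : Unit => d).repr (act X (bR g (fun _ : Unit => d) (Sum.inr ⟨(), p⟩)))
      (Sum.inr ⟨(), q⟩) = Y (Pi.single p 1) q := by
  rw [rep_bR, bR_apply, ← hY]
  exact bB_same (n := nn g fun _ : Unit => d) X (Sum.inr ()) p q

/-- The matrix of an element. -/
theorem tC_act (ℓ : RS g d) : (tC (bR g fun _ : Unit => d) (act ℓ.1))ᵀ =
    fromBlocks (blockDiagonal' fun k => (toC (ap A ℓ k))ᵀ) 0 0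
      (blockDiagonal' fun _ : Unit => (toC (vp ℓ))ᵀ) := by
  ext a c
  rcases a with ⟨i, p⟩ | ⟨j, p⟩ <;> rcases c with ⟨i', q⟩ | ⟨j', q⟩
  · rw [fromBlocks_apply₁₁, Matrix.transpose_apply, tC_apply]
    by_cases hii : i = i'
    · subst hii
      rw [rep_same p q (Y := ap A ℓ i) rfl, blockDiagonal'_apply_eq]
      rfl
    · rw [rep_ne ℓ.1 hii, blockDiagonal'_apply_ne _ _ _ hii, Rat.cast_zero]
  · rw [fromBlocks_apply₁₂, Matrix.transpose_apply, tC_apply, rep_lr, Rat.cast_zero,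
      Matrix.zero_apply]
  · rw [fromBlocks_apply₂₁, Matrix.transpose_apply, tC_apply, rep_rl, Rat.cast_zero,
      Matrix.zero_apply]
  · rw [fromBlocks_apply₂₂, Matrix.transpose_apply, tC_apply, rep_rr_same (Y := vp ℓ) rfl,
      blockDiagonal'_apply_eq]
    rfl

/-- The matrix of the last member. -/
def Yb (Y : Module.End ℚ (Fin d → ℚ)) : Matrix (Σ _ : Unit, Fin d) (Σ _ : Unit, Fin d) ℂ :=
  blockDiagonal' fun _ : Unit => (toC Y)ᵀ

theorem Yb_zero : Yb (0 : Module.End ℚ (Fin d → ℚ)) = 0 := by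
  unfold Yb
  have h1 : (toC (0 : Module.End ℚ (Fin d → ℚ)))ᵀ = 0 := by
    ext i j
    rw [Matrix.transpose_apply, toC, Matrix.of_apply]
    simp
  rw [h1]
  exact blockDiagonal'_zero

theorem eigs_Yb (Y : Module.End ℚ (Fin d → ℚ)) : eigs (Yb Y) = eigV Y := by
  have h1 : Yb Y = Matrix.reindex (Equiv.uniqueSigma fun _ : Unit => Fin d).symm
      (Equiv.uniqueSigma fun _ : Unit => Fin d).symm (toC Y)ᵀ := by
    ext ⟨i, p⟩ ⟨j, q⟩
    unfold Yb
    rw [blockDiagonal'_apply_eq, Matrix.reindex_apply, Matrix.submatrix_apply]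
    rfl
  unfold eigV eigs
  rw [h1, Matrix.charpoly_reindex]

theorem dg_smul (hD : ∀ k, Dat (ι k) (fun φ : F k →+* ℂ => φ) cj) (t : ℂ)
    (x : (Σ k, (F k →+* ℂ)) → ℂ) : t • db hD x = db hD fun i => t * x i := by
  ext i j
  rw [Matrix.smul_apply, dg_entry, dg_entry, smul_eq_mul, Finset.mul_sum]
  exact Finset.sum_congr rfl fun k _ => by ring

theorem exp_db (hD : ∀ k, Dat (ι k) (fun φ : F k →+* ℂ => φ) cj) (t : ℂ)
    (x : (Σ k, (F k →+* ℂ)) → ℂ) (Y : Matrix (Σ _ : Unit, Fin d) (Σ _ : Unit, Fin d) ℂ) :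
    NormedSpace.exp (t • fromBlocks (db hD x) 0 0 Y) =
      fromBlocks (db hD fun i => Complex.exp (t * x i)) 0 0 (NormedSpace.exp (t • Y)) := by
  rw [fromBlocks_smul, smul_zero, smul_zero, exp_fb, dg_smul, dg_exp]

variable {H : Set (Matrix (Row g fun _ : Unit => d) (Row g fun _ : Unit => d) ℂ)}

/-- The Lie algebra of the group. -/
def hG (H : Set (Matrix (Row g fun _ : Unit => d) (Row g fun _ : Unit => d) ℂ)) :
    Submodule ℚ (RS g d) :=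
  (lieW (bR g fun _ : Unit => d) H).comap
    (act.toLinearMap.comp (LinearMap.fst ℚ
      (∀ t, Module.End ℚ (Fin (nn g (fun _ : Unit => d) t) → ℚ)) ℚ))

theorem mem_hG {ℓ : RS g d} : ℓ ∈ hG H ↔
    ∀ δ, Stab H δ (tC (bR g fun _ : Unit => d) (act ℓ.1))ᵀ := Iff.rfl

theorem hG_br : Br (hG H : Submodule ℚ (RS g d)) := by
  intro x hx y hy
  have h2 := lieW_br (bR g fun _ : Unit => d) (show act x.1 ∈ lieW _ H from hx)
    (show act y.1 ∈ lieW _ H from hy)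
  have h3 : act (x * y - y * x).1 = act x.1 * act y.1 - act y.1 * act x.1 := by
    rw [Prod.fst_sub, Prod.fst_mul, Prod.fst_mul, map_sub, map_mul, map_mul]
  change act (x * y - y * x).1 ∈ lieW (bR g fun _ : Unit => d) H
  rw [h3]
  exact h2

theorem hG_gn (hH : PtW (bR g fun _ : Unit => d) (fR A fun _ : Unit => V) H)
    (D : Derivation QBar ℂ ℂ) (lam : ℂ →ₗ[ℚ] ℚ) : gn (ηη A fun _ : Unit => V) D lam ∈ hG H := by
  have h0 : gn (ηη A fun _ : Unit => V) D lam ∈ LG (ηη A fun _ : Unit => V) := gn_mem_LG _ D lam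
  have h1 : act (gn (ηη A fun _ : Unit => V) D lam).1 ∈ lieW (bR g fun _ : Unit => d) H :=
    PtW.LG_mem (ηη A fun _ : Unit => V) (eR g fun _ : Unit => d) (eR g fun _ : Unit => d) hH h0
  exact h1

theorem mat_eq (hD : ∀ k, Dat (ι k) (fun φ : F k →+* ℂ => φ) cj) {ℓ : RS g d} {c : ∀ k, F k}
    (hc : ∀ k, ι k (c k) = ap A ℓ k) :
    (tC (bR g fun _ : Unit => d) (act ℓ.1))ᵀ =
      fromBlocks (db hD fun x => x.2 (c x.1)) 0 0 (Yb (vp ℓ)) := by
  rw [tC_act (A := A), ← bd_eq]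
  have h1 : (fun k => (toC (ap A ℓ k))ᵀ) = fun k => (toC (ι k (c k)))ᵀ := by
    funext k
    rw [hc]
  rw [h1]
  rfl

theorem stab_kl (hD : ∀ k, Dat (ι k) (fun φ : F k →+* ℂ => φ) cj) (hH : AlgGrp R917.QQ H)
    {x y : (Σ k, (F k →+* ℂ)) → ℂ} {Y : Matrix (Σ _ : Unit, Fin d) (Σ _ : Unit, Fin d) ℂ}
    (σ : ℂ →+ ℂ) (hσ : ∀ μ ∈ eigs Y, σ μ = 0) (hxy : ∀ i, σ (x i) = y i)
    (h : ∀ δ, Stab H δ (fromBlocks (db hD x) 0 0 Y)) (δ : ℕ) :
    Stab H δ (fromBlocks (db hD y) 0 0 (0 : Matrix (Σ _ : Unit, Fin d) (Σ _ : Unit, Fin d) ℂ)) := by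
  have h5 : ∀ t : ℂ, fromBlocks (db hD fun i => Complex.exp (t * x i)) 0 0
      (NormedSpace.exp (t • Y)) ∈ H := by
    intro t
    rw [← exp_db]
    exact R917.exp_mem hH fun δ => (h δ).smul t
  have h6 := kill hH (Rb_Ib hD) (Ib_Rb hD) x Y σ hσ h5
  refine R918.stab_of_exp hH (fun t => ?_) δ
  have h7 := h6 t
  have h8 : (fun i : Σ k, (F k →+* ℂ) => Complex.exp (t * σ (x i))) =
      fun i => Complex.exp (t * y i) := by
    funext i
    rw [hxy]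
  rw [h8] at h7
  rw [exp_db, smul_zero, NormedSpace.exp_zero]
  exact h7

theorem hG_kl (hD : ∀ k, Dat (ι k) (fun φ : F k →+* ℂ => φ) cj) (hH : AlgGrp R917.QQ H)
    {ℓ : RS g d} (hℓ : ℓ ∈ hG H) {a b : ∀ k, F k} {σ : ℂ →ₗ[ℚ] ℂ}
    (h1 : ∀ k, ι k (a k) = ap A ℓ k) (h3 : ∀ μ ∈ eigV (vp ℓ), σ μ = 0)
    (h4 : ∀ k (φ : F k →+* ℂ), σ (φ (a k)) = φ (b k)) : (elt ι b : RS g d) ∈ hG H := by
  rw [mem_hG]
  intro δ
  rw [mat_eq hD (ℓ := elt ι b) (c := b) fun _ => rfl, vp_elt, Yb_zero]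
  refine stab_kl hD hH (x := fun x => x.2 (a x.1)) (Y := Yb (vp ℓ)) σ.toAddMonoidHom
    (fun μ hμ => h3 μ (by rwa [eigs_Yb] at hμ)) (fun i => h4 i.1 i.2) (fun δ => ?_) δ
  rw [← mat_eq hD h1]
  exact mem_hG.1 hℓ δ

theorem hG_closed (hD : ∀ k, Dat (ι k) (fun φ : F k →+* ℂ => φ) cj)
    (hH : PtW (bR g fun _ : Unit => d) (fR A fun _ : Unit => V) H) : Closed ι V (hG H) :=
  ⟨hG_br, hG_gn hH, fun _ hℓ _ _ _ h1 _ h3 h4 => hG_kl hD hH.grp hℓ h1 h3 h4⟩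

/-- The elements of the smallest closed Lie algebra are in the Lie algebra of the group. -/
theorem hmin_mem (hD : ∀ k, Dat (ι k) (fun φ : F k →+* ℂ => φ) cj)
    (hH : PtW (bR g fun _ : Unit => d) (fR A fun _ : Unit => V) H) {ℓ : RS g d}
    (hℓ : ℓ ∈ hmin ι V) : act ℓ.1 ∈ lieW (bR g fun _ : Unit => d) H :=
  hmin_le ι V (hG_closed hD hH) hℓ

end Pool.Agent.T9h38.CS
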