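import Pool.Agent.T9h38.CS.Kill

set_option autoImplicit false
set_option linter.unusedSectionVars false

/-!
# General replicas of elements which are diagonalizable on one part of the space
-/

open Matrix

noncomputable section

namespace Pool.Agent.T9h38.CS

open Pool.Agent.TH119.MX Pool.Agent.T9h38.CM

variable {X N M : Type} [Fintype X] [DecidableEq X] [Fintype N] [DecidableEq N] [Fintype M]
  [DecidableEq M]

theorem ext_ev {W W' : Matrix M M EPoly}
    (h : ∀ t, W.map (ev t t (AddMonoidHom.id ℂ)) = W'.map (ev t t (AddMonoidHom.id ℂ))) :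
    W = W' := by
  refine Matrix.ext fun i j => ?_
  rw [← sub_eq_zero]
  refine ev_inj fun t => ?_
  rw [map_sub, sub_eq_zero]
  exact congrFun (congrFun (h t) i) j

theorem killG {F : Subfield ℂ} {H : Set (Matrix (N ⊕ M) (N ⊕ M) ℂ)} (hH : AlgGrp F H)
    {R : Matrix N X ℂ} {R' : Matrix X N ℂ} (h1 : R * R' = 1) (h2 : R' * R = 1) (x : X → ℂ)
    (Y : Matrix M M ℂ) (σ : ℂ →+ ℂ)
    (hx : ∀ t : ℂ, fromBlocks (dg R R' h1 h2 fun i => Complex.exp (t * x i)) 0 0
      (NormedSpace.exp (t • Y)) ∈ H) (t : ℂ) :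
    ∃ v : Matrix M M ℂ, fromBlocks (dg R R' h1 h2 fun i => Complex.exp (t * σ (x i))) 0 0 v ∈ H := by
  obtain ⟨I, -, hI⟩ := hH.alg
  obtain ⟨W, hW1, -⟩ := exists_expM Y
  obtain ⟨W', hW1', -⟩ := exists_expM (-Y)
  have hWW : W * W' = 1 ∧ W' * W = 1 := by
    have hc : ∀ t : ℂ, NormedSpace.exp (t • Y) * NormedSpace.exp (t • -Y) = 1 ∧
        NormedSpace.exp (t • -Y) * NormedSpace.exp (t • Y) = 1 := by
      intro t
      have e1 : Commute (t • Y) (t • -Y) := by
        rw [smul_neg]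
        exact Commute.neg_right (Commute.refl _)
      rw [← Matrix.exp_add_of_commute _ _ e1, ← Matrix.exp_add_of_commute _ _ e1.symm, smul_neg,
        add_neg_cancel, neg_add_cancel, NormedSpace.exp_zero]
      exact ⟨rfl, rfl⟩
    constructor
    · refine ext_ev fun t => ?_
      rw [Matrix.map_mul, hW1, hW1', (hc t).1, Matrix.map_one _ (map_zero _) (map_one _)]
    · refine ext_ev fun t => ?_
      rw [Matrix.map_mul, hW1, hW1', (hc t).2, Matrix.map_one _ (map_zero _) (map_one _)]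
  let V : Matrix (N ⊕ M) (N ⊕ M) EPoly := fromBlocks
    (Matrix.of fun i j => ∑ k, cst (R i k * R' k j) * xp (x k)) 0 0 W
  have hVm : ∀ f : EPoly →+* ℂ, V.map f = fromBlocks ((Matrix.of fun i j =>
      ∑ k, cst (R i k * R' k j) * xp (x k)).map f) 0 0 (W.map f) := by
    intro f
    change (fromBlocks _ _ _ _).map _ = _
    rw [fromBlocks_map, Matrix.map_zero _ (map_zero f), Matrix.map_zero _ (map_zero f)]
  have hV1 : ∀ t, V.map (ev t t (AddMonoidHom.id ℂ)) =
      fromBlocks (dg R R' h1 h2 fun i => Complex.exp (t * x i)) 0 0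
        (NormedSpace.exp (t • Y)) := by
    intro t
    rw [hVm, hW1]
    congr 1
    ext i j
    rw [Matrix.map_apply, Matrix.of_apply, map_sum, dg_entry]
    refine Finset.sum_congr rfl fun k _ => ?_
    rw [map_mul, ev_cst, ev_xp]
    rfl
  have hV2 : V.map (ev 0 t σ) =
      fromBlocks (dg R R' h1 h2 fun i => Complex.exp (t * σ (x i))) 0 0
        (W.map (ev 0 t σ)) := by
    rw [hVm]
    congr 1
    ext i j
    rw [Matrix.map_apply, Matrix.of_apply, map_sum, dg_entry]
    refine Finset.sum_congr rfl fun k _ => ?_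
    rw [map_mul, ev_cst, ev_xp]
  have hdd : ∀ y : X → ℂ, dg R R' h1 h2 (fun i => Complex.exp (y i)) *
      dg R R' h1 h2 (fun i => Complex.exp (-(y i))) = 1 := by
    intro y
    rw [← map_mul]
    have e1 : ((fun i => Complex.exp (y i)) * fun i => Complex.exp (-(y i))) = (1 : X → ℂ) := by
      funext i
      rw [Pi.mul_apply, ← Complex.exp_add, add_neg_cancel, Complex.exp_zero, Pi.one_apply]
    rw [e1, map_one]
  have hw1 : W.map (ev 0 t σ) * W'.map (ev 0 t σ) = 1 := by
    rw [← Matrix.map_mul, hWW.1, Matrix.map_one _ (map_zero _) (map_one _)]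
  have hw2 : W'.map (ev 0 t σ) * W.map (ev 0 t σ) = 1 := by
    rw [← Matrix.map_mul, hWW.2, Matrix.map_one _ (map_zero _) (map_one _)]
  refine ⟨W.map (ev 0 t σ), (hI _).2 ⟨⟨fromBlocks
    (dg R R' h1 h2 fun i => Complex.exp (-(t * σ (x i)))) 0 0 (W'.map (ev 0 t σ)), ?_, ?_⟩,
    fun p hp => ?_⟩⟩
  · rw [fromBlocks_multiply, hdd, hw1]
    simp
  · have e1 := hdd fun i => -(t * σ (x i))
    simp only [neg_neg] at e1
    rw [fromBlocks_multiply, e1, hw2]
    simp
  · let P : EPoly := MvPolynomial.eval₂ cst (fun b : (N ⊕ M) × (N ⊕ M) => V b.1 b.2) p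
    have hP : ∀ (u t : ℂ) (σ : ℂ →+ ℂ), ev u t σ P =
        MvPolynomial.eval (fun b => (V.map (ev u t σ)) b.1 b.2) p := by
      intro u t σ
      change ev u t σ (MvPolynomial.eval₂ _ _ _) = _
      rw [MvPolynomial.hom_eval₂]
      have e1 : (ev u t σ).comp cst = RingHom.id ℂ := RingHom.ext fun c => ev_cst u t σ c
      rw [e1]
      rfl
    have hP0 : P = 0 := ev_inj fun s => by
      rw [hP, hV1]
      exact ((hI _).1 (hx s)).2 p hp
    have h3 := hP 0 t σ
    rw [hP0, map_zero, hV2] at h3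
    exact h3.symm

end Pool.Agent.T9h38.CS
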