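import Pool.Agent.T9h38.CS.Cnt
import Pool.Agent.T9h38.CS.EP
import Pool.Agent.T9h38.CM.Fam
import Pool.Agent.N192.GP.TorW

set_option autoImplicit false
set_option linter.unusedSectionVars false

/-!
# Lie algebras closed under replicas
-/

open Module Function TensorProduct Matrix

noncomputable section

namespace Pool.Agent.T9h38.CS

open Pool.Agent.Y102 Pool.Agent.W516.DR Pool.Agent.H204R3.GP Pool.Agent.W516.KC
  Pool.Agent.H204R3.SP Pool.Agent.TH119.MX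
open Pool.Agent.N192.GP hiding XX QQ
open Pool.Agent.T9h38.CM hiding RR RI

/-! ### The eigenvalues -/

section Eig

variable {d : ℕ}

/-- The eigenvalues of a rational matrix. -/
def eigV (Y : Module.End ℚ (Fin d → ℚ)) : Set ℂ := eigs (toC Y)ᵀ

theorem mem_eigV {Y : Module.End ℚ (Fin d → ℚ)} {μ : ℂ} : μ ∈ eigV Y ↔
    Polynomial.eval₂ (algebraMap ℚ ℂ) μ (LinearMap.toMatrix' Y).charpoly = 0 := by
  unfold eigV eigs
  rw [Set.mem_setOf_eq, Matrix.charpoly_transpose, toC_eq, Matrix.charpoly_map,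
    Polynomial.IsRoot.def, Polynomial.eval_map]

theorem eigV_stable {Y : Module.End ℚ (Fin d → ℚ)} (τ : ℂ ≃+* ℂ) {μ : ℂ} (h : μ ∈ eigV Y) :
    τ μ ∈ eigV Y := by
  rw [mem_eigV] at h ⊢
  have h1 := Polynomial.hom_eval₂ (LinearMap.toMatrix' Y).charpoly (algebraMap ℚ ℂ)
    (τ : ℂ →+* ℂ) μ
  rw [h, map_zero, show ((τ : ℂ →+* ℂ).comp (algebraMap ℚ ℂ)) = algebraMap ℚ ℂ from
    Subsingleton.elim _ _] at h1
  exact h1.symm

/-- The space spanned by the eigenvalues and one. -/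
def LV (Y : Module.End ℚ (Fin d → ℚ)) : Submodule ℚ ℂ := Submodule.span ℚ (insert 1 (eigV Y))

theorem one_mem_LV (Y : Module.End ℚ (Fin d → ℚ)) : (1 : ℂ) ∈ LV Y :=
  Submodule.subset_span (Set.mem_insert _ _)

theorem rat_mem_LV (Y : Module.End ℚ (Fin d → ℚ)) (q : ℚ) : (q : ℂ) ∈ LV Y := by
  have h1 := (LV Y).smul_mem q (one_mem_LV Y)
  rwa [Rat.smul_def, mul_one] at h1

theorem eig_mem_LV {Y : Module.End ℚ (Fin d → ℚ)} {μ : ℂ} (h : μ ∈ eigV Y) : μ ∈ LV Y :=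
  Submodule.subset_span (Set.mem_insert_of_mem _ h)

theorem LV_stable (Y : Module.End ℚ (Fin d → ℚ)) (τ : ℂ ≃+* ℂ) (z : ℂ) (hz : z ∈ LV Y) :
    τ z ∈ LV Y := by
  unfold LV at hz
  induction hz using Submodule.span_induction with
  | mem z hz =>
    rcases hz with rfl | hz
    · rw [map_one]
      exact one_mem_LV Y
    · exact eig_mem_LV (eigV_stable τ hz)
  | zero =>
    rw [map_zero]
    exact Submodule.zero_mem _
  | add a b _ _ ha hb =>
    rw [map_add]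
    exact Submodule.add_mem _ ha hb
  | smul q a _ ha =>
    rw [map_smulQ]
    exact Submodule.smul_mem _ _ ha

end Eig

/-! ### Closed Lie algebras -/

variable {K : Type} [Fintype K] [DecidableEq K] {g : K → ℕ} {A : ∀ k, AbVar (g k)} {F : K → Type}
  [∀ k, Field (F k)] [∀ k, NumberField (F k)] [∀ k, NumberField.IsCMField (F k)]
  (ι : ∀ k, F k →+* Module.End ℚ (A k).H1) {d : ℕ} (V : DRS d)

local instance decL (k : K) : DecidableEq (F k →+* ℂ) := Classical.decEq _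

local instance decLX : DecidableEq (Emb F) := Classical.decEq _

/-- The algebra. -/
abbrev RS (g : K → ℕ) (d : ℕ) : Type := RR (nn g fun _ : Unit => d)

/-- The action on the abelian members. -/
def ap (A : ∀ k, AbVar (g k)) (ℓ : RS g d) (k : K) : Module.End ℚ (A k).H1 := ℓ.1 (Sum.inl k)

/-- The action on the last member. -/
def vp (ℓ : RS g d) : Module.End ℚ (Fin d → ℚ) := ℓ.1 (Sum.inr ())

/-- The elements given by elements of the fields. -/
def elt (b : ∀ k, F k) : RS g d :=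
  (fun t => match t with
    | Sum.inl k => ι k (b k)
    | Sum.inr _ => 0, 0)

theorem ap_elt (b : ∀ k, F k) (k : K) : ap A (elt ι b : RS g d) k = ι k (b k) := rfl

theorem vp_elt (b : ∀ k, F k) : vp (elt ι b : RS g d) = 0 := rfl

theorem snd_elt (b : ∀ k, F k) : (elt ι b : RS g d).2 = 0 := rfl

theorem ext_RS {x y : RS g d} (h1 : ∀ k, ap A x k = ap A y k) (h2 : vp x = vp y) (h3 : x.2 = y.2) :
    x = y := by
  refine Prod.ext (funext fun t => ?_) h3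
  rcases t with k | u
  · exact h1 k
  · exact h2

theorem elt_add (b b' : ∀ k, F k) : (elt ι (b + b') : RS g d) = elt ι b + elt ι b' := by
  refine ext_RS (A := A) (fun k => ?_) ?_ ?_
  · change ι k (b k + b' k) = ι k (b k) + ι k (b' k)
    rw [map_add]
  · change (0 : Module.End ℚ (Fin d → ℚ)) = 0 + 0
    rw [add_zero]
  · change (0 : ℚ) = 0 + 0
    rw [add_zero]

/-- The Lie algebras which are closed under replicas. -/
structure Closed (𝔥 : Submodule ℚ (RS g d)) : Prop where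
  br : Br 𝔥
  gn : ∀ D lam, gn (ηη A fun _ => V) D lam ∈ 𝔥
  kl : ∀ ℓ ∈ 𝔥, ∀ (a b : ∀ k, F k) (σ : ℂ →ₗ[ℚ] ℂ), (∀ k, ι k (a k) = ap A ℓ k) → σ 1 = 0 →
    (∀ μ ∈ eigV (vp ℓ), σ μ = 0) → (∀ k (φ : F k →+* ℂ), σ (φ (a k)) = φ (b k)) → elt ι b ∈ 𝔥

/-- The smallest closed Lie algebra. -/
def hmin : Submodule ℚ (RS g d) := sInf {𝔥 | Closed ι V 𝔥}

theorem hmin_le {𝔥 : Submodule ℚ (RS g d)} (h : Closed ι V 𝔥) : hmin ι V ≤ 𝔥 := sInf_le h

theorem hmin_closed : Closed ι V (hmin ι V) where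
  br := by
    intro x hx y hy
    unfold hmin at hx hy ⊢
    rw [Submodule.mem_sInf] at hx hy ⊢
    intro 𝔥 h
    exact h.br x (hx 𝔥 h) y (hy 𝔥 h)
  gn := by
    intro D lam
    unfold hmin
    rw [Submodule.mem_sInf]
    intro 𝔥 h
    exact h.gn D lam
  kl := by
    intro ℓ hℓ a b σ h1 h2 h3 h4
    unfold hmin at hℓ ⊢
    rw [Submodule.mem_sInf] at hℓ ⊢
    intro 𝔥 h
    exact h.kl ℓ (hℓ 𝔥 h) a b σ h1 h2 h3 h4

theorem LG_le_hmin : LG (ηη A fun _ : Unit => V) ≤ hmin ι V :=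
  LG_le _ (hmin_closed ι V).br (hmin_closed ι V).gn

/-- The elements which act on the abelian members by elements of the fields. -/
def gd : Submodule ℚ (RS g d) where
  carrier := {ℓ | ∀ k, ∃ a, ι k a = ap A ℓ k ∧ ∀ φ : F k →+* ℂ, cj φ a + φ a = ((ℓ.2 : ℚ) : ℂ)}
  zero_mem' := fun k => ⟨0, map_zero _, fun φ => by
    rw [map_zero, map_zero, Prod.snd_zero, Rat.cast_zero, add_zero]⟩
  add_mem' := by
    intro x y hx hy k
    obtain ⟨a, h1, h2⟩ := hx k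
    obtain ⟨a', h1', h2'⟩ := hy k
    refine ⟨a + a', by rw [map_add, h1, h1']; rfl, fun φ => ?_⟩
    rw [map_add, map_add, Prod.snd_add, Rat.cast_add, ← h2 φ, ← h2' φ]
    ring
  smul_mem' := by
    intro c x hx k
    obtain ⟨a, h1, h2⟩ := hx k
    refine ⟨c • a, by rw [iota_smul, h1]; rfl, fun φ => ?_⟩
    rw [chi_smul, chi_smul, Prod.smul_snd, smul_eq_mul, Rat.cast_mul, ← h2 φ]
    ring

variable {ι} {V}

theorem gd_closed (hD : ∀ k, Dat (ι k) (fun φ : F k →+* ℂ => φ) cj) : Closed ι V (gd ι) where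
  br := by
    intro x hx y hy k
    obtain ⟨a, h1, h2⟩ := hx k
    obtain ⟨a', h1', h2'⟩ := hy k
    refine ⟨0, ?_, fun φ => ?_⟩
    · change ι k 0 = ap A x k * ap A y k - ap A y k * ap A x k
      rw [← h1, ← h1', ← map_mul, ← map_mul, mul_comm a a', sub_self, map_zero]
    · have h3 : (x * y - y * x).2 = 0 := by
        rw [Prod.snd_sub, Prod.snd_mul, Prod.snd_mul, mul_comm, sub_self]
      rw [h3, map_zero, map_zero, Rat.cast_zero, add_zero]
  gn := by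
    intro D lam k
    have h0 : pr (Sum.inl k) (N192.GP.gn (ηη A fun _ : Unit => V) D lam) ∈
        gg (ηη A fun _ : Unit => V) (Sum.inl k) := ⟨_, gn_mem_LG _ D lam, rfl⟩
    have h1 := (gg_full A (fun _ : Unit => V) k).le h0
    obtain ⟨a, ha⟩ := exists_of_NA (hD k) h1
    have ha' : ι k a ∈ (A k).NA := by
      rw [ha]
      exact h1
    refine ⟨a + (tt D lam / 2) • 1, ?_, fun φ => ?_⟩
    · rw [map_add, ha, iota_smul, map_one]
      change ap A (N192.GP.gn (ηη A fun _ : Unit => V) D lam) k - (tt D lam / 2) • 1 + _ = _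
      rw [sub_add_cancel]
    · have h2 := conj_neg (hD k) ha' φ
      change cj φ a = -φ a at h2
      rw [map_add, map_add, h2, chi_smul, chi_smul, map_one, map_one]
      change _ = ((tt D lam : ℚ) : ℂ)
      push_cast
      ring
  kl := by
    intro ℓ hℓ a b σ h1 h2 h3 h4 k
    refine ⟨b k, rfl, fun φ => ?_⟩
    obtain ⟨a', h5, h6⟩ := hℓ k
    have h7 : a' = a k :=
      (bij (hD k)).1 (LinearMap.congr_fun (h5.trans (h1 k).symm) (v0 (hD k)))
    rw [h7] at h6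
    rw [← h4, ← h4, ← map_add, h6 φ, snd_elt, Rat.cast_zero]
    have h8 : ((ℓ.2 : ℚ) : ℂ) = ℓ.2 • (1 : ℂ) := by
      rw [Rat.smul_def, mul_one]
    rw [h8, map_smul, h2, smul_zero]

theorem exists_fam (hD : ∀ k, Dat (ι k) (fun φ : F k →+* ℂ => φ) cj) {ℓ : RS g d}
    (hℓ : ℓ ∈ hmin ι V) : ∃ a : ∀ k, F k, (∀ k, ι k (a k) = ap A ℓ k) ∧
      ∀ k (φ : F k →+* ℂ), cj φ (a k) + φ (a k) = ((ℓ.2 : ℚ) : ℂ) := by
  have h1 := hmin_le ι V (gd_closed hD) hℓ
  choose a ha using h1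
  exact ⟨a, fun k => (ha k).1, fun k => (ha k).2⟩

/-! ### The odd parts -/

/-- the system -/
def pp (a : ∀ k, F k) (x : Emb F) : ℂ := x.2 (a x.1) - cj x.2 (a x.1)

theorem pp_sys (a : ∀ k, F k) : Sys (pp a) where
  odd := by
    rintro ⟨k, φ⟩
    change cj φ (a k) - cj (cj φ) (a k) = -(φ (a k) - cj φ (a k))
    rw [cj_cj]
    ring
  equi := by
    rintro τ ⟨k, φ⟩
    change (mv τ φ) (a k) - cj (mv τ φ) (a k) = τ (φ (a k) - cj φ (a k))
    rw [← mv_cj, mv_apply, mv_apply, map_sub]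

/-- **The replicas.** -/
theorem elt_mem (hdis : ∀ i j, i ≠ j → DisjointFields (F i) (F j)) {𝔥 : Submodule ℚ (RS g d)}
    (h𝔥 : Closed ι V 𝔥) {ℓ : RS g d} (hℓ : ℓ ∈ 𝔥) {a : ∀ k, F k}
    (ha : ∀ k, ι k (a k) = ap A ℓ k)
    (ha' : ∀ k (φ : F k →+* ℂ), cj φ (a k) + φ (a k) = ((ℓ.2 : ℚ) : ℂ)) {b : ∀ k, F k}
    (hb : ∀ k (φ : F k →+* ℂ), cj φ (b k) = -φ (b k))
    (hR : ∀ (k : K) (f : (F k →+* ℂ) → ℚ), (∀ φ, f (cj φ) = -f φ) →
      ∑ φ, f φ • pp a ⟨k, φ⟩ ∈ LV (vp ℓ) → ∑ φ, f φ • φ (b k) = 0) : elt ι b ∈ 𝔥 := by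
  obtain ⟨σ, h1, h2⟩ := exists_sigma hdis (pp_sys a) (L := LV (vp ℓ))
    (fun τ z hz => LV_stable _ τ z hz) (v := fun x => 2 * x.2 (b x.1)) (by
      rintro ⟨k, φ⟩
      change 2 * cj φ (b k) = -(2 * φ (b k))
      rw [hb]
      ring) (by
      intro k f hf h0
      have h3 := hR k f hf h0
      change ∑ φ, f φ • (2 * φ (b k)) = 0
      have h4 : ∀ φ : F k →+* ℂ, f φ • (2 * φ (b k)) = 2 * (f φ • φ (b k)) := fun φ => by
        rw [Rat.smul_def, Rat.smul_def]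
        ring
      rw [Finset.sum_congr rfl fun φ _ => h4 φ, ← Finset.mul_sum, h3, mul_zero])
  refine h𝔥.kl ℓ hℓ a b σ ha (h1 _ (one_mem_LV _)) (fun μ hμ => h1 _ (eig_mem_LV hμ))
    fun k φ => ?_
  have h3 : φ (a k) = (2⁻¹ : ℚ) • (pp a ⟨k, φ⟩ + ((ℓ.2 : ℚ) : ℂ)) := by
    rw [← ha' k φ, Rat.smul_def]
    change _ = _ * ((φ (a k) - cj φ (a k)) + (cj φ (a k) + φ (a k)))
    push_cast
    ring
  rw [h3, map_smul, map_add, h1 _ (rat_mem_LV _ _), h2, add_zero, Rat.smul_def]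
  change _ * (2 * φ (b k)) = _
  push_cast
  ring

/-- The vanishing of the relations. -/
theorem elt_mem_of_free (hdis : ∀ i j, i ≠ j → DisjointFields (F i) (F j))
    {𝔥 : Submodule ℚ (RS g d)} (h𝔥 : Closed ι V 𝔥) {ℓ : RS g d} (hℓ : ℓ ∈ 𝔥) {a : ∀ k, F k}
    (ha : ∀ k, ι k (a k) = ap A ℓ k)
    (ha' : ∀ k (φ : F k →+* ℂ), cj φ (a k) + φ (a k) = ((ℓ.2 : ℚ) : ℂ)) {k : K} {b : F k}
    (hb : ∀ φ : F k →+* ℂ, cj φ b = -φ b)
    (hR : ∀ f : (F k →+* ℂ) → ℚ, (∀ φ, f (cj φ) = -f φ) →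
      ∑ φ, f φ • pp a ⟨k, φ⟩ ∈ LV (vp ℓ) → ∑ φ, f φ • φ b = 0) : elt ι (Pi.single k b) ∈ 𝔥 := by
  refine elt_mem hdis h𝔥 hℓ ha ha' (fun j φ => ?_) fun j f hf h0 => ?_
  · by_cases h : j = k
    · subst h
      rw [Pi.single_eq_same]
      exact hb φ
    · rw [Pi.single_eq_of_ne h, map_zero, map_zero, neg_zero]
  · by_cases h : j = k
    · subst h
      rw [Pi.single_eq_same]
      exact hR f hf h0
    · rw [Pi.single_eq_of_ne h]
      refine Finset.sum_eq_zero fun φ _ => ?_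
      rw [map_zero, smul_zero]

end Pool.Agent.T9h38.CS
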