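import Pool.Agent.T9h38.CS.Res

set_option autoImplicit false
set_option linter.unusedSectionVars false

/-!
# The relations of a member modulo the eigenvalues of the last member
-/

open Module Function TensorProduct Matrix

noncomputable section

namespace Pool.Agent.T9h38.CS

open Pool.Agent.Y102 Pool.Agent.W516.DR Pool.Agent.H204R3.GP Pool.Agent.W516.KC
  Pool.Agent.H204R3.SP Pool.Agent.TH119.MX
open Pool.Agent.N192.GP hiding XX QQ
open Pool.Agent.T9h38.CM hiding RR RI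

variable {K : Type} [Fintype K] [DecidableEq K] {g : K → ℕ} {A : ∀ k, AbVar (g k)} {F : K → Type}
  [∀ k, Field (F k)] [∀ k, NumberField (F k)] [∀ k, NumberField.IsCMField (F k)]
  {ι : ∀ k, F k →+* Module.End ℚ (A k).H1} {d : ℕ} {V : DRS d}

local instance decRl (k : K) : DecidableEq (F k →+* ℂ) := Classical.decEq _

/-- The relations of a member modulo the eigenvalues of the last member. -/
def Rm (ι : ∀ k, F k →+* Module.End ℚ (A k).H1) (𝔩 : Submodule ℚ (RS g d)) (k : K) :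
    Submodule ℚ ((F k →+* ℂ) → ℚ) where
  carrier := {f | (∀ φ, f (cj φ) = -f φ) ∧ ∀ ℓ ∈ 𝔩, ∀ a : F k, ι k a = ap A ℓ k →
    ∑ φ, f φ • (φ a - cj φ a) ∈ LV (vp ℓ)}
  zero_mem' := ⟨fun φ => by simp, fun ℓ _ a _ => by simp⟩
  add_mem' := by
    rintro f f' ⟨h1, h2⟩ ⟨h1', h2'⟩
    refine ⟨fun φ => by rw [Pi.add_apply, Pi.add_apply, h1, h1', neg_add], fun ℓ hℓ a ha => ?_⟩
    have h3 := (LV (vp ℓ)).add_mem (h2 ℓ hℓ a ha) (h2' ℓ hℓ a ha)
    rw [← Finset.sum_add_distrib] at h3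
    simpa only [Pi.add_apply, add_smul] using h3
  smul_mem' := by
    rintro q f ⟨h1, h2⟩
    refine ⟨fun φ => by rw [Pi.smul_apply, Pi.smul_apply, h1, smul_neg], fun ℓ hℓ a ha => ?_⟩
    have h3 := (LV (vp ℓ)).smul_mem q (h2 ℓ hℓ a ha)
    rw [Finset.smul_sum] at h3
    simpa only [Pi.smul_apply, smul_assoc] using h3

theorem mem_Rm {𝔩 : Submodule ℚ (RS g d)} {k : K} {f : (F k →+* ℂ) → ℚ} : f ∈ Rm ι 𝔩 k ↔
    (∀ φ, f (cj φ) = -f φ) ∧ ∀ ℓ ∈ 𝔩, ∀ a : F k, ι k a = ap A ℓ k →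
    ∑ φ, f φ • (φ a - cj φ a) ∈ LV (vp ℓ) := Iff.rfl

theorem Rm_stable {𝔩 : Submodule ℚ (RS g d)} {k : K} (τ : ℂ ≃+* ℂ) {f : (F k →+* ℂ) → ℚ}
    (hf : f ∈ Rm ι 𝔩 k) : (fun φ => f (mv τ φ)) ∈ Rm ι 𝔩 k := by
  obtain ⟨h1, h2⟩ := hf
  refine ⟨fun φ => ?_, fun ℓ hℓ a ha => ?_⟩
  · change f (mv τ (cj φ)) = -f (mv τ φ)
    rw [mv_cj, h1]
  · have h3 := LV_stable (vp ℓ) τ.symm _ (h2 ℓ hℓ a ha)
    rw [map_sum] at h3
    have h4 : ∑ φ, f (mv τ φ) • (φ a - cj φ a) = ∑ φ : F k →+* ℂ, τ.symm (f φ • (φ a - cj φ a)) := by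
      rw [← Equiv.sum_comp (mvE τ) fun φ : F k →+* ℂ => τ.symm (f φ • (φ a - cj φ a))]
      refine Finset.sum_congr rfl fun φ _ => ?_
      change _ = τ.symm (f (mv τ φ) • (mv τ φ a - cj (mv τ φ) a))
      rw [← mv_cj, mv_apply, mv_apply, ← map_sub, map_smulQ, RingEquiv.symm_apply_apply]
    rw [h4]
    exact h3

/-- The relations of one abelian variety. -/
abbrev R1 {g : ℕ} {A : AbVar g} {F : Type} [Field F] [NumberField F] [NumberField.IsCMField F]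
    (ι : F →+* Module.End ℚ A.H1) {d : ℕ} (V : DRS d) : Submodule ℚ ((F →+* ℂ) → ℚ) :=
  Rm (K := Unit) (g := fun _ => g) (A := fun _ => A) (F := fun _ => F) (fun _ => ι)
    (LG (ηη (fun _ : Unit => A) fun _ : Unit => V)) ()

/-- The relations only depend on the member. -/
theorem Rm_LG (k : K) : Rm ι (LG (ηη A fun _ : Unit => V)) k = R1 (ι k) V := by
  have h1 : LG (ηη A fun _ : Unit => V) ≤
      (LG (ηη (fun _ : Unit => A k) fun _ : Unit => V)).comap (res k) := by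
    refine LG_le _ (fun x hx y hy => ?_) fun D lam => ?_
    · rw [Submodule.mem_comap, res_br]
      exact LG_br _ _ hx _ hy
    · rw [Submodule.mem_comap, res_gn]
      exact gn_mem_LG _ D lam
  have h2 : LG (ηη (fun _ : Unit => A k) fun _ : Unit => V) ≤
      (LG (ηη A fun _ : Unit => V)).map (res k) := by
    refine LG_le _ ?_ fun D lam => ?_
    · rintro _ ⟨x, hx, rfl⟩ _ ⟨y, hy, rfl⟩
      exact ⟨x * y - y * x, LG_br _ x hx y hy, res_br k x y⟩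
    · exact ⟨_, gn_mem_LG _ D lam, res_gn k D lam⟩
  ext f
  constructor
  · rintro ⟨h3, h4⟩
    refine ⟨h3, fun ℓ' hℓ' a ha => ?_⟩
    obtain ⟨ℓ, hℓ, rfl⟩ := h2 hℓ'
    exact h4 ℓ hℓ a ha
  · rintro ⟨h3, h4⟩
    refine ⟨h3, fun ℓ hℓ a ha => ?_⟩
    exact h4 (res k ℓ) (h1 hℓ) a ha

section One

variable {g₀ : ℕ} {A₀ : AbVar g₀} {F₀ : Type} [Field F₀] [NumberField F₀]
  [NumberField.IsCMField F₀]

local instance decRo : DecidableEq (F₀ →+* ℂ) := Classical.decEq _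

/-- Exceptional abelian varieties. -/
def Exc (ι : F₀ →+* Module.End ℚ A₀.H1) (V : DRS d) : Prop :=
  ∃ φ ψ : F₀ →+* ℂ, φ ≠ ψ ∧ eps cj φ - eps cj ψ ∈ R1 ι V

theorem small_of_not_exc {ι : F₀ →+* Module.End ℚ A₀.H1} {V : DRS d} (h : ¬Exc ι V) :
    IsSmall (R1 ι V) where
  stable := fun τ _ hf => Rm_stable τ hf
  odd := fun _ hf => hf.1
  small := fun φ ψ hne hmem => h ⟨φ, ψ, hne, hmem⟩

end One

/-! ### Generic elements -/

theorem exists_fam_LG (hD : ∀ k, Dat (ι k) (fun φ : F k →+* ℂ => φ) cj) {ℓ : RS g d}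
    (hℓ : ℓ ∈ LG (ηη A fun _ : Unit => V)) : ∃ a : ∀ k, F k, (∀ k, ι k (a k) = ap A ℓ k) ∧
      ∀ k (φ : F k →+* ℂ), cj φ (a k) + φ (a k) = ((ℓ.2 : ℚ) : ℂ) :=
  exists_fam hD (LG_le_hmin ι V hℓ)

theorem exists_generic_LG (hD : ∀ k, Dat (ι k) (fun φ : F k →+* ℂ => φ) cj)
    (φ ψ : ∀ k, (F k →+* ℂ)) (hne : ∀ k, φ k ≠ ψ k) :
    ∃ ℓ ∈ LG (ηη A fun _ : Unit => V), ∀ k a, ι k a = ap A ℓ k → φ k a ≠ ψ k a := by
  by_contra hcon
  push Not at hcon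
  let W : K → Submodule ℚ (LG (ηη A fun _ : Unit => V)) := fun k =>
    { carrier := {ℓ | ∃ a, ι k a = ap A ℓ.1 k ∧ φ k a = ψ k a}
      zero_mem' := ⟨0, map_zero _, by rw [map_zero, map_zero]⟩
      add_mem' := by
        rintro x y ⟨a, h1, h2⟩ ⟨b, h1', h2'⟩
        exact ⟨a + b, by rw [map_add, h1, h1']; rfl, by rw [map_add, map_add, h2, h2']⟩
      smul_mem' := by
        rintro q x ⟨a, h1, h2⟩
        exact ⟨q • a, by rw [iota_smul, h1]; rfl, by rw [chi_smul, chi_smul, h2]⟩ }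
  have h1 : ⋃ k, (W k : Set (LG (ηη A fun _ : Unit => V))) = Set.univ := by
    refine Set.eq_univ_of_forall fun ℓ => ?_
    obtain ⟨k, a, h2, h3⟩ := hcon ℓ.1 ℓ.2
    exact Set.mem_iUnion.2 ⟨k, a, h2, h3⟩
  obtain ⟨k, hk⟩ := Subspace.exists_eq_top_of_iUnion_eq_univ (k := ℚ)
    (E := LG (ηη A fun _ : Unit => V)) (p := W) h1
  obtain ⟨a, ha, hne'⟩ := exists_ne (hD k) (gg_full A (fun _ : Unit => V) k) (hne k)
  obtain ⟨ℓ, hℓ, h2⟩ := ha
  have h3 : (⟨ℓ, hℓ⟩ : LG (ηη A fun _ : Unit => V)) ∈ W k := by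
    rw [hk]
    exact Submodule.mem_top
  obtain ⟨b, h4, h5⟩ := h3
  apply hne'
  have h6 : ι k (b - (ℓ.2 / 2) • 1) = ι k a := by
    rw [map_sub, iota_smul, map_one, h4, ← h2]
    rfl
  have h7 := iota_inj (hD k) h6
  change φ k a = ψ k a
  rw [← h7, map_sub, map_sub, chi_smul, chi_smul, map_one, map_one, h5]

end Pool.Agent.T9h38.CS
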