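import Pool.Agent.T9h38.CS.Lie

set_option autoImplicit false
set_option linter.unusedSectionVars false

/-!
# The restriction to one member, and the number of exceptional members
-/

open Module Function TensorProduct Matrix

noncomputable section

namespace Pool.Agent.T9h38.CS

open Pool.Agent.Y102 Pool.Agent.W516.DR Pool.Agent.H204R3.GP Pool.Agent.W516.KC
  Pool.Agent.H204R3.SP Pool.Agent.TH119.MX
open Pool.Agent.N192.GP hiding XX QQ
open Pool.Agent.T9h38.CM hiding RR RI

/-- The smallest closed Lie algebra of one abelian variety and of `V`. -/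
abbrev hm1 {g : ℕ} {A : AbVar g} {F : Type} [Field F] [NumberField F] [NumberField.IsCMField F]
    (ι : F →+* Module.End ℚ A.H1) {d : ℕ} (V : DRS d) : Submodule ℚ (RS (fun _ : Unit => g) d) :=
  hmin (K := Unit) (g := fun _ => g) (A := fun _ => A) (F := fun _ => F) (fun _ => ι) V

/-- The elements of one abelian variety. -/
abbrev el1 {g : ℕ} {A : AbVar g} {F : Type} [Field F] [NumberField F] [NumberField.IsCMField F]
    (ι : F →+* Module.End ℚ A.H1) (d : ℕ) (b : F) : RS (fun _ : Unit => g) d :=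
  elt (K := Unit) (g := fun _ => g) (A := fun _ => A) (F := fun _ => F) (fun _ => ι) fun _ => b

/-- The structure is independent of the abelian variety. -/
def Full1 {g : ℕ} {A : AbVar g} {F : Type} [Field F] [NumberField F] [NumberField.IsCMField F]
    (ι : F →+* Module.End ℚ A.H1) {d : ℕ} (V : DRS d) : Prop :=
  ∀ b : F, (∀ φ : F →+* ℂ, cj φ b = -φ b) → el1 ι d b ∈ hm1 ι V

variable {K : Type} [Fintype K] [DecidableEq K] {g : K → ℕ} {A : ∀ k, AbVar (g k)} {F : K → Type}
  [∀ k, Field (F k)] [∀ k, NumberField (F k)] [∀ k, NumberField.IsCMField (F k)]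
  {ι : ∀ k, F k →+* Module.End ℚ (A k).H1} {d : ℕ} {V : DRS d}

local instance decR (k : K) : DecidableEq (F k →+* ℂ) := Classical.decEq _

local instance decRX : DecidableEq (Emb F) := Classical.decEq _

/-- The restriction to one abelian member. -/
def res (k : K) : RS g d →ₗ[ℚ] RS (fun _ : Unit => g k) d where
  toFun ℓ := (fun t => match t with
    | Sum.inl _ => ℓ.1 (Sum.inl k)
    | Sum.inr _ => ℓ.1 (Sum.inr ()), ℓ.2)
  map_add' x y := by
    refine Prod.ext (funext fun t => ?_) rfl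
    rcases t with u | u <;> rfl
  map_smul' c x := by
    refine Prod.ext (funext fun t => ?_) rfl
    rcases t with u | u <;> rfl

theorem res_br (k : K) (x y : RS g d) : res k (x * y - y * x) = res k x * res k y - res k y * res k x := by
  refine Prod.ext (funext fun t => ?_) rfl
  rcases t with u | u <;> rfl

theorem res_gn (k : K) (D : Derivation QBar ℂ ℂ) (lam : ℂ →ₗ[ℚ] ℚ) :
    res k (gn (ηη A fun _ : Unit => V) D lam) =
      gn (ηη (fun _ : Unit => A k) fun _ : Unit => V) D lam := by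
  refine Prod.ext (funext fun t => ?_) rfl
  rcases t with u | u <;> rfl

theorem res_elt (k : K) (b : ∀ k, F k) : res k (elt ι b : RS g d) = el1 (ι k) d (b k) := by
  refine Prod.ext (funext fun t => ?_) rfl
  rcases t with u | u <;> rfl

theorem hmin_le_comap (k : K) : hmin ι V ≤ (hm1 (ι k) V).comap (res k) := by
  refine hmin_le ι V ⟨fun x hx y hy => ?_, fun D lam => ?_, fun ℓ hℓ a b σ h1 h2 h3 h4 => ?_⟩
  · rw [Submodule.mem_comap, res_br]
    exact (hmin_closed _ V).br _ hx _ hy
  · rw [Submodule.mem_comap, res_gn]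
    exact (hmin_closed _ V).gn D lam
  · rw [Submodule.mem_comap, res_elt]
    exact (hmin_closed _ V).kl (res k ℓ) hℓ (fun _ => a k) (fun _ => b k) σ (fun _ => h1 k) h2 h3
      fun _ φ => h4 k φ

theorem iota_inj {k : K} (hD : Dat (ι k) (fun φ : F k →+* ℂ => φ) cj) {a b : F k}
    (h : ι k a = ι k b) : a = b := (bij hD).1 (LinearMap.congr_fun h (v0 hD))

theorem hm1_le_map (hD : ∀ k, Dat (ι k) (fun φ : F k →+* ℂ => φ) cj)
    (hdis : ∀ i j, i ≠ j → DisjointFields (F i) (F j)) (k : K) :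
    hm1 (ι k) V ≤ (hmin ι V).map (res k) := by
  refine hmin_le _ V ⟨?_, fun D lam => ?_, ?_⟩
  · rintro _ ⟨x, hx, rfl⟩ _ ⟨y, hy, rfl⟩
    exact ⟨x * y - y * x, (hmin_closed ι V).br x hx y hy, res_br k x y⟩
  · exact ⟨_, (hmin_closed ι V).gn D lam, res_gn k D lam⟩
  · rintro _ ⟨ℓ, hℓ, rfl⟩ a' b' σ h1 h2 h3 h4
    obtain ⟨a, ha, ha'⟩ := exists_fam hD hℓ
    have e1 : a k = a' () := iota_inj (hD k) ((ha k).trans (h1 ()).symm)
    have h4' : ∀ φ : F k →+* ℂ, σ (φ (a k)) = φ (b' ()) := fun φ => by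
      rw [e1]
      exact h4 () φ
    have hLV : ∀ z ∈ LV (vp ℓ), σ z = 0 := by
      intro z hz
      unfold LV at hz
      induction hz using Submodule.span_induction with
      | mem z hz =>
        rcases hz with rfl | hz
        · exact h2
        · exact h3 z hz
      | zero => rw [map_zero]
      | add a b _ _ ha hb => rw [map_add, ha, hb, add_zero]
      | smul q a _ ha => rw [map_smul, ha, smul_zero]
    have hb : ∀ φ : F k →+* ℂ, cj φ (b' ()) = -φ (b' ()) := by
      intro φ
      have h5 := hLV _ (rat_mem_LV (vp ℓ) ℓ.2)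
      rw [← ha' k φ, map_add, h4', h4'] at h5
      linear_combination h5
    refine ⟨elt ι (Pi.single k (b' ())), ?_, ?_⟩
    · refine elt_mem_of_free hdis (hmin_closed ι V) hℓ ha ha' hb fun f hf h0 => ?_
      have h5 := hLV _ h0
      rw [map_sum] at h5
      have h6 : ∀ φ : F k →+* ℂ, σ (f φ • pp a ⟨k, φ⟩) = 2 * (f φ • φ (b' ())) := by
        intro φ
        rw [map_smul]
        change f φ • σ (φ (a k) - cj φ (a k)) = _
        rw [map_sub, h4', h4', hb, Rat.smul_def, Rat.smul_def]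
        ring
      rw [Finset.sum_congr rfl fun φ _ => h6 φ, ← Finset.mul_sum] at h5
      exact (mul_eq_zero.1 h5).resolve_left two_ne_zero
    · rw [res_elt, Pi.single_eq_same]

/-! ### Non exceptional members -/

theorem real_of_LV_zero {z : ℂ} (hz : z ∈ LV (0 : Module.End ℚ (Fin d → ℚ))) :
    (starRingEnd ℂ) z = z := by
  unfold LV at hz
  induction hz using Submodule.span_induction with
  | mem z hz =>
    rcases hz with rfl | hz
    · exact map_one _
    · rw [mem_eigV, map_zero, Matrix.charpoly_zero, Polynomial.eval₂_pow, Polynomial.eval₂_X] at hz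
      rw [eq_zero_of_pow_eq_zero hz, map_zero]
  | zero => rw [map_zero]
  | add a b _ _ ha hb => rw [map_add, ha, hb]
  | smul q a _ ha => rw [Rat.smul_def, map_mul, map_ratCast, ha]

theorem elt_sum (s : Finset K) (b : K → ∀ k, F k) :
    (elt ι (∑ j ∈ s, b j) : RS g d) = ∑ j ∈ s, elt ι (b j) := by
  classical
  induction s using Finset.induction_on with
  | empty =>
    rw [Finset.sum_empty, Finset.sum_empty]
    refine ext_RS (A := A) (fun k => ?_) rfl rfl
    change ι k 0 = 0
    exact map_zero _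
  | insert a s ha ih => rw [Finset.sum_insert ha, Finset.sum_insert ha, elt_add, ih]

/-- **Non exceptional members.** -/
theorem mem_of_full (hD : ∀ k, Dat (ι k) (fun φ : F k →+* ℂ => φ) cj)
    (hdis : ∀ i j, i ≠ j → DisjointFields (F i) (F j)) (hF : ∀ k, Full1 (ι k) V) {b : ∀ k, F k}
    (hb : ∀ k (φ : F k →+* ℂ), cj φ (b k) = -φ (b k)) : elt ι b ∈ hmin ι V := by
  have key : ∀ k, elt ι (Pi.single k (b k)) ∈ hmin ι V := by
    intro k
    obtain ⟨X, hX, h1⟩ := hm1_le_map hD hdis k (hF k (b k) (hb k))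
    have e1 : ap A X k = ι k (b k) := congrFun (congrArg Prod.fst h1) (Sum.inl ())
    have e2 : vp X = 0 := congrFun (congrArg Prod.fst h1) (Sum.inr ())
    obtain ⟨a, ha, ha'⟩ := exists_fam hD hX
    have e3 : a k = b k := iota_inj (hD k) ((ha k).trans e1)
    refine elt_mem_of_free hdis (hmin_closed ι V) hX ha ha' (hb k) fun f hf h0 => ?_
    rw [e2] at h0
    have h2 := real_of_LV_zero h0
    have h3 : ∑ φ, f φ • pp a ⟨k, φ⟩ = 2 * ∑ φ, f φ • φ (b k) := by
      rw [Finset.mul_sum]
      refine Finset.sum_congr rfl fun φ _ => ?_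
      change f φ • (φ (a k) - cj φ (a k)) = _
      rw [e3, hb, Rat.smul_def, Rat.smul_def]
      ring
    have h4 : (starRingEnd ℂ) (∑ φ, f φ • φ (b k)) = -∑ φ, f φ • φ (b k) := by
      rw [map_sum, ← Finset.sum_neg_distrib]
      refine Finset.sum_congr rfl fun φ _ => ?_
      rw [Rat.smul_def, map_mul, map_ratCast, ← cj_apply, hb]
      ring
    rw [h3, map_mul, h4, map_ofNat] at h2
    have h5 : (4 : ℂ) * ∑ φ, f φ • φ (b k) = 0 := by linear_combination -h2
    exact (mul_eq_zero.1 h5).resolve_left (by norm_num)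
  rw [← Finset.univ_sum_single b, elt_sum]
  exact Submodule.sum_mem _ fun k _ => key k

/-! ### Exceptional members -/

theorem exists_generic (hD : ∀ k, Dat (ι k) (fun φ : F k →+* ℂ => φ) cj) :
    ∃ ℓ ∈ hmin ι V, ∀ k, pr (Sum.inl k) ℓ ≠ 0 := by
  by_contra hcon
  push Not at hcon
  let W : K → Submodule ℚ (hmin ι V) := fun k =>
    LinearMap.ker ((pr (n := nn g fun _ : Unit => d) (Sum.inl k)).comp (hmin ι V).subtype)
  have h1 : ⋃ k, (W k : Set (hmin ι V)) = Set.univ := by
    refine Set.eq_univ_of_forall fun ℓ => ?_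
    obtain ⟨k, hk⟩ := hcon ℓ.1 ℓ.2
    exact Set.mem_iUnion.2 ⟨k, hk⟩
  obtain ⟨k, hk⟩ := Subspace.exists_eq_top_of_iUnion_eq_univ (k := ℚ) (E := hmin ι V) (p := W) h1
  obtain ⟨φ⟩ : Nonempty (F k →+* ℂ) := inferInstance
  obtain ⟨a, ha, hne⟩ := exists_ne (hD k) (gg_full A (fun _ : Unit => V) k) (x := φ) (y := cj φ)
    (cj_ne φ).symm
  obtain ⟨ℓ, hℓ, h2⟩ := ha
  have h3 : (⟨ℓ, LG_le_hmin ι V hℓ⟩ : hmin ι V) ∈ W k := by
    rw [hk]
    exact Submodule.mem_top
  have h4 : pr (Sum.inl k) ℓ = 0 := h3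
  apply hne
  have h5 : ι k a = ι k 0 := by
    rw [map_zero]
    exact h2.symm.trans h4
  rw [iota_inj (hD k) h5, map_zero, map_zero]

/-- **The count.** -/
theorem count (hD : ∀ k, Dat (ι k) (fun φ : F k →+* ℂ => φ) cj)
    (hdis : ∀ i j, i ≠ j → DisjointFields (F i) (F j)) (hI : ∀ k, Irr (F k))
    (hE : ∀ k, ¬Full1 (ι k) V) : ∑ k, 2 * g k ≤ d := by
  classical
  obtain ⟨ℓ, hℓ, hne⟩ := exists_generic (ι := ι) (V := V) hD
  obtain ⟨a, ha, ha'⟩ := exists_fam hD hℓ
  have hne' : ∀ k, ∃ φ : F k →+* ℂ, pp a ⟨k, φ⟩ ≠ 0 := by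
    intro k
    by_contra hcon
    push Not at hcon
    apply hne k
    obtain ⟨φ⟩ : Nonempty (F k →+* ℂ) := inferInstance
    have h1 : φ (a k) - cj φ (a k) = 0 := hcon φ
    have h2 := ha' k φ
    have h3 : φ (a k) = φ ((ℓ.2 / 2) • 1) := by
      rw [chi_smul, map_one]
      push_cast
      linear_combination (1 / 2 : ℂ) * h1 + (1 / 2 : ℂ) * h2
    have h4 := φ.injective h3
    have h5 := ha k
    rw [h4, iota_smul, map_one] at h5
    rw [pr_apply]
    change ap A ℓ k - (ℓ.2 / 2) • 1 = 0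
    rw [← h5, sub_self]
  have hLV : ∀ x, pp a x ∈ LV (vp ℓ) := by
    rintro ⟨k, φ⟩
    rcases irr_cases (hI k) (pp_sys a) (L := LV (vp ℓ)) (fun τ z hz => LV_stable _ τ z hz) with h | h
    · exfalso
      apply hE k
      intro b hb
      have h1 := hmin_le_comap (ι := ι) (V := V) k
        (elt_mem_of_free hdis (hmin_closed ι V) hℓ ha ha' hb fun f hf h0 => by
          rw [h f hf h0]
          simp)
      rw [Submodule.mem_comap, res_elt, Pi.single_eq_same] at h1
      exact h1
    · exact h φ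
  let P : Polynomial ℂ := ((toC (vp ℓ))ᵀ).charpoly
  have hP0 : P ≠ 0 := (Matrix.charpoly_monic _).ne_zero
  let Z : Finset ℂ := P.roots.toFinset
  have hZ : ∀ z, z ∈ Z ↔ z ∈ eigV (vp ℓ) := by
    intro z
    rw [Multiset.mem_toFinset, Polynomial.mem_roots hP0]
    rfl
  have hcard : Z.card ≤ d := by
    have h1 : Z.card ≤ P.natDegree := (Multiset.toFinset_card_le _).trans (Polynomial.card_roots' P)
    rwa [Matrix.charpoly_natDegree_eq_dim, Fintype.card_fin] at h1
  have hconj : ∀ z ∈ Z, (starRingEnd ℂ) z ∈ Z := by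
    intro z hz
    rw [hZ] at hz ⊢
    exact eigV_stable (starRingAut : ℂ ≃+* ℂ) hz
  have hQ : ∀ z ∈ LV (vp ℓ), (2⁻¹ : ℚ) • (z - (starRingEnd ℂ) z) ∈
      Submodule.span ℚ (Z : Set ℂ) := by
    intro z hz
    unfold LV at hz
    induction hz using Submodule.span_induction with
    | mem z hz =>
      rcases hz with rfl | hz
      · rw [map_one, sub_self, smul_zero]
        exact Submodule.zero_mem _
      · have h1 := (hZ z).2 hz
        exact Submodule.smul_mem _ _ (Submodule.sub_mem _ (Submodule.subset_span h1)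
          (Submodule.subset_span (hconj z h1)))
    | zero =>
      rw [map_zero, sub_self, smul_zero]
      exact Submodule.zero_mem _
    | add a b _ _ ha hb =>
      have e : (2⁻¹ : ℚ) • (a + b - (starRingEnd ℂ) (a + b)) =
          (2⁻¹ : ℚ) • (a - (starRingEnd ℂ) a) + (2⁻¹ : ℚ) • (b - (starRingEnd ℂ) b) := by
        rw [map_add, ← smul_add]
        congr 1
        ring
      rw [e]
      exact Submodule.add_mem _ ha hb
    | smul q a _ ha =>
      have e : (2⁻¹ : ℚ) • (q • a - (starRingEnd ℂ) (q • a)) =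
          q • ((2⁻¹ : ℚ) • (a - (starRingEnd ℂ) a)) := by
        rw [Rat.smul_def, Rat.smul_def, Rat.smul_def, Rat.smul_def, map_mul, map_ratCast]
        ring
      rw [e]
      exact Submodule.smul_mem _ _ ha
  have hpZ : ∀ x, pp a x ∈ Submodule.span ℚ (Z : Set ℂ) := by
    intro x
    have h1 := hQ _ (hLV x)
    have h2 : (2⁻¹ : ℚ) • (pp a x - (starRingEnd ℂ) (pp a x)) = pp a x := by
      rw [(pp_sys a).conj, (pp_sys a).odd, Rat.smul_def]
      push_cast
      ring
    rwa [h2] at h1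
  have h1 := card_le (pp_sys a) hdis hI hne' Z hconj hpZ
  rw [Fintype.card_sigma] at h1
  have h2 : ∀ k, Fintype.card (F k →+* ℂ) = 2 * g k := fun k => (hD k).card
  rw [Finset.sum_congr rfl fun k _ => h2 k] at h1
  exact h1.trans hcard

end Pool.Agent.T9h38.CS
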