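import Pool.Agent.T9h38.CS.CntG
import Pool.Agent.T9h38.CS.KillG
import Pool.Agent.T9h38.CS.Big

set_option autoImplicit false
set_option maxHeartbeats 1000000
set_option linter.unusedSectionVars false

/-!
# The groups contain the Hodge group, general case
-/

open Module Function TensorProduct Matrix

noncomputable section

namespace Pool.Agent.T9h38.CS

open Pool.Agent.Y102 Pool.Agent.W516.DR Pool.Agent.H204R3.GP Pool.Agent.W516.KC
  Pool.Agent.H204R3.SP Pool.Agent.TH119.MX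
open Pool.Agent.N192.GP hiding XX QQ
open Pool.Agent.N192.GT
open Pool.Agent.T9h38.CM hiding RR RI main
open Pool.Agent.R917 (QQ QA QQ_le_QA mem_QA lamF lamF_apply derQ hm hm_apply)

/-! ### The subgroup acting trivially on the last member -/

section Sub

variable {N M : Type} [Fintype N] [DecidableEq N] [Fintype M] [DecidableEq M]

/-- the element -/
def upN (M : Type) [Fintype M] [DecidableEq M] (y : GL N ℂ) : GL (N ⊕ M) ℂ :=
  ⟨fromBlocks (y : Matrix N N ℂ) 0 0 1, fromBlocks ((y⁻¹ : GL N ℂ) : Matrix N N ℂ) 0 0 1, by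
    rw [fromBlocks_multiply, ← Units.val_mul, mul_inv_cancel, Units.val_one]
    simp, by
    rw [fromBlocks_multiply, ← Units.val_mul, inv_mul_cancel, Units.val_one]
    simp⟩

theorem upN_val (y : GL N ℂ) : (upN M y : Matrix (N ⊕ M) (N ⊕ M) ℂ) =
    fromBlocks (y : Matrix N N ℂ) 0 0 1 := rfl

/-- The embedding. -/
def upH (N M : Type) [Fintype N] [DecidableEq N] [Fintype M] [DecidableEq M] :
    GL N ℂ →* GL (N ⊕ M) ℂ where
  toFun := upN M
  map_one' := by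
    apply Units.ext
    rw [upN_val, Units.val_one, Units.val_one, fromBlocks_one]
  map_mul' a b := by
    apply Units.ext
    rw [Units.val_mul, upN_val, upN_val, upN_val, fromBlocks_multiply, Units.val_mul]
    simp

/-- The subgroup which acts trivially on the last member. -/
def GN (G : Subgroup (GL (N ⊕ M) ℂ)) : Subgroup (GL N ℂ) := G.comap (upH N M)

theorem mem_GN {G : Subgroup (GL (N ⊕ M) ℂ)} {y : GL N ℂ} : y ∈ GN G ↔ upN M y ∈ G := Iff.rfl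

theorem GN_alg {G : Subgroup (GL (N ⊕ M) ℂ)}
    (hG : ∃ S : Set (MvPolynomial ((N ⊕ M) × (N ⊕ M)) ℚ), ∀ x : GL (N ⊕ M) ℂ,
      x ∈ G ↔ ∀ p ∈ S, MvPolynomial.aeval
        (fun b : (N ⊕ M) × (N ⊕ M) => (x : Matrix _ _ ℂ) b.1 b.2) p = 0) :
    ∃ S : Set (MvPolynomial (N × N) ℚ), ∀ x : GL N ℂ, x ∈ GN G ↔ ∀ p ∈ S,
      MvPolynomial.aeval (fun b : N × N => (x : Matrix N N ℂ) b.1 b.2) p = 0 := by
  obtain ⟨S, hS⟩ := hG
  let C : Matrix (N ⊕ M) (N ⊕ M) (MvPolynomial (N × N) ℚ) :=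
    fromBlocks (Matrix.of fun i j => MvPolynomial.X (i, j)) 0 0 1
  let θ : MvPolynomial ((N ⊕ M) × (N ⊕ M)) ℚ →ₐ[ℚ] MvPolynomial (N × N) ℚ :=
    MvPolynomial.aeval fun b => C b.1 b.2
  refine ⟨θ '' S, fun y => ?_⟩
  have hθ : ∀ p, MvPolynomial.aeval (fun b : N × N => (y : Matrix N N ℂ) b.1 b.2) (θ p) =
      MvPolynomial.aeval
        (fun b : (N ⊕ M) × (N ⊕ M) => (upN M y : Matrix _ _ ℂ) b.1 b.2) p := by
    intro p
    change ((MvPolynomial.aeval (fun b : N × N => (y : Matrix N N ℂ) b.1 b.2)).comp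
      (MvPolynomial.aeval fun b => C b.1 b.2)) p = _
    rw [MvPolynomial.comp_aeval]
    congr 2
    funext b
    obtain ⟨b1, b2⟩ := b
    rw [upN_val]
    change MvPolynomial.aeval _ (fromBlocks (Matrix.of fun i j => MvPolynomial.X (i, j)) 0 0 1
      b1 b2) = _
    rcases b1 with i | i <;> rcases b2 with j | j
    · rw [fromBlocks_apply₁₁, fromBlocks_apply₁₁, Matrix.of_apply, MvPolynomial.aeval_X]
    · rw [fromBlocks_apply₁₂, fromBlocks_apply₁₂, Matrix.zero_apply, Matrix.zero_apply, map_zero]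
    · rw [fromBlocks_apply₂₁, fromBlocks_apply₂₁, Matrix.zero_apply, Matrix.zero_apply, map_zero]
    · rw [fromBlocks_apply₂₂, fromBlocks_apply₂₂, Matrix.one_apply, Matrix.one_apply]
      split_ifs
      · rw [map_one]
      · rw [map_zero]
  rw [mem_GN, hS]
  constructor
  · rintro h _ ⟨p, hp, rfl⟩
    rw [hθ]
    exact h p hp
  · intro h p hp
    rw [← hθ]
    exact h _ ⟨p, hp, rfl⟩

theorem exists_GN {G : Subgroup (GL (N ⊕ M) ℂ)} {D D' : Matrix N N ℂ} (h1 : D * D' = 1)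
    (h2 : D' * D = 1)
    (h : fromBlocks D 0 0 (1 : Matrix M M ℂ) ∈
      {Z : Matrix (N ⊕ M) (N ⊕ M) ℂ | ∃ x ∈ G, (x : Matrix _ _ ℂ) = Z}) :
    ∃ y ∈ GN G, (y : Matrix N N ℂ) = D := by
  obtain ⟨x, hx, hxD⟩ := h
  refine ⟨⟨D, D', h1, h2⟩, ?_, rfl⟩
  rw [mem_GN]
  have h3 : upN M (⟨D, D', h1, h2⟩ : GL N ℂ) = x := Units.ext hxD.symm
  rw [h3]
  exact hx

end Sub

/-! ### The relations of the group -/

variable {K : Type} [Fintype K] [DecidableEq K] {g : K → ℕ} {A : ∀ k, AbVar (g k)} {F : K → Type}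
  [∀ k, Field (F k)] [∀ k, NumberField (F k)] [∀ k, NumberField.IsCMField (F k)]
  {ι : ∀ k, F k →+* Module.End ℚ (A k).H1} {d : ℕ} {V : DRS d}

local instance decT (k : K) : DecidableEq (F k →+* ℂ) := Classical.decEq _

/-- The relations of the family. -/
def RK (ι : ∀ k, F k →+* Module.End ℚ (A k).H1) (𝔩 : Submodule ℚ (RS g d)) :
    Submodule ℚ (Emb F → ℚ) where
  carrier := {f | (∀ x, f (cc x) = -f x) ∧ ∀ ℓ ∈ 𝔩, ∀ a : ∀ k, F k,
    (∀ k, ι k (a k) = ap A ℓ k) → f ∈ Rs (pp a) (LV (vp ℓ))}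
  zero_mem' := ⟨fun x => by simp, fun ℓ _ a _ => Submodule.zero_mem _⟩
  add_mem' := by
    rintro f f' ⟨h1, h2⟩ ⟨h1', h2'⟩
    exact ⟨fun x => by rw [Pi.add_apply, Pi.add_apply, h1, h1', neg_add], fun ℓ hℓ a ha =>
      Submodule.add_mem _ (h2 ℓ hℓ a ha) (h2' ℓ hℓ a ha)⟩
  smul_mem' := by
    rintro q f ⟨h1, h2⟩
    exact ⟨fun x => by rw [Pi.smul_apply, Pi.smul_apply, h1, smul_neg], fun ℓ hℓ a ha =>
      Submodule.smul_mem _ q (h2 ℓ hℓ a ha)⟩

theorem comp_RK (hD : ∀ k, Dat (ι k) (fun φ : F k →+* ℂ => φ) cj)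
    (hdis : ∀ i j, i ≠ j → DisjointFields (F i) (F j)) {f : Emb F → ℚ}
    (hf : f ∈ RK ι (LG (ηη A fun _ : Unit => V))) (k : K) :
    (fun φ => f ⟨k, φ⟩) ∈ Rm ι (LG (ηη A fun _ : Unit => V)) k := by
  have h1 := comp_mem (J := RK ι (LG (ηη A fun _ : Unit => V)))
    (fun τ f hf => ⟨fun x => by
      change f (sg τ (cc x)) = -f (sg τ x)
      rw [sg_cc, hf.1], fun ℓ hℓ a ha =>
        Rs_stable (pp_sys a) (fun τ z hz => LV_stable _ τ z hz) τ (hf.2 ℓ hℓ a ha)⟩)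
    (fun f hf => hf.1) hdis hf k
  refine ⟨fun φ => hf.1 ⟨k, φ⟩, fun ℓ hℓ b hb => ?_⟩
  obtain ⟨a, ha, -⟩ := exists_fam_LG hD hℓ
  have h2 : a k = b := iota_inj (hD k) ((ha k).trans hb.symm)
  have h3 := (h1.2 ℓ hℓ a ha).2
  rw [sum_ext] at h3
  rw [← h2]
  exact h3

variable {G : Subgroup (GL (Row g fun _ : Unit => d) ℂ)}

theorem db_inv (hD : ∀ k, Dat (ι k) (fun φ : F k →+* ℂ => φ) cj)
    (y : (Σ k, (F k →+* ℂ)) → ℂ) : db hD (fun i => Complex.exp (y i)) *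
      db hD (fun i => Complex.exp (-(y i))) = 1 := by
  rw [← map_mul]
  have e1 : ((fun i => Complex.exp (y i)) * fun i => Complex.exp (-(y i))) =
      (1 : (Σ k, (F k →+* ℂ)) → ℂ) := by
    funext i
    rw [Pi.mul_apply, ← Complex.exp_add, add_neg_cancel, Complex.exp_zero, Pi.one_apply]
  rw [e1, map_one]

theorem exp_mem_H (hD : ∀ k, Dat (ι k) (fun φ : F k →+* ℂ => φ) cj)
    {H : Set (Matrix (Row g fun _ : Unit => d) (Row g fun _ : Unit => d) ℂ)}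
    (hH : PtW (bR g fun _ : Unit => d) (fR A fun _ : Unit => V) H) {ℓ : RS g d}
    (hℓ : ℓ ∈ LG (ηη A fun _ : Unit => V)) {a : ∀ k, F k} (ha : ∀ k, ι k (a k) = ap A ℓ k)
    (t : ℂ) :
    fromBlocks (db hD fun i => Complex.exp (t * i.2 (a i.1))) 0 0
      (NormedSpace.exp (t • Yb (vp ℓ))) ∈ H := by
  have h1 : ℓ ∈ hG H := hmin_le ι V (hG_closed hD hH) (LG_le_hmin ι V hℓ)
  rw [← exp_db, ← mat_eq hD ha]
  exact R917.exp_mem hH.grp fun δ => (mem_hG.1 h1 δ).smul t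

theorem rel_mem (hD : ∀ k, Dat (ι k) (fun φ : F k →+* ℂ => φ) cj)
    (hH : PtW (bR g fun _ : Unit => d) (fR A fun _ : Unit => V)
      {Z : Matrix (Row g fun _ : Unit => d) (Row g fun _ : Unit => d) ℂ |
        ∃ x ∈ G, (x : Matrix _ _ ℂ) = Z})
    {m : (Σ k, (F k →+* ℂ)) → ℤ} (hm : Rl (DD (Rb hD) (Ib hD) (Rb_Ib hD) (Ib_Rb hD) (GN G)) m)
    {ℓ : RS g d} (hℓ : ℓ ∈ LG (ηη A fun _ : Unit => V)) {a : ∀ k, F k}
    (ha : ∀ k, ι k (a k) = ap A ℓ k) :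
    ∑ x, (m x : ℚ) • x.2 (a x.1) ∈ LV (vp ℓ) := by
  by_contra hcon
  set z := ∑ x, (m x : ℚ) • x.2 (a x.1) with hz
  obtain ⟨σ, h1, h2⟩ := exists_lin (LV (vp ℓ)) (LinearMap.toSpanSingleton ℚ ℂ z)
    (LinearMap.toSpanSingleton ℚ ℂ 1) (fun q hq => by
      rw [LinearMap.toSpanSingleton_apply] at hq ⊢
      by_cases h0 : q = 0
      · rw [h0, zero_smul]
      · exact absurd ((Submodule.smul_mem_iff _ h0).1 hq) hcon)
  have h3 := h2 1
  rw [LinearMap.toSpanSingleton_apply, LinearMap.toSpanSingleton_apply, one_smul, one_smul] at h3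
  have h4 := kill hH.grp (Rb_Ib hD) (Ib_Rb hD) (fun x => x.2 (a x.1)) (Yb (vp ℓ))
    σ.toAddMonoidHom (fun μ hμ => h1 μ (eig_mem_LV (by rwa [eigs_Yb] at hμ)))
    (fun t => exp_mem_H hD hH hℓ ha t)
  have h5 : ∑ x, (m x : ℂ) * σ (x.2 (a x.1)) = 0 := by
    refine rel_of_exp (R := Rb hD) (R' := Ib hD) (h1 := Rb_Ib hD) (h2 := Ib_Rb hD) (G := GN G)
      (fun s => ?_) hm
    have h6 : NormedSpace.exp (s • db hD fun x => σ (x.2 (a x.1))) =
        db hD fun x => Complex.exp (s * σ (x.2 (a x.1))) := by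
      rw [dg_smul, dg_exp]
    rw [h6]
    refine exists_GN (D' := db hD fun x => Complex.exp (-(s * σ (x.2 (a x.1)))))
      (db_inv hD _) ?_ (h4 s)
    have h7 := db_inv hD fun x => -(s * σ (x.2 (a x.1)))
    simp only [neg_neg] at h7
    exact h7
  have h6 : σ z = ∑ x, (m x : ℂ) * σ (x.2 (a x.1)) := by
    rw [hz, map_sum]
    refine Finset.sum_congr rfl fun x _ => ?_
    rw [map_smul, Rat.smul_def]
    push_cast
    rfl
  rw [h6, h5] at h3
  exact zero_ne_one h3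

theorem odd_mem_RK (hD : ∀ k, Dat (ι k) (fun φ : F k →+* ℂ => φ) cj)
    (hH : PtW (bR g fun _ : Unit => d) (fR A fun _ : Unit => V)
      {Z : Matrix (Row g fun _ : Unit => d) (Row g fun _ : Unit => d) ℂ |
        ∃ x ∈ G, (x : Matrix _ _ ℂ) = Z})
    {m : (Σ k, (F k →+* ℂ)) → ℤ} (hm : Rl (DD (Rb hD) (Ib hD) (Rb_Ib hD) (Ib_Rb hD) (GN G)) m) :
    (fun x => (m x : ℚ) - m (cc x)) ∈ RK ι (LG (ηη A fun _ : Unit => V)) := by
  refine ⟨fun x => ?_, fun ℓ hℓ a ha => ⟨fun x => ?_, ?_⟩⟩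
  · change (m (cc x) : ℚ) - m (cc (cc x)) = -((m x : ℚ) - m (cc x))
    rw [cc_cc]
    ring
  · change (m (cc x) : ℚ) - m (cc (cc x)) = -((m x : ℚ) - m (cc x))
    rw [cc_cc]
    ring
  · obtain ⟨b, hb, hb'⟩ := exists_fam_LG (ι := ι) hD hℓ
    have hab : ∀ k, b k = a k := fun k => iota_inj (hD k) ((hb k).trans (ha k).symm)
    have ha' : ∀ x : Emb F, (cc x).2 (a (cc x).1) = ((ℓ.2 : ℚ) : ℂ) - x.2 (a x.1) := by
      rintro ⟨k, φ⟩
      have h1 := hb' k φ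
      rw [hab] at h1
      change cj φ (a k) = _ - φ (a k)
      rw [← h1]
      ring
    have h1 := rel_mem hD hH hm hℓ ha
    set u := ∑ x, (m x : ℚ) • x.2 (a x.1) with hu
    have h2 : ∑ x, ((m (cc x) : ℤ) : ℚ) • x.2 (a x.1) =
        (∑ x : Emb F, (m x : ℚ)) • ((ℓ.2 : ℚ) : ℂ) - u := by
      rw [hu, Finset.sum_smul, ← Finset.sum_sub_distrib,
        ← Equiv.sum_comp (ccE F) fun x => ((m (cc x) : ℤ) : ℚ) • x.2 (a x.1)]
      refine Finset.sum_congr rfl fun x _ => ?_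
      change ((m (cc (cc x)) : ℤ) : ℚ) • (cc x).2 (a (cc x).1) = _
      rw [cc_cc, ha', smul_sub]
    have h3 : ∀ x : Emb F, ((m x : ℚ) - m (cc x)) • pp a x =
        (2 : ℚ) • ((m x : ℚ) • x.2 (a x.1)) - (2 : ℚ) • (((m (cc x) : ℤ) : ℚ) • x.2 (a x.1)) -
          ((m x : ℚ) - m (cc x)) • ((ℓ.2 : ℚ) : ℂ) := by
      intro x
      have h4 : pp a x = 2 * x.2 (a x.1) - ((ℓ.2 : ℚ) : ℂ) := by
        change x.2 (a x.1) - (cc x).2 (a (cc x).1) = _
        rw [ha']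
        ring
      rw [h4, Rat.smul_def, Rat.smul_def, Rat.smul_def, Rat.smul_def, Rat.smul_def, Rat.smul_def]
      push_cast
      ring
    have h5 : ∑ x : Emb F, ((m x : ℚ) - m (cc x)) = 0 := by
      rw [Finset.sum_sub_distrib, ← Equiv.sum_comp (ccE F) fun x : Emb F => (m (cc x) : ℚ)]
      have h6 : ∀ x : Emb F, (m (cc ((ccE F) x)) : ℚ) = m x := by
        intro x
        change (m (cc (cc x)) : ℚ) = _
        rw [cc_cc]
      rw [Finset.sum_congr rfl fun x _ => h6 x, sub_self]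
    rw [Finset.sum_congr rfl fun x _ => h3 x, Finset.sum_sub_distrib, Finset.sum_sub_distrib,
      ← Finset.smul_sum, ← Finset.smul_sum, h2, ← Finset.sum_smul, h5, zero_smul, sub_zero]
    refine Submodule.sub_mem _ (Submodule.smul_mem _ _ h1) (Submodule.smul_mem _ _
      (Submodule.sub_mem _ (Submodule.smul_mem _ _ (rat_mem_LV _ _)) h1))

end Pool.Agent.T9h38.CS
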