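import Pool.Agent.T9h38.CS.TorG

set_option autoImplicit false
set_option maxHeartbeats 1000000
set_option linter.unusedSectionVars false

/-!
# The Hodge group and the weights
-/

open Module Function TensorProduct Matrix

noncomputable section

namespace Pool.Agent.T9h38.CS

open Pool.Agent.Y102 Pool.Agent.W516.DR Pool.Agent.H204R3.GP Pool.Agent.W516.KC
  Pool.Agent.H204R3.SP Pool.Agent.TH119.MX
open Pool.Agent.N192.GP hiding XX QQ
open Pool.Agent.N192.GT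
open Pool.Agent.T9h38.CM hiding RR RI main
open Pool.Agent.R917 (QQ QA QQ_le_QA mem_QA lamF lamF_apply derQ hm hm_apply)

/-- Small spaces of relations are explained by the type. -/
def Expl1 {g : ℕ} {A : AbVar g} {F : Type} [Field F] [NumberField F]
    (ι : F →+* Module.End ℚ A.H1) : Prop :=
  ∀ J : Submodule ℚ ((F →+* ℂ) → ℚ), IsSmall J → ∀ f ∈ J, ∀ s : Finset (F →+* ℂ),
    (∀ φ, φ ∈ s ↔ IsType ι φ) → ∑ φ ∈ s, f φ = 0

variable {K : Type} [Fintype K] [DecidableEq K] {g : K → ℕ} {A : ∀ k, AbVar (g k)} {F : K → Type}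
  [∀ k, Field (F k)] [∀ k, NumberField (F k)] [∀ k, NumberField.IsCMField (F k)]
  {ι : ∀ k, F k →+* Module.End ℚ (A k).H1} {d : ℕ} {V : DRS d}

local instance decH (k : K) : DecidableEq (F k →+* ℂ) := Classical.decEq _

theorem db_eq (hD : ∀ k, Dat (ι k) (fun φ : F k →+* ℂ => φ) cj)
    (y : (Σ k, (F k →+* ℂ)) → ℂ) :
    db hD y = blockDiagonal' fun k => dh (hD k) fun φ => y ⟨k, φ⟩ := by
  rw [dg_apply]
  unfold Rb Ib
  have h1 : (diagonal y) =
      blockDiagonal' fun k => diagonal fun φ : F k →+* ℂ => y ⟨k, φ⟩ := by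
    rw [blockDiagonal'_diagonal]
  rw [h1, ← blockDiagonal'_mul, ← blockDiagonal'_mul]
  congr 1

variable {G : Subgroup (GL (Row g fun _ : Unit => d) ℂ)}

/-- The set of the matrices of the group. -/
abbrev HS (G : Subgroup (GL (Row g fun _ : Unit => d) ℂ)) :
    Set (Matrix (Row g fun _ : Unit => d) (Row g fun _ : Unit => d) ℂ) :=
  {Z | ∃ x ∈ G, (x : Matrix (Row g fun _ : Unit => d) (Row g fun _ : Unit => d) ℂ) = Z}

theorem sum_type_zero (hD : ∀ k, Dat (ι k) (fun φ : F k →+* ℂ => φ) cj)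
    (hdis : ∀ i j, i ≠ j → DisjointFields (F i) (F j)) (hE : ∀ k, ¬Exc (ι k) V)
    (hX : ∀ k, Expl1 (ι k)) (hH : PtW (bR g fun _ : Unit => d) (fR A fun _ : Unit => V) (HS G))
    {m : (Σ k, (F k →+* ℂ)) → ℤ} (hm : Rl (DD (Rb hD) (Ib hD) (Rb_Ib hD) (Ib_Rb hD) (GN G)) m)
    (k : K) {s : Finset (F k →+* ℂ)} (hs : ∀ φ, φ ∈ s ↔ IsType (ι k) φ) :
    ∑ φ ∈ s, (m ⟨k, φ⟩ - m ⟨k, cj φ⟩) = 0 := by
  have h1 := comp_RK hD hdis (odd_mem_RK hD hH hm) k
  rw [Rm_LG] at h1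
  have h2 := hX k _ (small_of_not_exc (hE k)) _ h1 s hs
  have h3 : ((∑ φ ∈ s, (m ⟨k, φ⟩ - m ⟨k, cj φ⟩) : ℤ) : ℚ) = 0 := by
    push_cast
    exact h2
  exact_mod_cast h3

/-- The circle. -/
theorem circle_mem (hD : ∀ k, Dat (ι k) (fun φ : F k →+* ℂ => φ) cj)
    (hdis : ∀ i j, i ≠ j → DisjointFields (F i) (F j)) (hE : ∀ k, ¬Exc (ι k) V)
    (hX : ∀ k, Expl1 (ι k))
    (hG : ∃ S : Set (MvPolynomial ((Row g fun _ : Unit => d) × (Row g fun _ : Unit => d)) ℚ),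
      ∀ x : GL (Row g fun _ : Unit => d) ℂ, x ∈ G ↔ ∀ p ∈ S, MvPolynomial.aeval
        (fun b : (Row g fun _ : Unit => d) × (Row g fun _ : Unit => d) =>
          (x : Matrix _ _ ℂ) b.1 b.2) p = 0)
    (hH : PtW (bR g fun _ : Unit => d) (fR A fun _ : Unit => V) (HS G)) {z : ℂ}
    (hz : ‖z‖ = 1) :
    ∃ x ∈ G, (x : Matrix (Row g fun _ : Unit => d) (Row g fun _ : Unit => d) ℂ) =
      fromBlocks (blockDiagonal' fun k => hm (A k) z) 0 0 1 := by
  classical
  have hz0 : z ≠ 0 := by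
    intro h
    rw [h, norm_zero] at hz
    exact zero_ne_one hz
  choose δ hδ hδ' using fun k => exists_diag (hD k)
  have hI : (Complex.I : ℂ) ≠ -Complex.I := by
    intro h0
    have e1 : (2 : ℂ) * Complex.I = 0 := by linear_combination h0
    rcases mul_eq_zero.1 e1 with e2 | e2
    · exact two_ne_zero e2
    · exact Complex.I_ne_zero e2
  let s : ∀ k, Finset (F k →+* ℂ) := fun k => Finset.univ.filter fun φ => δ k φ = Complex.I
  have hs : ∀ k φ, φ ∈ s k ↔ IsType (ι k) φ := by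
    intro k φ
    rw [type_iff (hD k) (hδ k) φ]
    simp [s]
  have hcs : ∀ k φ, cj φ ∈ s k ↔ φ ∉ s k := by
    intro k φ
    simp only [s, Finset.mem_filter, Finset.mem_univ, true_and]
    have h1 := delta_conj (hD k) (hδ k) φ
    rw [h1]
    rcases hδ' k φ with e1 | e1
    · rw [e1, Complex.conj_I]
      exact ⟨fun e => absurd e.symm hI, fun e => absurd rfl e⟩
    · rw [e1, map_neg, Complex.conj_I, neg_neg]
      exact ⟨fun _ e => hI e.symm, fun _ => rfl⟩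
  let u : ℂˣ := Units.mk0 z hz0
  let d0 : (Σ k, (F k →+* ℂ)) → ℂˣ := fun x => if x.2 ∈ s x.1 then u else u⁻¹
  have hd0 : d0 ∈ DD (Rb hD) (Ib hD) (Rb_Ib hD) (Ib_Rb hD) (GN G) := by
    refine mem_of_rel (GN_alg hG) fun m hm => ?_
    rw [Fintype.prod_sigma]
    refine Finset.prod_eq_one fun k _ => ?_
    have h1 := sum_type_zero hD hdis hE hX hH hm k (hs k)
    rw [← Finset.prod_mul_prod_compl (s k)]
    have e3 : ∏ φ ∈ s k, d0 ⟨k, φ⟩ ^ m ⟨k, φ⟩ = u ^ ∑ φ ∈ s k, m ⟨k, φ⟩ := by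
      rw [← prod_zpow]
      refine Finset.prod_congr rfl fun φ hφ => ?_
      rw [show d0 ⟨k, φ⟩ = u from if_pos hφ]
    have e4 : ∏ φ ∈ (s k)ᶜ, d0 ⟨k, φ⟩ ^ m ⟨k, φ⟩ = u⁻¹ ^ ∑ φ ∈ s k, m ⟨k, cj φ⟩ := by
      rw [← prod_zpow]
      refine Finset.prod_nbij' cj cj ?_ ?_ ?_ ?_ ?_
      · intro φ hφ
        rw [Finset.mem_compl] at hφ
        exact (hcs k φ).2 hφ
      · intro φ hφ
        rw [Finset.mem_compl, hcs, not_not]
        exact hφ
      · intro φ _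
        exact cj_cj φ
      · intro φ _
        exact cj_cj φ
      · intro φ hφ
        rw [show d0 ⟨k, φ⟩ = u⁻¹ from if_neg (Finset.mem_compl.1 hφ), cj_cj]
    rw [e3, e4, _root_.inv_zpow, ← _root_.zpow_neg, ← _root_.zpow_add, ← sub_eq_add_neg,
      ← Finset.sum_sub_distrib, h1, _root_.zpow_zero]
  obtain ⟨y, hy, hy'⟩ := hd0
  refine ⟨upN _ y, hy, ?_⟩
  rw [upN_val, hy']
  have hbd : db hD (fun x => ((d0 x : ℂˣ) : ℂ)) = blockDiagonal' fun k => hm (A k) z := by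
    rw [db_eq]
    congr 1
    funext k
    have e1 : (fun φ : F k →+* ℂ => ((d0 ⟨k, φ⟩ : ℂˣ) : ℂ)) =
        (z.re : ℂ) • (1 : (F k →+* ℂ) → ℂ) + (z.im : ℂ) • δ k := by
      funext φ
      rw [Pi.add_apply, Pi.smul_apply, Pi.smul_apply, Pi.one_apply, smul_eq_mul, smul_eq_mul,
        mul_one]
      by_cases hxs : φ ∈ s k
      · have e2 : δ k φ = Complex.I := by simpa [s] using hxs
        rw [show d0 ⟨k, φ⟩ = u from if_pos hxs, e2]
        exact (Complex.re_add_im z).symm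
      · have e2 : δ k φ = -Complex.I := by
          rcases hδ' k φ with e3 | e3
          · exact absurd (by simpa [s] using e3) hxs
          · exact e3
        rw [show d0 ⟨k, φ⟩ = u⁻¹ from if_neg hxs, e2]
        have e3 : ((u⁻¹ : ℂˣ) : ℂ) = (starRingEnd ℂ) z := by
          rw [Units.val_inv_eq_inv_val]
          change z⁻¹ = _
          rw [Complex.inv_def, Complex.normSq_eq_norm_sq, hz]
          simp
        rw [e3]
        conv_lhs => rw [← Complex.re_add_im z]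
        rw [map_add, map_mul, Complex.conj_ofReal, Complex.conj_ofReal, Complex.conj_I]
    have hsm : ∀ (c : ℂ) (y : (F k →+* ℂ) → ℂ), dh (hD k) (c • y) = c • dh (hD k) y := by
      intro c y
      ext i j
      rw [Matrix.smul_apply, dg_entry, dg_entry, smul_eq_mul, Finset.mul_sum]
      refine Finset.sum_congr rfl fun x _ => ?_
      rw [Pi.smul_apply, smul_eq_mul]
      ring
    rw [e1, map_add, hsm, hsm, map_one, R917.hm_eq (A k) z, hδ]
  rw [← hbd]

/-- The scalars. -/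
theorem scalar_mem (hD : ∀ k, Dat (ι k) (fun φ : F k →+* ℂ => φ) cj)
    (hH : PtW (bR g fun _ : Unit => d) (fR A fun _ : Unit => V) (HS G)) (w : ℂ) :
    ∃ x ∈ G, ∃ v, (x : Matrix (Row g fun _ : Unit => d) (Row g fun _ : Unit => d) ℂ) =
      fromBlocks (Complex.exp w • (1 : Matrix (Σ k, Fin (2 * g k)) (Σ k, Fin (2 * g k)) ℂ)) 0 0 v := by
  obtain ⟨D, lam, hne⟩ := R917.exists_der
  have h0 : tt D lam ≠ 0 := by
    have h1 : lam (D tau / (2 * tau)) = tt D lam / 2 := by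
      unfold tt
      have h2 : D tau / (2 * tau) = (2⁻¹ : ℚ) • (D tau / tau) := by
        rw [Rat.smul_def]
        push_cast
        rw [mul_comm (2 : ℂ) tau, ← div_div, div_eq_mul_inv _ (2 : ℂ), mul_comm]
      rw [h2, map_smul, smul_eq_mul]
      ring
    rw [h1] at hne
    intro h
    rw [h, zero_div] at hne
    exact hne rfl
  have hℓ := gn_mem_LG (ηη A fun _ : Unit => V) D lam
  obtain ⟨a, ha, ha'⟩ := exists_fam_LG (ι := ι) hD hℓ
  let σ : ℂ →+ ℂ := Complex.ofRealHom.toAddMonoidHom.comp Complex.reAddGroupHom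
  have hσ : ∀ z : ℂ, σ z = (z.re : ℂ) := fun z => rfl
  obtain ⟨v, x, hx, hxv⟩ := killG hH.grp (Rb_Ib hD) (Ib_Rb hD) (fun x => x.2 (a x.1))
    (Yb (vp (gn (ηη A fun _ : Unit => V) D lam))) σ (fun t => exp_mem_H hD hH hℓ ha t)
    (2 * w / (tt D lam : ℚ))
  refine ⟨x, hx, v, hxv.trans ?_⟩
  have h1 : (fun i : Σ k, (F k →+* ℂ) =>
      Complex.exp (2 * w / (tt D lam : ℚ) * σ (i.2 (a i.1)))) = fun _ => Complex.exp w := by
    funext i
    have h2 := congrArg Complex.re (ha' i.1 i.2)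
    rw [Complex.add_re, cj_apply, Complex.conj_re] at h2
    have h3 : ((((gn (ηη A fun _ : Unit => V) D lam).2 : ℚ) : ℂ)).re = (tt D lam : ℝ) := by
      change (((tt D lam : ℚ) : ℂ)).re = _
      rw [Complex.ratCast_re]
    rw [h3] at h2
    have h4 : (i.2 (a i.1)).re = (tt D lam : ℝ) / 2 := by linarith
    rw [hσ, h4]
    congr 1
    push_cast
    have h5 : ((tt D lam : ℚ) : ℂ) ≠ 0 := by exact_mod_cast h0
    field_simp
  have h2 : db hD (fun _ => Complex.exp w) =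
      Complex.exp w • (1 : Matrix (Σ k, Fin (2 * g k)) (Σ k, Fin (2 * g k)) ℂ) := by
    have h3 := dg_smul hD (Complex.exp w) 1
    rw [map_one] at h3
    rw [h3]
    congr 1
    funext i
    rw [Pi.one_apply, mul_one]
  rw [h1]
  change fromBlocks (db hD fun _ => Complex.exp w) 0 0 v = _
  rw [h2]

/-- **The Deligne torus.** -/
theorem torus_memG (hD : ∀ k, Dat (ι k) (fun φ : F k →+* ℂ => φ) cj)
    (hdis : ∀ i j, i ≠ j → DisjointFields (F i) (F j)) (hE : ∀ k, ¬Exc (ι k) V)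
    (hX : ∀ k, Expl1 (ι k))
    (hG : ∃ S : Set (MvPolynomial ((Row g fun _ : Unit => d) × (Row g fun _ : Unit => d)) ℚ),
      ∀ x : GL (Row g fun _ : Unit => d) ℂ, x ∈ G ↔ ∀ p ∈ S, MvPolynomial.aeval
        (fun b : (Row g fun _ : Unit => d) × (Row g fun _ : Unit => d) =>
          (x : Matrix _ _ ℂ) b.1 b.2) p = 0)
    (hH : PtW (bR g fun _ : Unit => d) (fR A fun _ : Unit => V) (HS G)) {z : ℂ}
    (hz : z ≠ 0) :
    ∃ x ∈ G, ∃ v, (x : Matrix (Row g fun _ : Unit => d) (Row g fun _ : Unit => d) ℂ) =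
      fromBlocks (blockDiagonal' fun k => hm (A k) z) 0 0 v := by
  have hn : ‖z‖ ≠ 0 := norm_ne_zero_iff.2 hz
  have hz1 : ‖((‖z‖⁻¹ : ℝ) : ℂ) * z‖ = 1 := by
    rw [norm_mul, Complex.norm_real, norm_inv, norm_norm, inv_mul_cancel₀ hn]
  obtain ⟨x, hx, hxz⟩ := circle_mem hD hdis hE hX hG hH hz1
  obtain ⟨y, hy, v, hyv⟩ := scalar_mem hD hH (G := G) ((Real.log ‖z‖ : ℝ) : ℂ)
  refine ⟨y * x, G.mul_mem hy hx, v, ?_⟩
  have h1 : Complex.exp ((Real.log ‖z‖ : ℝ) : ℂ) = ((‖z‖ : ℝ) : ℂ) := by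
    rw [← Complex.ofReal_exp, Real.exp_log (norm_pos_iff.2 hz)]
  rw [Units.val_mul, hxz, hyv, fromBlocks_multiply, h1]
  simp only [Matrix.mul_zero, Matrix.zero_mul, add_zero, zero_add, Matrix.mul_one,
    Matrix.smul_mul, Matrix.one_mul]
  congr 1
  rw [← blockDiagonal'_smul]
  congr 1
  funext k
  rw [Pi.smul_apply, ← R917.hm_real (A k), ← mul_assoc, ← Complex.ofReal_mul, mul_inv_cancel₀ hn,
    Complex.ofReal_one, one_mul]

end Pool.Agent.T9h38.CS
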